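import Mathlib

set_option autoImplicit false

/-!
Algebraic core: for pairwise non-parallel polynomials `q i` (differences nonconstant) and power
series `A i` (not all with zero constant term), the series `∑ A i (x) exp (q i (n) x)` has
`x`-order at most `N - 1`, where `N` is the number of terms.
-/

namespace Pool.Agent.Helper973.Alg

open PowerSeries

/-- the series `exp (a x)` over the rationals -/
noncomputable def E (a : ℚ) : ℚ⟦X⟧ := rescale a (exp ℚ)

lemma coeff_E (a : ℚ) (n : ℕ) : coeff n (E a) = a ^ n / (n.factorial : ℚ) := by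
  unfold E
  rw [coeff_rescale, coeff_exp]
  simp [div_eq_mul_inv]

lemma deriv_E (a : ℚ) : derivative ℚ (E a) = C a * E a := by
  ext n
  rw [coeff_derivative, coeff_C_mul, coeff_E, coeff_E, Nat.factorial_succ]
  push_cast
  have h1 : ((n : ℚ) + 1) ≠ 0 := by positivity
  have h2 : (n.factorial : ℚ) ≠ 0 := by positivity
  field_simp
  ring

/-- exponentials with distinct rates form a perfect system -/
lemma perfect (M : ℕ) : ∀ (V : Finset ℚ) (u : ℚ → ℕ) (G : ℚ → Polynomial ℚ),
    ∑ a ∈ V, u a + V.card ≤ M →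
    (∀ a ∈ V, (G a).degree < u a) →
    (∀ j < ∑ a ∈ V, u a, coeff j (∑ a ∈ V, (G a : ℚ⟦X⟧) * E a) = 0) →
    ∀ a ∈ V, G a = 0 := by
  induction M with
  | zero =>
    intro V u G hM _ _ a ha
    have : V.card = 0 := by omega
    rw [Finset.card_eq_zero] at this
    rw [this] at ha
    simp at ha
  | succ M ih =>
    intro V u G hM hdeg hcoeff
    by_cases hz : ∃ a ∈ V, u a = 0
    · obtain ⟨a, ha, hua⟩ := hz
      have hGa : G a = 0 := by
        have h1 := hdeg a ha
        rw [hua] at h1
        simpa using h1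
      have hs : ∑ b ∈ V.erase a, u b = ∑ b ∈ V, u b := by
        rw [← Finset.add_sum_erase V u ha, hua, zero_add]
      have hg : ∑ b ∈ V.erase a, (G b : ℚ⟦X⟧) * E b = ∑ b ∈ V, (G b : ℚ⟦X⟧) * E b := by
        rw [← Finset.add_sum_erase V _ ha, hGa]
        simp
      have hc : (V.erase a).card + 1 = V.card := Finset.card_erase_add_one ha
      have := ih (V.erase a) u G (by rw [hs]; omega)
        (fun b hb => hdeg b (Finset.mem_of_mem_erase hb))
        (by rw [hs, hg]; exact hcoeff)
      intro b hb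
      by_cases hab : b = a
      · rw [hab]; exact hGa
      · exact this b (Finset.mem_erase.2 ⟨hab, hb⟩)
    · push Not at hz
      rcases V.eq_empty_or_nonempty with hV | ⟨a, ha⟩
      · rw [hV]; simp
      have hua : 1 ≤ u a := Nat.one_le_iff_ne_zero.2 (hz a ha)
      -- new data
      let u' : ℚ → ℕ := fun b => if b = a then u a - 1 else u b
      let G' : ℚ → Polynomial ℚ := fun b => Polynomial.derivative (G b) + Polynomial.C (b - a) * G b
      have hsum : ∑ b ∈ V, u' b + 1 = ∑ b ∈ V, u b := by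
        rw [← Finset.add_sum_erase V u' ha, ← Finset.add_sum_erase V u ha]
        have h1 : ∑ b ∈ V.erase a, u' b = ∑ b ∈ V.erase a, u b := by
          apply Finset.sum_congr rfl
          intro b hb
          simp [u', (Finset.mem_erase.1 hb).1]
        rw [h1]
        simp only [u', if_true]
        omega
      have hderlt : ∀ p : Polynomial ℚ, p ≠ 0 → (Polynomial.derivative p).degree < p.degree :=
        fun p hp => Polynomial.degree_derivative_lt hp
      have hdeg' : ∀ b ∈ V, (G' b).degree < u' b := by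
        intro b hb
        by_cases hba : b = a
        · subst hba
          simp only [G', u', if_true, sub_self, map_zero, zero_mul, add_zero]
          by_cases hG0 : G b = 0
          · rw [hG0]; simp [WithBot.bot_lt_natCast]
          · have h1 := hderlt (G b) hG0
            have h2 := hdeg b hb
            rw [Polynomial.degree_eq_natDegree hG0] at h1 h2
            have h3 : (G b).natDegree < u b := by exact_mod_cast h2
            refine lt_of_lt_of_le h1 ?_
            exact_mod_cast (by omega : (G b).natDegree ≤ u b - 1)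
        · simp only [G', u', if_neg hba]
          refine lt_of_le_of_lt (Polynomial.degree_add_le _ _) ?_
          rw [max_lt_iff]
          constructor
          · exact lt_of_le_of_lt (Polynomial.degree_derivative_le) (hdeg b hb)
          · rw [Polynomial.degree_C_mul (sub_ne_zero.2 hba)]
            exact hdeg b hb
      have hser : ∑ b ∈ V, (G' b : ℚ⟦X⟧) * E b =
          derivative ℚ (∑ b ∈ V, (G b : ℚ⟦X⟧) * E b) - C a * ∑ b ∈ V, (G b : ℚ⟦X⟧) * E b := by
        rw [map_sum, Finset.mul_sum, ← Finset.sum_sub_distrib]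
        apply Finset.sum_congr rfl
        intro b _
        rw [Derivation.leibniz, deriv_E, derivative_coe]
        have hC : ((Polynomial.C (b - a) : Polynomial ℚ) : ℚ⟦X⟧) = C b - C a := by
          rw [Polynomial.coe_C, map_sub]
        simp only [G', smul_eq_mul, Polynomial.coe_add, Polynomial.coe_mul]
        rw [hC]
        ring
      have hcoeff' : ∀ j < ∑ b ∈ V, u' b, coeff j (∑ b ∈ V, (G' b : ℚ⟦X⟧) * E b) = 0 := by
        intro j hj
        rw [hser, map_sub, coeff_derivative, coeff_C_mul, hcoeff j (by omega),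
          hcoeff (j + 1) (by omega)]
        simp
      have hall := ih V u' G' (by omega) hdeg' hcoeff'
      have hother : ∀ b ∈ V, b ≠ a → G b = 0 := by
        intro b hb hba
        by_contra hG0
        have h1 := hall b hb
        simp only [G'] at h1
        have h2 : Polynomial.derivative (G b) = - (Polynomial.C (b - a) * G b) :=
          eq_neg_of_add_eq_zero_left h1
        have h3 := hderlt (G b) hG0
        rw [h2, Polynomial.degree_neg, Polynomial.degree_C_mul (sub_ne_zero.2 hba)] at h3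
        exact lt_irrefl _ h3
      have hGa : G a = 0 := by
        have h1 := hall a ha
        simp only [G', sub_self, map_zero, zero_mul, add_zero] at h1
        have h2 := Polynomial.derivative_eq_zero.1 h1
        obtain ⟨c, hc⟩ := Polynomial.natDegree_eq_zero.1 h2
        have h3 := hcoeff 0 (by omega)
        rw [← Finset.add_sum_erase V _ ha] at h3
        have h4 : ∑ b ∈ V.erase a, (G b : ℚ⟦X⟧) * E b = 0 := by
          apply Finset.sum_eq_zero
          intro b hb
          rw [hother b (Finset.mem_of_mem_erase hb) (Finset.mem_erase.1 hb).1]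
          simp
        rw [h4, ← hc, add_zero, Polynomial.coe_C, coeff_C_mul, coeff_E] at h3
        simp at h3
        rw [← hc, h3]; simp
      intro b hb
      by_cases hba : b = a
      · rw [hba]; exact hGa
      · exact hother b hb hba

/-- the series `exp (q(n) x)` with polynomial coefficients -/
noncomputable def EE (q : Polynomial ℚ) : (Polynomial ℚ)⟦X⟧ := rescale q (exp (Polynomial ℚ))

lemma coeff_EE (q : Polynomial ℚ) (n : ℕ) :
    coeff n (EE q) = Polynomial.C ((n.factorial : ℚ)⁻¹) * q ^ n := by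
  unfold EE
  rw [coeff_rescale, coeff_exp, mul_comm]
  congr 1
  rw [one_div]
  rfl

lemma EE_add (p q : Polynomial ℚ) : EE (p + q) = EE p * EE q := by
  unfold EE
  rw [exp_mul_exp_eq_exp_add]

/-- degree bound of weight `D` -/
def DegB (D : ℕ) (g : (Polynomial ℚ)⟦X⟧) : Prop := ∀ j, (coeff j g).natDegree ≤ D * j

/-- the component of weight `w` -/
noncomputable def wt (D w : ℕ) (g : (Polynomial ℚ)⟦X⟧) : ℚ⟦X⟧ :=
  mk fun j => if w ≤ D * j then (coeff j g).coeff (D * j - w) else 0

lemma coeff_wt (D w j : ℕ) (g : (Polynomial ℚ)⟦X⟧) :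
    coeff j (wt D w g) = if w ≤ D * j then (coeff j g).coeff (D * j - w) else 0 := by
  unfold wt; rw [coeff_mk]

lemma wt_sum {ι : Type*} (D w : ℕ) (S : Finset ι) (g : ι → (Polynomial ℚ)⟦X⟧) :
    wt D w (∑ i ∈ S, g i) = ∑ i ∈ S, wt D w (g i) := by
  ext j
  rw [coeff_wt, map_sum, map_sum]
  simp only [coeff_wt, Polynomial.finsetSum_coeff]
  split_ifs with h <;> simp

lemma wt_mul_EE (D w : ℕ) (a : ℚ) (g : (Polynomial ℚ)⟦X⟧) :
    wt D w (g * EE (Polynomial.C a * Polynomial.X ^ D)) = wt D w g * E a := by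
  ext j
  rw [coeff_wt, coeff_mul, coeff_mul, Polynomial.finsetSum_coeff]
  have hE : ∀ n, coeff n (EE (Polynomial.C a * Polynomial.X ^ D)) =
      Polynomial.C (a ^ n / (n.factorial : ℚ)) * Polynomial.X ^ (D * n) := by
    intro n
    rw [coeff_EE, mul_pow, ← Polynomial.C_pow, ← pow_mul, ← mul_assoc, ← Polynomial.C_mul]
    congr 2
    rw [div_eq_inv_mul]
  split_ifs with hw
  · apply Finset.sum_congr rfl
    intro x hx
    have hx' : x.1 + x.2 = j := Finset.HasAntidiagonal.mem_antidiagonal.1 hx
    rw [hE, coeff_wt, coeff_E, mul_left_comm, Polynomial.coeff_C_mul, Polynomial.coeff_mul_X_pow']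
    have hj : D * j = D * x.1 + D * x.2 := by rw [← hx']; ring
    by_cases h1 : w ≤ D * x.1
    · rw [if_pos (by omega), if_pos h1, mul_comm]
      congr 2
      omega
    · rw [if_neg (by omega), if_neg h1]
      simp
  · symm
    apply Finset.sum_eq_zero
    intro x hx
    have hx' : x.1 + x.2 = j := Finset.HasAntidiagonal.mem_antidiagonal.1 hx
    have hj : D * j = D * x.1 + D * x.2 := by rw [← hx']; ring
    rw [coeff_wt, if_neg (by omega), zero_mul]

/-- the exponential sum -/
noncomputable def gs {ι : Type*} (S : Finset ι) (q : ι → Polynomial ℚ) (A : ι → ℚ⟦X⟧) :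
    (Polynomial ℚ)⟦X⟧ :=
  ∑ i ∈ S, map (Polynomial.C : ℚ →+* Polynomial ℚ) (A i) * EE (q i)

lemma degB_term {D : ℕ} {q : Polynomial ℚ} (hq : q.natDegree ≤ D) (A : ℚ⟦X⟧) :
    DegB D (map (Polynomial.C : ℚ →+* Polynomial ℚ) A * EE q) := by
  intro j
  rw [coeff_mul]
  apply Polynomial.natDegree_sum_le_of_forall_le
  intro x hx
  have hx' : x.1 + x.2 = j := Finset.HasAntidiagonal.mem_antidiagonal.1 hx
  rw [coeff_map, coeff_EE, ← mul_assoc, ← Polynomial.C_mul]
  refine (Polynomial.natDegree_C_mul_le _ _).trans ?_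
  refine (Polynomial.natDegree_pow_le).trans ?_
  calc x.2 * q.natDegree ≤ x.2 * D := Nat.mul_le_mul_left _ hq
    _ ≤ D * j := by rw [mul_comm]; exact Nat.mul_le_mul_left _ (by omega)

lemma degB_gs {ι : Type*} {D : ℕ} (S : Finset ι) (q : ι → Polynomial ℚ) (A : ι → ℚ⟦X⟧)
    (hq : ∀ i ∈ S, (q i).natDegree ≤ D) : DegB D (gs S q A) := by
  intro j
  unfold gs
  rw [map_sum]
  apply Polynomial.natDegree_sum_le_of_forall_le
  intro i hi
  exact degB_term (hq i hi) (A i) j

/-- existence of a minimal weight whose component has a nonzero coefficient below `N` -/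
def Good (D : ℕ) : Prop := ∀ (ι : Type) (S : Finset ι) (q : ι → Polynomial ℚ) (A : ι → ℚ⟦X⟧),
  (∀ i ∈ S, (q i).natDegree ≤ D) →
  (∀ i ∈ S, ∀ j ∈ S, i ≠ j → 0 < (q i - q j).natDegree) →
  (∃ i ∈ S, coeff 0 (A i) ≠ 0) →
  ∃ w, (∀ w' < w, wt D w' (gs S q A) = 0) ∧ ∃ j < S.card, coeff j (wt D w (gs S q A)) ≠ 0

lemma good_zero : Good 0 := by
  intro ι S q A hdeg hdiff hA
  obtain ⟨i, hi, hAi⟩ := hA
  have hS : S = {i} := by
    apply Finset.eq_singleton_iff_unique_mem.2
    refine ⟨hi, fun j hj => ?_⟩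
    by_contra hne
    have h1 := hdiff j hj i hi hne
    have h2 : (q j - q i).natDegree ≤ 0 :=
      (Polynomial.natDegree_sub_le _ _).trans (max_le (hdeg j hj) (hdeg i hi))
    omega
  subst hS
  refine ⟨0, fun w' hw' => absurd hw' (Nat.not_lt_zero _), 0, by simp, ?_⟩
  rw [coeff_wt]
  simp only [gs, Finset.sum_singleton, mul_zero, le_refl, if_true, Nat.sub_zero]
  have h1 : coeff 0 (map (Polynomial.C : ℚ →+* Polynomial ℚ) (A i) * EE (q i)) =
      Polynomial.C (coeff 0 (A i)) := by
    rw [coeff_mul]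
    simp [coeff_EE]
  rw [h1, Polynomial.coeff_C_zero]
  exact hAi

/-- passing from scale `D` to scale `D + 1` -/
lemma up {D N : ℕ} {g : (Polynomial ℚ)⟦X⟧} (hg : DegB D g)
    (h : ∃ w, (∀ w' < w, wt D w' g = 0) ∧ ∃ j < N, coeff j (wt D w g) ≠ 0) :
    ∃ w, (∀ w' < w, wt (D + 1) w' g = 0) ∧ wt (D + 1) w g ≠ 0 ∧
      ∀ j, N ≤ j → coeff j (wt (D + 1) w g) = 0 := by
  classical
  obtain ⟨w, hw, j0, hj0, hc⟩ := h
  have hex : ∃ v, wt (D + 1) v g ≠ 0 := by
    refine ⟨j0 + w, fun h0 => hc ?_⟩
    have h1 : coeff j0 (wt (D + 1) (j0 + w) g) = 0 := by rw [h0]; simp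
    rw [coeff_wt] at h1 ⊢
    by_cases hle : w ≤ D * j0
    · rw [if_pos hle]
      rw [if_pos (by nlinarith)] at h1
      rw [← h1]
      congr 1
      have : (D + 1) * j0 = D * j0 + j0 := by ring
      omega
    · rw [if_neg hle]
  have hmin : ∀ v < Nat.find hex, wt (D + 1) v g = 0 := by
    intro v hv
    have := Nat.find_min hex hv
    simpa using this
  have hle0 : Nat.find hex ≤ j0 + w := by
    apply Nat.find_min'
    intro h0
    apply hc
    have h1 : coeff j0 (wt (D + 1) (j0 + w) g) = 0 := by rw [h0]; simp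
    rw [coeff_wt] at h1 ⊢
    by_cases hle : w ≤ D * j0
    · rw [if_pos hle]
      rw [if_pos (by nlinarith)] at h1
      rw [← h1]
      congr 1
      have : (D + 1) * j0 = D * j0 + j0 := by ring
      omega
    · rw [if_neg hle]
  refine ⟨Nat.find hex, hmin, Nat.find_spec hex, ?_⟩
  intro j hj
  by_contra hne
  rw [coeff_wt] at hne
  have hexp : (D + 1) * j = D * j + j := by ring
  have hle : Nat.find hex ≤ (D + 1) * j := by
    by_contra h1
    rw [if_neg h1] at hne
    exact hne rfl
  rw [if_pos hle] at hne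
  have hdeg : (D + 1) * j - Nat.find hex ≤ D * j :=
    (Polynomial.le_natDegree_of_ne_zero hne).trans (hg j)
  have hv : w ≤ Nat.find hex - j := by
    by_contra h1
    have h2 := hw (Nat.find hex - j) (by omega)
    have h3 : coeff j (wt D (Nat.find hex - j) g) = 0 := by rw [h2]; simp
    rw [coeff_wt, if_pos (by omega)] at h3
    apply hne
    rw [← h3]
    congr 1
    omega
  omega

/-- multiplication by a power of `x` shifts weights -/
lemma wt_shift {D m w : ℕ} {g : (Polynomial ℚ)⟦X⟧} (hg : DegB D g) :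
    wt D w (X ^ m * g) = if D * m ≤ w then X ^ m * wt D (w - D * m) g else 0 := by
  ext j
  rw [coeff_wt, coeff_X_pow_mul']
  split_ifs with h1 h2 h3 h2 h3
  · rw [coeff_X_pow_mul', if_pos h2, coeff_wt]
    have hj : D * j = D * (j - m) + D * m := by rw [← mul_add, Nat.sub_add_cancel h2]
    rw [if_pos (by omega)]
    congr 1
    omega
  · -- w < D * m
    rw [map_zero]
    apply Polynomial.coeff_eq_zero_of_natDegree_lt
    have hj : D * j = D * (j - m) + D * m := by rw [← mul_add, Nat.sub_add_cancel h2]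
    have := hg (j - m)
    omega
  · rw [coeff_X_pow_mul', if_neg (by assumption), Polynomial.coeff_zero]
  · simp
  · rw [coeff_X_pow_mul']
    split_ifs with h4
    · rw [coeff_wt]
      have hj : D * j = D * (j - m) + D * m := by rw [← mul_add, Nat.sub_add_cancel h4]
      rw [if_neg (by omega)]
    · rfl
  · simp

lemma DegB.mono {D D' : ℕ} (h : D ≤ D') {g : (Polynomial ℚ)⟦X⟧} (hg : DegB D g) : DegB D' g :=
  fun j => (hg j).trans (Nat.mul_le_mul_right _ h)

lemma cluster_lemma {D : ℕ} (hD : Good D) {ι : Type} (S : Finset ι) (r : ι → Polynomial ℚ)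
    (A : ι → ℚ⟦X⟧) (hdeg : ∀ i ∈ S, (r i).natDegree ≤ D)
    (hdiff : ∀ i ∈ S, ∀ j ∈ S, i ≠ j → 0 < (r i - r j).natDegree)
    (hne : ∃ i ∈ S, A i ≠ 0) :
    ∃ m w, (∀ i ∈ S, ∀ n < m, coeff n (A i) = 0) ∧
      (∀ w' < w, wt (D + 1) w' (gs S r A) = 0) ∧ wt (D + 1) w (gs S r A) ≠ 0 ∧
      (∀ j, m + S.card ≤ j → coeff j (wt (D + 1) w (gs S r A)) = 0) ∧ (D + 1) * m ≤ w := by
  classical
  have hex : ∃ m, ∃ i ∈ S, coeff m (A i) ≠ 0 := by
    obtain ⟨i, hi, hA⟩ := hne
    by_contra h
    push Not at h
    exact hA (PowerSeries.ext fun m => by simpa using h m i hi)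
  have hmin : ∀ i ∈ S, ∀ n < Nat.find hex, coeff n (A i) = 0 := by
    intro i hi n hn
    have h1 := Nat.find_min hex hn
    push Not at h1
    exact h1 i hi
  obtain ⟨i0, hi0, hi0c⟩ := Nat.find_spec hex
  set m := Nat.find hex with hm
  let A' : ι → ℚ⟦X⟧ := fun i => mk fun n => coeff (n + m) (A i)
  have hAA' : ∀ i ∈ S, A i = X ^ m * A' i := by
    intro i hi
    ext n
    rw [coeff_X_pow_mul']
    split_ifs with h
    · simp only [A', coeff_mk]
      rw [Nat.sub_add_cancel h]
    · exact hmin i hi n (by omega)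
  have hgs : gs S r A = X ^ m * gs S r A' := by
    unfold gs
    rw [Finset.mul_sum]
    apply Finset.sum_congr rfl
    intro i hi
    rw [hAA' i hi, map_mul, map_pow, map_X, mul_assoc]
  have h1 := hD ι S r A' hdeg hdiff ⟨i0, hi0, by simpa [A'] using hi0c⟩
  have hB : DegB D (gs S r A') := degB_gs S r A' hdeg
  obtain ⟨w1, hw1, hw1n, hw1N⟩ := up hB h1
  have hB' : DegB (D + 1) (gs S r A') := hB.mono (Nat.le_succ D)
  refine ⟨m, (D + 1) * m + w1, hmin, ?_, ?_, ?_, Nat.le_add_right _ _⟩
  · intro w' hw'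
    rw [hgs, wt_shift hB']
    split_ifs with h
    · rw [hw1 _ (by omega), mul_zero]
    · rfl
  · rw [hgs, wt_shift hB', if_pos (Nat.le_add_right _ _), Nat.add_sub_cancel_left]
    exact mul_ne_zero (pow_ne_zero _ X_ne_zero) hw1n
  · intro j hj
    rw [hgs, wt_shift hB', if_pos (Nat.le_add_right _ _), Nat.add_sub_cancel_left,
      coeff_X_pow_mul', if_pos (by omega)]
    exact hw1N _ (by omega)

lemma good_succ {D : ℕ} (hD : Good D) : Good (D + 1) := by
  classical
  intro ι S q A hdeg hdiff hA
  let lc : ι → ℚ := fun i => (q i).coeff (D + 1)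
  let r : ι → Polynomial ℚ := fun i => q i - Polynomial.C (lc i) * Polynomial.X ^ (D + 1)
  let cl : ℚ → Finset ι := fun a => S.filter (fun i => lc i = a)
  let V : Finset ℚ := S.image lc
  let g : ℚ → (Polynomial ℚ)⟦X⟧ := fun a => gs (cl a) r A
  have hclS : ∀ a, ∀ i ∈ cl a, i ∈ S ∧ lc i = a := fun a i hi => Finset.mem_filter.1 hi
  have hg : gs S q A = ∑ a ∈ V, g a * EE (Polynomial.C a * Polynomial.X ^ (D + 1)) := by
    have h1 : gs S q A = ∑ a ∈ V, ∑ i ∈ S.filter (fun i => lc i = a),
        map (Polynomial.C : ℚ →+* Polynomial ℚ) (A i) * EE (q i) := by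
      unfold gs
      rw [Finset.sum_fiberwise_of_maps_to]
      intro i hi
      exact Finset.mem_image_of_mem lc hi
    rw [h1]
    apply Finset.sum_congr rfl
    intro a _
    simp only [g, gs, Finset.sum_mul]
    apply Finset.sum_congr rfl
    intro i hi
    have hlc : lc i = a := (hclS a i hi).2
    rw [mul_assoc, ← EE_add]
    congr 2
    simp only [r, hlc]
    ring
  have hr : ∀ i ∈ S, (r i).natDegree ≤ D := by
    intro i hi
    rw [Polynomial.natDegree_le_iff_coeff_eq_zero]
    intro n hn
    simp only [r, Polynomial.coeff_sub, Polynomial.coeff_C_mul_X_pow]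
    by_cases h : n = D + 1
    · rw [if_pos h, h, sub_self]
    · rw [if_neg h, sub_zero]
      apply Polynomial.coeff_eq_zero_of_natDegree_lt
      have := hdeg i hi
      omega
  have hrd : ∀ a, ∀ i ∈ cl a, ∀ j ∈ cl a, i ≠ j → 0 < (r i - r j).natDegree := by
    intro a i hi j hj hij
    have h1 : r i - r j = q i - q j := by
      simp only [r, (hclS a i hi).2, (hclS a j hj).2]
      ring
    rw [h1]
    exact hdiff i (hclS a i hi).1 j (hclS a j hj).1 hij
  let V' : Finset ℚ := V.filter (fun a => ∃ i ∈ cl a, A i ≠ 0)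
  have hgz : ∀ a ∈ V, a ∉ V' → g a = 0 := by
    intro a ha ha'
    have h1 : ∀ i ∈ cl a, A i = 0 := by
      intro i hi
      by_contra hne
      exact ha' (Finset.mem_filter.2 ⟨ha, i, hi, hne⟩)
    simp only [g, gs]
    apply Finset.sum_eq_zero
    intro i hi
    rw [h1 i hi, map_zero, zero_mul]
  have claim : ∀ a, a ∈ V' → ∃ m w, (∀ i ∈ cl a, ∀ n < m, coeff n (A i) = 0) ∧
      (∀ w' < w, wt (D + 1) w' (g a) = 0) ∧ wt (D + 1) w (g a) ≠ 0 ∧
      (∀ j, m + (cl a).card ≤ j → coeff j (wt (D + 1) w (g a)) = 0) ∧ (D + 1) * m ≤ w := by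
    intro a ha
    exact cluster_lemma hD (cl a) r A (fun i hi => hr i (hclS a i hi).1) (hrd a)
      (Finset.mem_filter.1 ha).2
  choose! m w hm0 hw1 hw2 hw3 hw4 using claim
  obtain ⟨i0, hi0, hi0c⟩ := hA
  have has : lc i0 ∈ V' := by
    refine Finset.mem_filter.2 ⟨Finset.mem_image_of_mem lc hi0, i0,
      Finset.mem_filter.2 ⟨hi0, rfl⟩, ?_⟩
    intro h0
    rw [h0] at hi0c
    simp at hi0c
  have hms : m (lc i0) = 0 := by
    by_contra hne
    exact hi0c (hm0 _ has i0 (Finset.mem_filter.2 ⟨hi0, rfl⟩) 0 (Nat.pos_of_ne_zero hne))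
  obtain ⟨a0, ha0, hmin⟩ := Finset.exists_min_image V' w ⟨_, has⟩
  refine ⟨w a0, ?_, ?_⟩
  · intro w' hw'
    rw [hg, wt_sum]
    apply Finset.sum_eq_zero
    intro a ha
    rw [wt_mul_EE]
    by_cases haV : a ∈ V'
    · rw [hw1 a haV w' (lt_of_lt_of_le hw' (hmin a haV)), zero_mul]
    · rw [hgz a ha haV]
      have : wt (D + 1) w' 0 = 0 := by ext j; simp [coeff_wt]
      rw [this, zero_mul]
  · by_contra hcon
    push Not at hcon
    set w0 := w a0 with hw0
    let s : ℕ := (w0 + D) / (D + 1)
    have hs1 : ∀ j, w0 ≤ (D + 1) * j → s ≤ j := by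
      intro j hj
      apply Nat.le_of_lt_succ
      apply Nat.div_lt_of_lt_mul
      rw [Nat.mul_succ]
      omega
    have hs2 : ∀ k, (D + 1) * k ≤ w0 → k ≤ s := by
      intro k hk
      rw [Nat.le_div_iff_mul_le (Nat.succ_pos D), mul_comm]
      exact hk.trans (Nat.le_add_right _ _)
    let V0 : Finset ℚ := V'.filter (fun a => w a = w0)
    let u : ℚ → ℕ := fun a => m a + (cl a).card - s
    let G : ℚ → Polynomial ℚ := fun a =>
      trunc (u a) (mk fun j => coeff (j + s) (wt (D + 1) w0 (g a)))
    have hGg : ∀ a ∈ V0, wt (D + 1) w0 (g a) = X ^ s * (G a : ℚ⟦X⟧) := by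
      intro a ha
      obtain ⟨haV', hwa⟩ := Finset.mem_filter.1 ha
      ext j
      rw [coeff_X_pow_mul']
      split_ifs with h
      · simp only [G, Polynomial.coeff_coe, coeff_trunc, coeff_mk, Nat.sub_add_cancel h]
        split_ifs with h2
        · rfl
        · rw [← hwa]
          apply hw3 a haV'
          simp only [u] at h2
          omega
      · by_contra hne
        apply h
        apply hs1
        by_contra h3
        rw [coeff_wt, if_neg h3] at hne
        exact hne rfl
    have htot : wt (D + 1) w0 (gs S q A) = X ^ s * ∑ a ∈ V0, (G a : ℚ⟦X⟧) * E a := by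
      rw [hg, wt_sum, Finset.mul_sum]
      have h1 : ∑ a ∈ V, wt (D + 1) w0 (g a * EE (Polynomial.C a * Polynomial.X ^ (D + 1))) =
          ∑ a ∈ V0, wt (D + 1) w0 (g a * EE (Polynomial.C a * Polynomial.X ^ (D + 1))) := by
        symm
        apply Finset.sum_subset
        · intro a ha
          exact (Finset.mem_filter.1 (Finset.mem_filter.1 ha).1).1
        · intro a ha ha0
          rw [wt_mul_EE]
          by_cases haV : a ∈ V'
          · have hne : w a ≠ w0 := fun h => ha0 (Finset.mem_filter.2 ⟨haV, h⟩)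
            have := hmin a haV
            rw [hw1 a haV w0 (by omega), zero_mul]
          · rw [hgz a ha haV]
            have : wt (D + 1) w0 0 = 0 := by ext j; simp [coeff_wt]
            rw [this, zero_mul]
      rw [h1]
      apply Finset.sum_congr rfl
      intro a ha
      rw [wt_mul_EE, hGg a ha, mul_assoc]
    -- counting
    have hcard : S.card = ∑ a ∈ V, (cl a).card :=
      Finset.card_eq_sum_card_fiberwise (fun i hi => Finset.mem_image_of_mem lc hi)
    have hule : ∀ a ∈ V0, u a ≤ (cl a).card := by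
      intro a ha
      obtain ⟨haV', hwa⟩ := Finset.mem_filter.1 ha
      have := hs2 (m a) (by rw [← hwa]; exact hw4 a haV')
      simp only [u]
      omega
    have hsN : s < (cl (lc i0)).card := by
      have h1 : ∃ j, coeff j (wt (D + 1) (w (lc i0)) (g (lc i0))) ≠ 0 := by
        by_contra h
        push Not at h
        exact hw2 _ has (PowerSeries.ext fun j => by simpa using h j)
      obtain ⟨j, hj⟩ := h1
      have h2 : j < (cl (lc i0)).card := by
        by_contra h3
        exact hj (hw3 _ has j (by rw [hms]; omega))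
      have h3 : w (lc i0) ≤ (D + 1) * j := by
        by_contra h4
        rw [coeff_wt, if_neg h4] at hj
        exact hj rfl
      have h4 := hs1 j ((hmin _ has).trans h3)
      omega
    have hsum : ∑ a ∈ V0, u a + s ≤ S.card := by
      rw [hcard]
      by_cases hin : lc i0 ∈ V0
      · have h1 : u (lc i0) + s = (cl (lc i0)).card := by
          simp only [u, hms]
          omega
        have h2 : ∑ a ∈ V0, u a + s ≤ ∑ a ∈ V0, (cl a).card := by
          rw [← Finset.add_sum_erase V0 u hin, ← Finset.add_sum_erase V0 (fun a => (cl a).card) hin]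
          have h3 : ∑ a ∈ V0.erase (lc i0), u a ≤ ∑ a ∈ V0.erase (lc i0), (cl a).card :=
            Finset.sum_le_sum fun a ha => hule a (Finset.mem_of_mem_erase ha)
          omega
        refine h2.trans (Finset.sum_le_sum_of_subset ?_)
        intro a ha
        exact (Finset.mem_filter.1 (Finset.mem_filter.1 ha).1).1
      · have h2 : ∑ a ∈ insert (lc i0) V0, (cl a).card ≤ ∑ a ∈ V, (cl a).card := by
          apply Finset.sum_le_sum_of_subset
          intro a ha
          rcases Finset.mem_insert.1 ha with h | h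
          · rw [h]; exact (Finset.mem_filter.1 has).1
          · exact (Finset.mem_filter.1 (Finset.mem_filter.1 h).1).1
        rw [Finset.sum_insert hin] at h2
        have h3 : ∑ a ∈ V0, u a ≤ ∑ a ∈ V0, (cl a).card := Finset.sum_le_sum hule
        omega
    have hperf := perfect (∑ a ∈ V0, u a + V0.card) V0 u G le_rfl
      (fun a _ => by
        simp only [G]
        exact degree_trunc_lt _ _)
      (fun j hj => by
        have h1 := hcon (j + s) (by omega)
        rw [htot, coeff_X_pow_mul', if_pos (by omega), Nat.add_sub_cancel] at h1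
        exact h1)
    have ha00 : a0 ∈ V0 := Finset.mem_filter.2 ⟨ha0, rfl⟩
    have h1 := hGg a0 ha00
    rw [hperf a0 ha00, Polynomial.coe_zero, mul_zero] at h1
    exact hw2 a0 ha0 h1

lemma good (D : ℕ) : Good D := by
  induction D with
  | zero => exact good_zero
  | succ D ih => exact good_succ ih

/-- **Algebraic core.** -/
theorem order_lt {ι : Type} (S : Finset ι) (q : ι → Polynomial ℚ) (A : ι → ℚ⟦X⟧)
    (hdiff : ∀ i ∈ S, ∀ j ∈ S, i ≠ j → 0 < (q i - q j).natDegree)
    (hA : ∃ i ∈ S, coeff 0 (A i) ≠ 0) :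
    ∃ j < S.card, coeff j (gs S q A) ≠ 0 := by
  obtain ⟨w, -, j, hj, hne⟩ := good (S.sup fun i => (q i).natDegree) ι S q A
    (fun i hi => Finset.le_sup (f := fun i => (q i).natDegree) hi) hdiff hA
  refine ⟨j, hj, fun h0 => hne ?_⟩
  rw [coeff_wt, h0]
  simp

lemma taylor_coeff_formula {d j : ℕ} (hj : j ≤ d) (f : Polynomial ℚ) (hf : f.natDegree ≤ d)
    (r : ℚ) :
    ((d - j).factorial : ℚ) * (Polynomial.taylor r f).coeff (d - j) =
      ∑ x ∈ Finset.HasAntidiagonal.antidiagonal j,
        (((d - x.1).factorial : ℚ) * f.coeff (d - x.1)) * (((x.2).factorial : ℚ)⁻¹ * r ^ x.2) := by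
  rw [Polynomial.taylor_coeff]
  have h1 : (Polynomial.hasseDeriv (d - j) f).natDegree < j + 1 := by
    have := Polynomial.natDegree_hasseDeriv_le f (d - j)
    omega
  rw [Polynomial.eval_eq_sum_range' h1, Finset.mul_sum, ← Finset.Nat.sum_antidiagonal_swap]
  rw [Finset.Nat.sum_antidiagonal_eq_sum_range_succ_mk]
  apply Finset.sum_congr rfl
  intro l hl
  have hl' : l ≤ j := Nat.lt_succ_iff.1 (Finset.mem_range.1 hl)
  simp only [Prod.swap_prod_mk]
  rw [Polynomial.hasseDeriv_coeff]
  have e1 : l + (d - j) = d - (j - l) := by omega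
  rw [e1]
  have e2 : (d - (j - l)).choose (d - j) * (d - j).factorial * l.factorial
      = (d - (j - l)).factorial := by
    have h := Nat.choose_mul_factorial_mul_factorial (n := d - (j - l)) (k := d - j) (by omega)
    have e3 : d - (j - l) - (d - j) = l := by omega
    rw [e3] at h
    exact h
  have e4 : ((d - (j - l)).factorial : ℚ) =
      ((d - (j - l)).choose (d - j) : ℚ) * ((d - j).factorial : ℚ) * (l.factorial : ℚ) := by
    rw [← e2]; push_cast; ring
  rw [e4]
  have h2 : (l.factorial : ℚ) ≠ 0 := by positivity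
  field_simp

/-- If `∑ R i (y + p i (n)) = 0` identically, the `p i` have nonconstant pairwise differences, and
`d` is the maximal degree of the `R i`, then `d + 2` is at most the number of terms. -/
theorem deg_bound {ι : Type} (S : Finset ι) (p R : ι → Polynomial ℚ) (d : ℕ)
    (hdiff : ∀ i ∈ S, ∀ j ∈ S, i ≠ j → 0 < (p i - p j).natDegree)
    (hdeg : ∀ i ∈ S, (R i).natDegree ≤ d) (htop : ∃ i ∈ S, (R i).coeff d ≠ 0)
    (hrel : ∀ n y : ℕ, ∑ i ∈ S, (R i).eval ((y : ℚ) + (p i).eval (n : ℚ)) = 0) :
    d + 2 ≤ S.card := by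
  classical
  let A : ι → ℚ⟦X⟧ := fun i => mk fun m => ((d - m).factorial : ℚ) * (R i).coeff (d - m)
  obtain ⟨j, hj, hne⟩ := order_lt S p A hdiff (by
    obtain ⟨i, hi, hc⟩ := htop
    refine ⟨i, hi, ?_⟩
    simp only [A, coeff_mk, Nat.sub_zero]
    exact mul_ne_zero (by positivity) hc)
  by_contra hcon
  have hjd : j ≤ d := by omega
  apply hne
  -- evaluate at all naturals
  have hnat : ∀ P : Polynomial ℚ, (∀ n : ℕ, P.eval (n : ℚ) = 0) → P = 0 := by
    intro P hP
    apply Polynomial.eq_zero_of_infinite_isRoot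
    refine Set.Infinite.mono (s := Set.range (fun n : ℕ => (n : ℚ))) ?_
      (Set.infinite_range_of_injective Nat.cast_injective)
    rintro _ ⟨n, rfl⟩
    exact hP n
  apply hnat
  intro n
  have hT : ∑ i ∈ S, Polynomial.taylor ((p i).eval (n : ℚ)) (R i) = 0 := by
    apply hnat
    intro y
    rw [Polynomial.eval_finsetSum]
    simp only [Polynomial.taylor_eval]
    exact hrel n y
  have h1 : ∑ i ∈ S, ((d - j).factorial : ℚ) *
      (Polynomial.taylor ((p i).eval (n : ℚ)) (R i)).coeff (d - j) = 0 := by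
    rw [← Finset.mul_sum, ← Polynomial.finsetSum_coeff, hT]
    simp
  rw [← h1]
  unfold gs
  rw [map_sum, Polynomial.eval_finsetSum]
  apply Finset.sum_congr rfl
  intro i hi
  rw [taylor_coeff_formula hjd (R i) (hdeg i hi), coeff_mul, Polynomial.eval_finsetSum]
  apply Finset.sum_congr rfl
  intro x _
  rw [coeff_map, coeff_EE]
  simp [A]

end Pool.Agent.Helper973.Alg
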