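import Mathlib

set_option autoImplicit false

/-!
Van der Corput lemma and equidistribution of polynomial phases.
-/

namespace Pool.Agent.Helper973.Weyl

open Filter Topology Finset

/-- Cesaro average of a complex sequence tends to zero -/
def AvZero (u : ℕ → ℂ) : Prop :=
  Tendsto (fun N : ℕ => (N : ℂ)⁻¹ * ∑ n ∈ range N, u n) atTop (𝓝 0)

lemma norm_shift_sub_le (u : ℕ → ℂ) (hu : ∀ n, ‖u n‖ ≤ 1) (h N : ℕ) :
    ‖∑ n ∈ range N, u (n + h) - ∑ n ∈ range N, u n‖ ≤ 2 * h := by
  induction h with
  | zero => simp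
  | succ h ih =>
    have h1 : ∑ n ∈ range N, u (n + (h + 1)) = ∑ n ∈ range N, u (n + h) + u (N + h) - u h := by
      have e1 := Finset.sum_range_succ (fun n => u (n + h)) N
      have e2 := Finset.sum_range_succ' (fun n => u (n + h)) N
      rw [e1] at e2
      have e3 : ∀ n, n + 1 + h = n + (h + 1) := by intro n; ring
      simp only [e3, zero_add] at e2
      rw [e2]; ring
    rw [h1]
    have h2 : ∑ n ∈ range N, u (n + h) + u (N + h) - u h - ∑ n ∈ range N, u n
        = (∑ n ∈ range N, u (n + h) - ∑ n ∈ range N, u n) + u (N + h) - u h := by ring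
    rw [h2]
    calc _ ≤ ‖(∑ n ∈ range N, u (n + h) - ∑ n ∈ range N, u n) + u (N + h)‖ + ‖u h‖ :=
          norm_sub_le _ _
      _ ≤ (‖∑ n ∈ range N, u (n + h) - ∑ n ∈ range N, u n‖ + ‖u (N + h)‖) + ‖u h‖ := by
          gcongr; exact norm_add_le _ _
      _ ≤ (2 * h + 1) + 1 := by gcongr <;> apply hu
      _ = _ := by push_cast; ring

lemma avZero_shift {u : ℕ → ℂ} (hu : ∀ n, ‖u n‖ ≤ 1) (h : ℕ) :
    AvZero (fun n => u (n + h)) ↔ AvZero u := by
  have key : Tendsto (fun N : ℕ => (N : ℂ)⁻¹ * ∑ n ∈ range N, u (n + h)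
      - (N : ℂ)⁻¹ * ∑ n ∈ range N, u n) atTop (𝓝 0) := by
    have h1 : Tendsto (fun N : ℕ => (2 * h : ℝ) * ((N : ℝ))⁻¹) atTop (𝓝 0) := by
      have := (tendsto_inv_atTop_nhds_zero_nat (𝕜 := ℝ)).const_mul (2 * h : ℝ)
      simpa using this
    refine squeeze_zero_norm (fun N => ?_) h1
    rw [← mul_sub, norm_mul, norm_inv, Complex.norm_natCast, mul_comm]
    gcongr
    exact norm_shift_sub_le u hu h N
  unfold AvZero
  constructor
  · intro h1
    have := h1.sub key
    simpa using this
  · intro h1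
    have := h1.add key
    simpa using this

/-- van der Corput's lemma -/
lemma vdc {u : ℕ → ℂ} (hu : ∀ n, ‖u n‖ ≤ 1)
    (hd : ∀ h : ℕ, 1 ≤ h → AvZero (fun n => u (n + h) * (starRingEnd ℂ) (u n))) : AvZero u := by
  unfold AvZero
  rw [Metric.tendsto_atTop]
  intro ε hε
  obtain ⟨H, hH⟩ := exists_nat_gt (4 / ε ^ 2)
  have hHpos : 0 < (H : ℝ) := lt_trans (by positivity) hH
  have hH0 : H ≠ 0 := by rintro rfl; simp at hHpos
  let v : ℕ → ℂ := fun n => ∑ h ∈ range H, u (n + h)
  -- second moment
  let W : ℕ → ℂ := fun N => ∑ h ∈ range H, ∑ h' ∈ range H,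
    (if h = h' then 0 else (N : ℂ)⁻¹ * ∑ n ∈ range N, u (n + h) * (starRingEnd ℂ) (u (n + h')))
  have hW : Tendsto W atTop (𝓝 0) := by
    have : Tendsto W atTop (𝓝 (∑ h ∈ range H, ∑ h' ∈ range H, (0 : ℂ))) := by
      apply tendsto_finsetSum
      intro h _
      apply tendsto_finsetSum
      intro h' _
      split_ifs with heq
      · exact tendsto_const_nhds
      · have hb : ∀ n, ‖u n‖ * ‖u n‖ ≤ 1 := fun n => by
          have := hu n
          nlinarith [norm_nonneg (u n)]
        rcases lt_or_gt_of_ne heq with hlt | hgt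
        · -- h < h'
          have h1 := hd (h' - h) (by omega)
          have h2 : AvZero (fun n => (starRingEnd ℂ) (u (n + (h' - h)) * (starRingEnd ℂ) (u n))) := by
            unfold AvZero at h1 ⊢
            have h3 := (Complex.continuous_conj.tendsto 0).comp h1
            simp only [map_zero] at h3
            refine h3.congr fun N => ?_
            simp
          have h3 : AvZero (fun n => u n * (starRingEnd ℂ) (u (n + (h' - h)))) := by
            refine h2.congr fun N => ?_
            congr 1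
            apply Finset.sum_congr rfl
            intro n _
            simp [mul_comm]
          have h4 := (avZero_shift (u := fun n => u n * (starRingEnd ℂ) (u (n + (h' - h))))
            (fun n => by
              rw [norm_mul, RCLike.norm_conj]
              have h5 := hu n
              have h6 := hu (n + (h' - h))
              exact mul_le_one₀ (by assumption) (norm_nonneg _) (by assumption)) h).2 h3
          refine h4.congr fun N => ?_
          congr 1
          apply Finset.sum_congr rfl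
          intro n _
          have : n + h + (h' - h) = n + h' := by omega
          simp only [this]
        · have h1 := hd (h - h') (by omega)
          have h4 := (avZero_shift (u := fun n => u (n + (h - h')) * (starRingEnd ℂ) (u n))
            (fun n => by
              rw [norm_mul, RCLike.norm_conj]
              have h5 := hu n
              have h6 := hu (n + (h - h'))
              exact mul_le_one₀ (by assumption) (norm_nonneg _) (by assumption)) h').2 h1
          refine h4.congr fun N => ?_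
          congr 1
          apply Finset.sum_congr rfl
          intro n _
          have : n + h' + (h - h') = n + h := by omega
          simp only [this]
    simpa using this
  have hsecond : ∀ N : ℕ, 0 < N → (N : ℝ)⁻¹ * ∑ n ∈ range N, ‖v n‖ ^ 2 ≤ H + ‖W N‖ := by
    intro N hN
    have e1 : (((N : ℝ)⁻¹ * ∑ n ∈ range N, ‖v n‖ ^ 2 : ℝ) : ℂ) =
        W N + ∑ h ∈ range H, (N : ℂ)⁻¹ * ∑ n ∈ range N, u (n + h) * (starRingEnd ℂ) (u (n + h)) := by
      have e2 : ∀ n, ((‖v n‖ ^ 2 : ℝ) : ℂ) =
          ∑ h ∈ range H, ∑ h' ∈ range H, u (n + h) * (starRingEnd ℂ) (u (n + h')) := by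
        intro n
        rw [Complex.ofReal_pow, ← Complex.mul_conj']
        simp only [v, map_sum, Finset.sum_mul_sum]
      push_cast
      simp only [← Complex.ofReal_pow, e2]
      rw [Finset.sum_comm]
      simp only [W]
      rw [← Finset.sum_add_distrib, Finset.mul_sum]
      apply Finset.sum_congr rfl
      intro h hh
      rw [Finset.sum_comm, Finset.mul_sum]
      rw [← Finset.add_sum_erase _ _ hh]
      rw [← Finset.add_sum_erase (range H) (fun h' => if h = h' then (0:ℂ) else
        (N : ℂ)⁻¹ * ∑ n ∈ range N, u (n + h) * (starRingEnd ℂ) (u (n + h'))) hh]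
      simp only [if_true, zero_add]
      rw [add_comm]
      congr 1
      apply Finset.sum_congr rfl
      intro h' hh'
      rw [if_neg (Finset.ne_of_mem_erase hh').symm]
    have e3 : (N : ℝ)⁻¹ * ∑ n ∈ range N, ‖v n‖ ^ 2 =
        ‖(((N : ℝ)⁻¹ * ∑ n ∈ range N, ‖v n‖ ^ 2 : ℝ) : ℂ)‖ := by
      rw [Complex.norm_real, Real.norm_of_nonneg (by positivity)]
    rw [e3, e1]
    refine (norm_add_le _ _).trans ?_
    rw [add_comm]
    gcongr
    calc _ ≤ ∑ h ∈ range H, ‖(N : ℂ)⁻¹ * ∑ n ∈ range N, u (n + h) * (starRingEnd ℂ) (u (n + h))‖ :=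
          norm_sum_le _ _
      _ ≤ ∑ h ∈ range H, (1 : ℝ) := by
          apply Finset.sum_le_sum
          intro h _
          rw [norm_mul, norm_inv, Complex.norm_natCast]
          have : ‖∑ n ∈ range N, u (n + h) * (starRingEnd ℂ) (u (n + h))‖ ≤ N := by
            refine (norm_sum_le _ _).trans ?_
            calc _ ≤ ∑ n ∈ range N, (1 : ℝ) := by
                  apply Finset.sum_le_sum
                  intro n _
                  rw [norm_mul, RCLike.norm_conj]
                  have := hu (n + h)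
                  nlinarith [norm_nonneg (u (n + h))]
              _ = N := by simp
          have hNr : (0 : ℝ) < N := by exact_mod_cast hN
          rw [inv_mul_le_iff₀ hNr]
          simpa using this
      _ = H := by simp
  -- choose N large
  have hW' : ∀ᶠ N in atTop, ‖W N‖ < 1 := by
    have := hW.norm
    rw [norm_zero] at this
    exact this.eventually_lt_const one_pos
  have hsmall : ∀ᶠ N : ℕ in atTop, (2 * H : ℝ) * (N : ℝ)⁻¹ < ε / 4 := by
    have := (tendsto_inv_atTop_nhds_zero_nat (𝕜 := ℝ)).const_mul (2 * H : ℝ)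
    rw [mul_zero] at this
    exact this.eventually_lt_const (by positivity)
  obtain ⟨N0, hN0⟩ := (hW'.and (hsmall.and (eventually_gt_atTop 0))).exists_forall_of_atTop
  refine ⟨N0, fun N hN => ?_⟩
  obtain ⟨h1, h2, h3⟩ := hN0 N hN
  have hNr : (0 : ℝ) < N := by exact_mod_cast h3
  rw [dist_zero_right]
  set S := (N : ℂ)⁻¹ * ∑ n ∈ range N, u n with hS
  set V := (N : ℂ)⁻¹ * ∑ n ∈ range N, v n with hV
  have hVb : ‖V‖ ^ 2 ≤ H + 1 := by
    have h4 : ‖V‖ ^ 2 ≤ (N : ℝ)⁻¹ * ∑ n ∈ range N, ‖v n‖ ^ 2 := by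
      rw [hV, norm_mul, norm_inv, Complex.norm_natCast, mul_pow]
      have h5 : ‖∑ n ∈ range N, v n‖ ^ 2 ≤ N * ∑ n ∈ range N, ‖v n‖ ^ 2 := by
        calc ‖∑ n ∈ range N, v n‖ ^ 2 ≤ (∑ n ∈ range N, ‖v n‖) ^ 2 := by
              gcongr; exact norm_sum_le _ _
          _ ≤ (range N).card * ∑ n ∈ range N, ‖v n‖ ^ 2 := sq_sum_le_card_mul_sum_sq
          _ = _ := by rw [card_range]
      calc ((N : ℝ)⁻¹) ^ 2 * ‖∑ n ∈ range N, v n‖ ^ 2
          ≤ ((N : ℝ)⁻¹) ^ 2 * (N * ∑ n ∈ range N, ‖v n‖ ^ 2) := by gcongr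
        _ = _ := by field_simp
    have := hsecond N h3
    linarith
  have hdiff : ‖(H : ℂ) * S - V‖ ≤ H * (2 * H * (N : ℝ)⁻¹) := by
    have h4 : (H : ℂ) * S - V = -∑ h ∈ range H, (N : ℂ)⁻¹ *
        (∑ n ∈ range N, u (n + h) - ∑ n ∈ range N, u n) := by
      rw [hS, hV]
      simp only [v]
      rw [Finset.sum_comm, ← Finset.mul_sum, Finset.sum_sub_distrib, Finset.sum_const, card_range,
        nsmul_eq_mul]
      ring
    rw [h4, norm_neg]
    refine (norm_sum_le _ _).trans ?_
    calc _ ≤ ∑ h ∈ range H, (2 * H * (N : ℝ)⁻¹) := by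
          apply Finset.sum_le_sum
          intro h hh
          rw [norm_mul, norm_inv, Complex.norm_natCast, mul_comm]
          gcongr
          refine (norm_shift_sub_le u hu h N).trans ?_
          have : (h : ℝ) ≤ H := by exact_mod_cast (Finset.mem_range.1 hh).le
          linarith
      _ = _ := by simp
  have hfin : (H : ℝ) * ‖S‖ ≤ ‖V‖ + H * (ε / 4) := by
    have h4 : (H : ℝ) * ‖S‖ = ‖(H : ℂ) * S‖ := by rw [norm_mul (H : ℂ) S, Complex.norm_natCast]
    have h5 : (H : ℂ) * S = V + ((H : ℂ) * S - V) := by ring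
    rw [h4, h5]
    refine (norm_add_le _ _).trans ?_
    gcongr
    refine hdiff.trans ?_
    gcongr
  -- ‖V‖^2 ≤ H+1 ≤ 2H < ... and H > 4/ε^2
  have hH1 : (1 : ℝ) ≤ H := by exact_mod_cast Nat.one_le_iff_ne_zero.2 hH0
  have hHe : 4 < H * ε ^ 2 := by
    rw [div_lt_iff₀ (by positivity)] at hH
    exact hH
  have hVsq : ‖V‖ ^ 2 < (H * (3 * ε / 4)) ^ 2 := by
    calc ‖V‖ ^ 2 ≤ H + 1 := hVb
      _ ≤ 2 * H := by linarith
      _ < (H * (3 * ε / 4)) ^ 2 := by nlinarith
  have hV2 : ‖V‖ < H * (3 * ε / 4) := lt_of_pow_lt_pow_left₀ 2 (by positivity) hVsq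
  have : (H : ℝ) * ‖S‖ < H * ε := by
    calc (H : ℝ) * ‖S‖ ≤ ‖V‖ + H * (ε / 4) := hfin
      _ < H * (3 * ε / 4) + H * (ε / 4) := by gcongr
      _ = H * ε := by ring
  exact lt_of_mul_lt_mul_left this hHpos.le

lemma toCircle_sub (a b : UnitAddCircle) : ((AddCircle.toCircle (a - b) : Circle) : ℂ) =
    (AddCircle.toCircle a : ℂ) * (starRingEnd ℂ) (AddCircle.toCircle b : ℂ) := by
  rw [sub_eq_add_neg, AddCircle.toCircle_add, AddCircle.toCircle_neg, Circle.coe_mul,
    Circle.coe_inv_eq_conj]

/-- Newton coefficients at zero -/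
noncomputable def nc (φ : ℕ → UnitAddCircle) (k : ℕ) : UnitAddCircle := (fwdDiff 1)^[k] φ 0

lemma newton (φ : ℕ → UnitAddCircle) (n : ℕ) :
    φ n = ∑ k ∈ range (n + 1), n.choose k • nc φ k := by
  have h := shift_eq_sum_fwdDiff_iter (h := (1 : ℕ)) φ n 0
  simpa [nc] using h

lemma nc_shift (φ : ℕ → UnitAddCircle) (h k : ℕ) :
    nc (fun n => φ (n + h) - φ n) k = ∑ j ∈ Finset.range h, h.choose (j + 1) • nc φ (k + (j + 1)) := by
  have h1 : nc (fun n => φ (n + h) - φ n) k = (fwdDiff 1)^[k] φ h - (fwdDiff 1)^[k] φ 0 := by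
    have e1 : (fun n => φ (n + h) - φ n) = (fun n => φ (n + h)) + (-1 : ℤ) • φ := by
      funext n; simp [sub_eq_add_neg]
    unfold nc
    rw [e1, fwdDiff_iter_add, fwdDiff_iter_const_smul]
    have e2 := fwdDiff_iter_comp_add (h := (1 : ℕ)) φ h k 0
    simp only [Pi.add_apply, Pi.smul_apply]
    rw [e2]
    simp [sub_eq_add_neg]
  rw [h1]
  have h2 := shift_eq_sum_fwdDiff_iter (h := (1 : ℕ)) ((fwdDiff 1)^[k] φ) h 0
  simp only [zero_add, smul_eq_mul, mul_one] at h2
  rw [h2, Finset.sum_range_succ']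
  simp only [Nat.choose_zero_right, one_smul, Function.iterate_zero, id]
  rw [add_sub_cancel_right]
  apply Finset.sum_congr rfl
  intro j _
  unfold nc
  rw [← Function.iterate_add_apply, add_comm (j + 1) k]

lemma dvd_choose {q d j : ℕ} (hj : 1 ≤ j) (hjd : j ≤ d) :
    q ∣ (q * d.factorial).choose j := by
  rcases Nat.eq_zero_or_pos q with hq | hq
  · subst hq
    rw [zero_mul, Nat.choose_eq_zero_of_lt (by omega)]
  obtain ⟨c, hc⟩ := Nat.dvd_factorial (by omega : 0 < j) hjd
  obtain ⟨i, rfl⟩ : ∃ i, j = i + 1 := ⟨j - 1, by omega⟩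
  have hM : 0 < q * d.factorial := Nat.mul_pos hq (Nat.factorial_pos d)
  obtain ⟨m, hm⟩ : ∃ m, q * d.factorial = m + 1 := ⟨q * d.factorial - 1, by omega⟩
  have h1 := Nat.add_one_mul_choose_eq m i
  rw [← hm] at h1
  refine ⟨c * m.choose i, ?_⟩
  have h2 : (i + 1) * (q * d.factorial).choose (i + 1) = (i + 1) * (q * (c * m.choose i)) := by
    rw [mul_comm, ← h1, hc]
    ring
  exact Nat.eq_of_mul_eq_mul_left (by omega) h2

/-- polynomial phases equidistribute as soon as some Newton coefficient of positive index has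
infinite order -/
theorem weyl (d : ℕ) : ∀ (r : ℕ) (φ : ℕ → UnitAddCircle), (∀ k, d < k → nc φ k = 0) →
    (∀ k, r + 1 < k → IsOfFinAddOrder (nc φ k)) → ¬ IsOfFinAddOrder (nc φ (r + 1)) →
    AvZero (fun n => (AddCircle.toCircle (φ n) : ℂ)) := by
  intro r
  induction r with
  | zero =>
    intro φ hd htor hnot
    -- common order
    have hq : ∃ q : ℕ, 0 < q ∧ ∀ k, 1 < k → q • nc φ k = 0 := by
      refine ⟨∏ k ∈ Finset.range (d + 1), (if 1 < k then addOrderOf (nc φ k) else 1), ?_, ?_⟩
      · apply Finset.prod_pos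
        intro k _
        split_ifs with h
        · exact (htor k (by omega)).addOrderOf_pos
        · exact one_pos
      · intro k hk
        by_cases hkd : d < k
        · rw [hd k hkd, smul_zero]
        · have h1 : addOrderOf (nc φ k) ∣
              ∏ k ∈ Finset.range (d + 1), (if 1 < k then addOrderOf (nc φ k) else 1) := by
            have := Finset.dvd_prod_of_mem
              (fun k => if 1 < k then addOrderOf (nc φ k) else 1)
              (Finset.mem_range.2 (by omega : k < d + 1))
            simpa [hk] using this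
          obtain ⟨c, hc⟩ := h1
          rw [hc, mul_comm, mul_smul, addOrderOf_nsmul_eq_zero, smul_zero]
    obtain ⟨q, hqpos, hq⟩ := hq
    set M := q * d.factorial with hM
    have hMpos : 0 < M := Nat.mul_pos hqpos (Nat.factorial_pos d)
    have hzero : ∀ j, 1 ≤ j → ∀ k, 1 < k → j ≤ k → M.choose j • nc φ k = 0 := by
      intro j hj k hk hjk
      by_cases hkd : d < k
      · rw [hd k hkd, smul_zero]
      · obtain ⟨c, hc⟩ := dvd_choose (q := q) (d := d) hj (by omega)
        rw [hM, hc, mul_comm, mul_smul, hq k hk, smul_zero]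
    have hper : ∀ n, φ (n + M) - φ n = M • nc φ 1 := by
      intro n
      have h1 : φ (n + M) - φ n = ∑ k ∈ range (n + 1),
          n.choose k • nc (fun n => φ (n + M) - φ n) k := newton (fun n => φ (n + M) - φ n) n
      rw [h1, Finset.sum_range_succ']
      have h2 : ∑ k ∈ range n, n.choose (k + 1) • nc (fun n => φ (n + M) - φ n) (k + 1) = 0 := by
        apply Finset.sum_eq_zero
        intro k _
        rw [nc_shift, Finset.sum_eq_zero, smul_zero]
        intro j _
        exact hzero (j + 1) (by omega) _ (by omega) (by omega)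
      rw [h2, zero_add, Nat.choose_zero_right, one_smul, nc_shift]
      obtain ⟨m, hm⟩ : ∃ m, M = m + 1 := ⟨M - 1, by omega⟩
      have h3 : ∑ j ∈ range M, M.choose (j + 1) • nc φ (0 + (j + 1)) =
          ∑ j ∈ range (m + 1), M.choose (j + 1) • nc φ (0 + (j + 1)) := by rw [← hm]
      rw [h3, Finset.sum_range_succ']
      have h4 : ∑ k ∈ range m, M.choose (k + 1 + 1) • nc φ (0 + (k + 1 + 1)) = 0 := by
        apply Finset.sum_eq_zero
        intro k _
        exact hzero _ (by omega) _ (by omega) (by omega)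
      rw [h4, zero_add, zero_add, Nat.choose_one_right]
    -- w ≠ 1
    let w : ℂ := (AddCircle.toCircle (M • nc φ 1) : ℂ)
    have hw : w ≠ 1 := by
      intro h
      have h1 : AddCircle.toCircle (M • nc φ 1) = 1 := by
        ext; simpa [w] using h
      have h2 : M • nc φ 1 = 0 := by
        apply AddCircle.injective_toCircle one_ne_zero
        rw [h1, AddCircle.toCircle_zero]
      apply hnot
      rw [zero_add]
      exact isOfFinAddOrder_iff_nsmul_eq_zero.2 ⟨M, hMpos, h2⟩
    have hstep : ∀ n, (AddCircle.toCircle (φ (n + M)) : ℂ) = w * AddCircle.toCircle (φ n) := by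
      intro n
      have : φ (n + M) = M • nc φ 1 + φ n := by rw [← hper n]; abel
      rw [this, AddCircle.toCircle_add]
      simp [w]
    have hu : ∀ n, ‖(AddCircle.toCircle (φ n) : ℂ)‖ ≤ 1 := fun n => by simp
    unfold AvZero
    have h1 : Tendsto (fun N : ℕ => ((2 * M) / ‖w - 1‖ : ℝ) * ((N : ℝ))⁻¹) atTop (𝓝 0) := by
      have := (tendsto_inv_atTop_nhds_zero_nat (𝕜 := ℝ)).const_mul ((2 * M) / ‖w - 1‖ : ℝ)
      simpa using this
    refine squeeze_zero_norm (fun N => ?_) h1
    have hpos : 0 < ‖w - 1‖ := norm_pos_iff.2 (sub_ne_zero.2 hw)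
    have h2 := norm_shift_sub_le (fun n => (AddCircle.toCircle (φ n) : ℂ)) hu M N
    have h3 : ∑ n ∈ range N, (AddCircle.toCircle (φ (n + M)) : ℂ) -
        ∑ n ∈ range N, (AddCircle.toCircle (φ n) : ℂ) =
        (w - 1) * ∑ n ∈ range N, (AddCircle.toCircle (φ n) : ℂ) := by
      simp only [hstep]
      rw [← Finset.mul_sum]
      ring
    rw [h3, norm_mul] at h2
    rw [norm_mul, norm_inv, Complex.norm_natCast, mul_comm]
    gcongr
    rw [le_div_iff₀ hpos, mul_comm]
    exact h2
  | succ r ih =>
    intro φ hd htor hnot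
    apply vdc (fun n => by simp)
    intro h hh
    have h1 := ih (fun n => φ (n + h) - φ n) (fun k hk => by
        rw [nc_shift]
        apply Finset.sum_eq_zero
        intro j _
        rw [hd _ (by omega), smul_zero])
      (fun k hk => by
        rw [nc_shift]
        have : ∀ j ∈ Finset.range h, h.choose (j + 1) • nc φ (k + (j + 1)) ∈
            AddCommGroup.torsion UnitAddCircle := by
          intro j _
          exact AddSubgroup.nsmul_mem _ (htor _ (by omega)) _
        exact AddSubgroup.sum_mem _ this)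
      (fun hfin => by
        rw [nc_shift] at hfin
        obtain ⟨m, rfl⟩ : ∃ m, h = m + 1 := ⟨h - 1, by omega⟩
        rw [Finset.sum_range_succ'] at hfin
        have h2 : ∑ k ∈ range m, (m + 1).choose (k + 1 + 1) • nc φ (r + 1 + (k + 1 + 1)) ∈
            AddCommGroup.torsion UnitAddCircle := by
          apply AddSubgroup.sum_mem
          intro j _
          exact AddSubgroup.nsmul_mem _ (htor _ (by omega)) _
        have h3 : (m + 1).choose (0 + 1) • nc φ (r + 1 + (0 + 1)) ∈
            AddCommGroup.torsion UnitAddCircle := by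
          have h4 : (m + 1).choose (0 + 1) • nc φ (r + 1 + (0 + 1)) =
              (∑ k ∈ range m, (m + 1).choose (k + 1 + 1) • nc φ (r + 1 + (k + 1 + 1)) +
                (m + 1).choose (0 + 1) • nc φ (r + 1 + (0 + 1))) -
              ∑ k ∈ range m, (m + 1).choose (k + 1 + 1) • nc φ (r + 1 + (k + 1 + 1)) := by abel
          rw [h4]
          exact AddSubgroup.sub_mem _ hfin h2
        apply hnot
        rw [zero_add, Nat.choose_one_right] at h3
        obtain ⟨c, hc, hc0⟩ := isOfFinAddOrder_iff_nsmul_eq_zero.1 h3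
        refine isOfFinAddOrder_iff_nsmul_eq_zero.2 ⟨c * (m + 1), by positivity, ?_⟩
        rw [mul_smul]
        exact hc0)
    refine h1.congr fun N => ?_
    congr 1
    apply Finset.sum_congr rfl
    intro n _
    exact toCircle_sub _ _

end Pool.Agent.Helper973.Weyl
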