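import Mathlib
import Pool.Agent.Helper973.Alg
import Pool.Agent.Helper973.Weyl

set_option autoImplicit false

/-!
Affine unipotent maps of tori: iterates, characters, and the algebraic consequences of the
degree bound.
-/

namespace Pool.Agent.Helper973.Tor

open Finset Polynomial

variable {D : ℕ}

/-- pairing of an integer vector with a point of the torus -/
noncomputable def dot (χ : Fin D → ℤ) (x : Fin D → UnitAddCircle) : UnitAddCircle :=
  ∑ i, χ i • x i

/-- action of an integer matrix on the torus -/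
noncomputable def mact (M : Matrix (Fin D) (Fin D) ℤ) (x : Fin D → UnitAddCircle) :
    Fin D → UnitAddCircle := fun i => ∑ j, M i j • x j

lemma dot_add (χ : Fin D → ℤ) (x y : Fin D → UnitAddCircle) :
    dot χ (x + y) = dot χ x + dot χ y := by
  simp [dot, Finset.sum_add_distrib]

lemma add_dot (χ ψ : Fin D → ℤ) (x : Fin D → UnitAddCircle) :
    dot (χ + ψ) x = dot χ x + dot ψ x := by
  simp [dot, Finset.sum_add_distrib, add_smul]

lemma zero_dot (x : Fin D → UnitAddCircle) : dot 0 x = 0 := by simp [dot]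

/-- pairing as a homomorphism in the integer vector -/
noncomputable def dotHom (x : Fin D → UnitAddCircle) : (Fin D → ℤ) →+ UnitAddCircle where
  toFun χ := dot χ x
  map_zero' := zero_dot x
  map_add' χ ψ := add_dot χ ψ x

lemma dot_mact (χ : Fin D → ℤ) (M : Matrix (Fin D) (Fin D) ℤ) (x : Fin D → UnitAddCircle) :
    dot χ (mact M x) = dot (Matrix.vecMul χ M) x := by
  simp only [dot, mact, Matrix.vecMul, dotProduct, Finset.smul_sum, Finset.sum_smul, mul_smul]
  rw [Finset.sum_comm]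

lemma mact_mul (M N : Matrix (Fin D) (Fin D) ℤ) (x : Fin D → UnitAddCircle) :
    mact (M * N) x = mact M (mact N x) := by
  funext i
  simp only [mact, Matrix.mul_apply, Finset.smul_sum, Finset.sum_smul, mul_smul]
  rw [Finset.sum_comm]

lemma mact_add (M N : Matrix (Fin D) (Fin D) ℤ) (x : Fin D → UnitAddCircle) :
    mact (M + N) x = mact M x + mact N x := by
  funext i
  simp [mact, add_smul, Finset.sum_add_distrib]

lemma mact_add_right (M : Matrix (Fin D) (Fin D) ℤ) (x y : Fin D → UnitAddCircle) :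
    mact M (x + y) = mact M x + mact M y := by
  funext i
  simp [mact, Finset.sum_add_distrib]

lemma mact_one (x : Fin D → UnitAddCircle) : mact (1 : Matrix (Fin D) (Fin D) ℤ) x = x := by
  funext i
  simp [mact, Matrix.one_apply]

lemma mact_zero (x : Fin D → UnitAddCircle) : mact (0 : Matrix (Fin D) (Fin D) ℤ) x = 0 := by
  funext i
  simp [mact]

/-- binomial expansion of `(1 + u) ^ t` -/
noncomputable def PP (u : Matrix (Fin D) (Fin D) ℤ) (m : ℕ) (t : ℤ) : Matrix (Fin D) (Fin D) ℤ :=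
  ∑ s ∈ range m, Ring.choose t s • u ^ s

/-- binomial expansion of `((1 + u) ^ t - 1) / u` -/
noncomputable def BB (u : Matrix (Fin D) (Fin D) ℤ) (m : ℕ) (t : ℤ) : Matrix (Fin D) (Fin D) ℤ :=
  ∑ s ∈ range m, Ring.choose t (s + 1) • u ^ s

section
variable {u : Matrix (Fin D) (Fin D) ℤ} {m : ℕ} (hm : u ^ m = 0) (hm0 : 0 < m)
include hm hm0

lemma PP_zero : PP u m 0 = 1 := by
  obtain ⟨k, rfl⟩ : ∃ k, m = k + 1 := ⟨m - 1, by omega⟩
  unfold PP
  rw [Finset.sum_range_succ']
  simp [Ring.choose_zero_succ]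

lemma PP_succ (t : ℤ) : PP u m (t + 1) = (1 + u) * PP u m t := by
  obtain ⟨k, rfl⟩ : ∃ k, m = k + 1 := ⟨m - 1, by omega⟩
  unfold PP
  have h1 : ∑ s ∈ range (k + 1), Ring.choose t s • u ^ s =
      ∑ s ∈ range k, Ring.choose t (s + 1) • u ^ (s + 1) + 1 := by
    rw [Finset.sum_range_succ']; simp
  have h2 : u * ∑ s ∈ range (k + 1), Ring.choose t s • u ^ s =
      ∑ s ∈ range k, Ring.choose t s • u ^ (s + 1) := by
    rw [Finset.mul_sum, Finset.sum_range_succ]
    have : u * (Ring.choose t k • u ^ k) = 0 := by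
      rw [mul_smul_comm, ← pow_succ', hm, smul_zero]
    rw [this, add_zero]
    apply Finset.sum_congr rfl
    intro s _
    rw [mul_smul_comm, ← pow_succ']
  rw [add_mul, one_mul, h2, h1, Finset.sum_range_succ']
  simp only [Ring.choose_succ_succ, add_smul, Finset.sum_add_distrib, Ring.choose_zero_right,
    one_smul, pow_zero]
  abel

omit hm hm0 in
lemma BB_zero : BB u m 0 = 0 := by
  unfold BB
  apply Finset.sum_eq_zero
  intro s _
  rw [Ring.choose_zero_succ, zero_smul]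

omit hm hm0 in
lemma BB_succ_right (t : ℤ) : BB u m (t + 1) = BB u m t + PP u m t := by
  unfold BB PP
  rw [← Finset.sum_add_distrib]
  apply Finset.sum_congr rfl
  intro s _
  rw [Ring.choose_succ_succ, add_smul, add_comm]

omit hm0 in
lemma one_add_mul_BB (t : ℤ) : u * BB u m t = PP u m t - (if 0 < m then 1 else 0) := by
  rcases Nat.eq_zero_or_pos m with h | h
  · subst h; simp [BB, PP]
  obtain ⟨k, rfl⟩ : ∃ k, m = k + 1 := ⟨m - 1, by omega⟩
  unfold BB PP
  rw [if_pos h, Finset.mul_sum, Finset.sum_range_succ, Finset.sum_range_succ']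
  have : u * (Ring.choose t (k + 1) • u ^ k) = 0 := by
    rw [mul_smul_comm, ← pow_succ', hm, smul_zero]
  rw [this, add_zero]
  simp only [Ring.choose_zero_right, one_smul, pow_zero, add_sub_cancel_right]
  apply Finset.sum_congr rfl
  intro s _
  rw [mul_smul_comm, ← pow_succ']

lemma BB_succ_left (t : ℤ) : BB u m (t + 1) = (1 + u) * BB u m t + 1 := by
  rw [BB_succ_right, add_mul, one_mul, one_add_mul_BB hm, if_pos hm0]
  abel

omit hm hm0 in
lemma commute_PP (t : ℤ) : Commute u (PP u m t) := by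
  unfold PP
  apply Commute.sum_right
  intro s _
  exact (Commute.refl u).pow_right s |>.smul_right _

lemma PP_add (t : ℤ) (y : ℕ) : PP u m (t + y) = PP u m t * PP u m y := by
  induction y with
  | zero => simp [PP_zero hm hm0]
  | succ y ih =>
    have h1 : t + ((y + 1 : ℕ) : ℤ) = (t + y) + 1 := by push_cast; ring
    have h2 : ((y + 1 : ℕ) : ℤ) = (y : ℤ) + 1 := by push_cast; ring
    rw [h1, h2, PP_succ hm hm0, PP_succ hm hm0, ih, ← mul_assoc, ← mul_assoc]
    congr 1
    rw [add_mul, mul_add, one_mul, mul_one, (commute_PP t).eq]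

lemma BB_add (t : ℤ) (y : ℕ) : BB u m (t + y) = BB u m t + PP u m t * BB u m y := by
  induction y with
  | zero => simp [BB_zero]
  | succ y ih =>
    have h1 : t + ((y + 1 : ℕ) : ℤ) = (t + y) + 1 := by push_cast; ring
    have h2 : ((y + 1 : ℕ) : ℤ) = (y : ℤ) + 1 := by push_cast; ring
    rw [h1, h2, BB_succ_right, BB_succ_right, ih, PP_add hm hm0, mul_add]
    abel

/-- iterates of an affine unipotent map -/
lemma zpow_apply (T : Equiv.Perm (Fin D → UnitAddCircle)) (b : Fin D → UnitAddCircle)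
    (hT : ∀ x, T x = mact (1 + u) x + b) (t : ℤ) (x : Fin D → UnitAddCircle) :
    (T ^ t) x = mact (PP u m t) x + mact (BB u m t) b := by
  have hstep : ∀ t : ℤ, T (mact (PP u m t) x + mact (BB u m t) b) =
      mact (PP u m (t + 1)) x + mact (BB u m (t + 1)) b := by
    intro t
    rw [hT, mact_add_right, ← mact_mul, ← mact_mul, PP_succ hm hm0, BB_succ_left hm hm0,
      mact_add (_ * _) 1 b, mact_one]
    abel
  induction t using Int.induction_on with
  | zero => simp [PP_zero hm hm0, BB_zero, mact_one, mact_zero]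
  | succ i ih =>
    have h1 : (T ^ ((i : ℤ) + 1)) x = T ((T ^ (i : ℤ)) x) := by
      rw [add_comm (i : ℤ) 1, zpow_add, zpow_one, Equiv.Perm.mul_apply]
    rw [h1, ih, hstep]
  | pred i ih =>
    have h1 : (T ^ (-(i : ℤ) - 1)) x = T⁻¹ ((T ^ (-(i : ℤ))) x) := by
      rw [sub_eq_add_neg, add_comm, zpow_add, Equiv.Perm.mul_apply, zpow_neg_one]
    rw [h1, ih]
    have h2 := hstep (-(i : ℤ) - 1)
    rw [sub_add_cancel] at h2
    rw [← h2]
    simp

end

/-- binomial polynomials -/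
noncomputable def bin (s : ℕ) : ℚ[X] := C ((s.factorial : ℚ)⁻¹) * descPochhammer ℚ s

lemma bin_eval (s : ℕ) (t : ℤ) : (bin s).eval (t : ℚ) = (Ring.choose t s : ℤ) := by
  unfold bin
  have h := Ring.descPochhammer_eq_factorial_smul_choose t s
  rw [← Polynomial.eval_eq_smeval] at h
  rw [eval_mul, eval_C, ← descPochhammer_eval_cast, h]
  have : (s.factorial : ℚ) ≠ 0 := by positivity
  field_simp
  simp

lemma bin_natDegree (s : ℕ) : (bin s).natDegree = s := by
  unfold bin
  rw [natDegree_C_mul (by positivity), descPochhammer_natDegree]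

lemma bin_coeff (s : ℕ) : (bin s).coeff s ≠ 0 := by
  have h1 : (bin s) ≠ 0 := by
    unfold bin
    exact mul_ne_zero (by simp [Nat.factorial_ne_zero]) (monic_descPochhammer ℚ s).ne_zero
  have h2 := leadingCoeff_ne_zero.2 h1
  rwa [leadingCoeff, bin_natDegree] at h2

lemma natDegree_ge {M s0 : ℕ} (c : ℕ → ℚ) (hs : s0 < M) (hc : c s0 ≠ 0) :
    s0 ≤ (∑ s ∈ range M, C (c s) * bin s).natDegree := by
  classical
  let S := (range M).filter (fun s => c s ≠ 0)
  have hS : S.Nonempty := ⟨s0, by simp [S, hs, hc]⟩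
  let s1 := S.max' hS
  have hs1 : s1 ∈ S := S.max'_mem hS
  have hs01 : s0 ≤ s1 := S.le_max' s0 (by simp [S, hs, hc])
  refine hs01.trans ?_
  apply le_natDegree_of_ne_zero
  rw [finsetSum_coeff]
  rw [Finset.sum_eq_single s1]
  · rw [coeff_C_mul]
    exact mul_ne_zero (Finset.mem_filter.1 hs1).2 (bin_coeff s1)
  · intro s hs' hne
    rw [coeff_C_mul]
    by_cases hcs : c s = 0
    · rw [hcs, zero_mul]
    · have : s ≤ s1 := S.le_max' s (Finset.mem_filter.2 ⟨hs', hcs⟩)
      rw [coeff_eq_zero_of_natDegree_lt, mul_zero]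
      rw [bin_natDegree]
      omega
  · intro h
    exact absurd (Finset.mem_filter.1 hs1).1 h

/-- consequence of the degree bound: relations have degree smaller than the number of
polynomials -/
lemma no_rel {ℓ : ℕ} (hℓ : 1 ≤ ℓ) (p : Fin ℓ → ℤ[X]) (hp : ∀ i, 0 < (p i).natDegree)
    (hpp : ∀ i j, i ≠ j → 0 < (p i - p j).natDegree) (R : Fin ℓ → ℚ[X]) (R0 : ℚ[X])
    (hrel : ∀ n y : ℕ, ∑ i, (R i).eval ((y : ℚ) + (((p i).eval (n : ℤ) : ℤ) : ℚ)) =
      R0.eval (y : ℚ)) :
    ∀ i, (R i).natDegree < ℓ := by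
  by_contra hcon
  push Not at hcon
  obtain ⟨j, hj⟩ := hcon
  let p' : Option (Fin ℓ) → ℚ[X] := fun o => o.elim 0 (fun i => (p i).map (Int.castRingHom ℚ))
  let R' : Option (Fin ℓ) → ℚ[X] := fun o => o.elim (-R0) R
  let d := (Finset.univ : Finset (Option (Fin ℓ))).sup (fun o => (R' o).natDegree)
  have hinj : Function.Injective (Int.castRingHom ℚ) := (Int.castRingHom ℚ).injective_int
  have hdeg : ∀ q : ℤ[X], (q.map (Int.castRingHom ℚ)).natDegree = q.natDegree :=
    fun q => natDegree_map_eq_of_injective hinj q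
  have hjd : ℓ ≤ d := hj.trans
    (Finset.le_sup (f := fun o => (R' o).natDegree) (Finset.mem_univ (some j)))
  obtain ⟨o, ho, hod⟩ := Finset.exists_mem_eq_sup (Finset.univ : Finset (Option (Fin ℓ)))
    ⟨none, Finset.mem_univ _⟩ (fun o => (R' o).natDegree)
  have h1 := Alg.deg_bound (Finset.univ : Finset (Option (Fin ℓ))) p' R' d
    (by
      intro a _ b _ hab
      rcases a with _ | a <;> rcases b with _ | b
      · exact absurd rfl hab
      · simp only [p', Option.elim, zero_sub, natDegree_neg, hdeg]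
        exact hp b
      · simp only [p', Option.elim, sub_zero, hdeg]
        exact hp a
      · simp only [p', Option.elim, ← Polynomial.map_sub, hdeg]
        exact hpp a b (fun h => hab (by rw [h])))
    (fun a ha => Finset.le_sup (f := fun o => (R' o).natDegree) ha)
    ⟨o, ho, by
      have hd : d = (R' o).natDegree := hod
      rw [hd]
      have hne : R' o ≠ 0 := by
        intro h0
        rw [h0, natDegree_zero] at hd
        omega
      exact leadingCoeff_ne_zero.2 hne⟩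
    (by
      intro n y
      rw [Fintype.sum_option]
      simp only [R', p', Option.elim, eval_zero, add_zero, eval_neg]
      have h2 := hrel n y
      have h3 : ∀ i, ((p i).map (Int.castRingHom ℚ)).eval (n : ℚ) =
          (((p i).eval (n : ℤ) : ℤ) : ℚ) := by
        intro i
        simp
      simp only [h3]
      rw [h2]
      ring)
  simp only [Finset.card_univ, Fintype.card_option, Fintype.card_fin] at h1
  omega

section
variable {u : Matrix (Fin D) (Fin D) ℤ} {m : ℕ}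

/-- polynomial interpolating `L (χ (1+u)^t)` -/
noncomputable def RL (u : Matrix (Fin D) (Fin D) ℤ) (m : ℕ) (L : (Fin D → ℤ) →+ ℚ)
    (χ : Fin D → ℤ) : ℚ[X] :=
  ∑ s ∈ range m, C (L (Matrix.vecMul χ (u ^ s))) * bin s

/-- polynomial interpolating `L (χ ((1+u)^t - 1)/u)` -/
noncomputable def RB (u : Matrix (Fin D) (Fin D) ℤ) (m : ℕ) (L : (Fin D → ℤ) →+ ℚ)
    (χ : Fin D → ℤ) : ℚ[X] :=
  ∑ s ∈ range m, C (L (Matrix.vecMul χ (u ^ s))) * bin (s + 1)

lemma vecMul_sum' (χ : Fin D → ℤ) (M : ℕ) (c : ℕ → ℤ) (N : ℕ → Matrix (Fin D) (Fin D) ℤ) :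
    Matrix.vecMul χ (∑ s ∈ range M, c s • N s) = ∑ s ∈ range M, c s • Matrix.vecMul χ (N s) := by
  induction M with
  | zero => simp
  | succ M ih =>
    rw [Finset.sum_range_succ, Finset.sum_range_succ, Matrix.vecMul_add, ih, Matrix.vecMul_smul]

lemma RL_eval (L : (Fin D → ℤ) →+ ℚ) (χ : Fin D → ℤ) (t : ℤ) :
    (RL u m L χ).eval (t : ℚ) = L (Matrix.vecMul χ (PP u m t)) := by
  unfold RL PP
  rw [vecMul_sum', map_sum, eval_finsetSum]
  apply Finset.sum_congr rfl
  intro s _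
  rw [eval_mul, eval_C, bin_eval, map_zsmul, zsmul_eq_mul, mul_comm]

lemma RB_eval (L : (Fin D → ℤ) →+ ℚ) (χ : Fin D → ℤ) (t : ℤ) :
    (RB u m L χ).eval (t : ℚ) = L (Matrix.vecMul χ (BB u m t)) := by
  unfold RB BB
  rw [vecMul_sum', map_sum, eval_finsetSum]
  apply Finset.sum_congr rfl
  intro s _
  rw [eval_mul, eval_C, bin_eval, map_zsmul, zsmul_eq_mul, mul_comm]

lemma RL_natDegree (L : (Fin D → ℤ) →+ ℚ) (χ : Fin D → ℤ) {s : ℕ} (hs : s < m)
    (h : L (Matrix.vecMul χ (u ^ s)) ≠ 0) : s ≤ (RL u m L χ).natDegree :=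
  natDegree_ge (fun s => L (Matrix.vecMul χ (u ^ s))) hs h

lemma RB_natDegree (L : (Fin D → ℤ) →+ ℚ) (χ : Fin D → ℤ) {s : ℕ} (hs : s < m)
    (h : L (Matrix.vecMul χ (u ^ s)) ≠ 0) : s + 1 ≤ (RB u m L χ).natDegree := by
  have h1 := natDegree_ge (M := m + 1) (s0 := s + 1)
    (fun s => if s = 0 then 0 else L (Matrix.vecMul χ (u ^ (s - 1)))) (by omega) (by simpa using h)
  have h2 : ∑ s ∈ range (m + 1), C (if s = 0 then 0 else L (Matrix.vecMul χ (u ^ (s - 1)))) * bin s
      = RB u m L χ := by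
    unfold RB
    rw [Finset.sum_range_succ']
    simp
  rw [h2] at h1
  exact h1

/-- the frequency of the product of characters -/
noncomputable def FF {ℓ : ℕ} (u : Matrix (Fin D) (Fin D) ℤ) (m : ℕ) (p : Fin ℓ → ℤ[X])
    (χ : Fin ℓ → Fin D → ℤ) (n : ℕ) : Fin D → ℤ :=
  ∑ i, Matrix.vecMul (χ i) (PP u m ((p i).eval (n : ℤ)))

/-- the phase of the product of characters -/
noncomputable def ph {ℓ : ℕ} (u : Matrix (Fin D) (Fin D) ℤ) (m : ℕ) (b : Fin D → UnitAddCircle)
    (p : Fin ℓ → ℤ[X]) (χ : Fin ℓ → Fin D → ℤ) (n : ℕ) : UnitAddCircle :=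
  ∑ i, dot (Matrix.vecMul (χ i) (BB u m ((p i).eval (n : ℤ)))) b

/-- if the frequency is constant then all characters are killed by `u ^ ℓ` -/
lemma const_freq (hm : u ^ m = 0) (hm0 : 0 < m) {ℓ : ℕ} (hℓ : 1 ≤ ℓ) (p : Fin ℓ → ℤ[X])
    (hp : ∀ i, 0 < (p i).natDegree) (hpp : ∀ i j, i ≠ j → 0 < (p i - p j).natDegree)
    (χ : Fin ℓ → Fin D → ℤ) (hF : ∀ n, FF u m p χ n = FF u m p χ 0) (j : Fin ℓ) :
    Matrix.vecMul (χ j) (u ^ ℓ) = 0 := by
  by_contra hne
  obtain ⟨k, hk⟩ := Function.ne_iff.1 hne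
  let L : (Fin D → ℤ) →+ ℚ := (Int.castAddHom ℚ).comp (Pi.evalAddMonoidHom (fun _ => ℤ) k)
  have hL : L (Matrix.vecMul (χ j) (u ^ ℓ)) ≠ 0 := by
    simp only [L, AddMonoidHom.comp_apply, Pi.evalAddMonoidHom_apply, Int.coe_castAddHom]
    simpa using hk
  have hℓm : ℓ < m := by
    by_contra h
    push Not at h
    apply hne
    obtain ⟨c, rfl⟩ := Nat.exists_eq_add_of_le h
    rw [pow_add, hm, zero_mul, Matrix.vecMul_zero]
  have h1 := no_rel hℓ p hp hpp (fun i => RL u m L (χ i)) (RL u m L (FF u m p χ 0)) (by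
    intro n y
    have e1 : ∀ i, (RL u m L (χ i)).eval ((y : ℚ) + (((p i).eval (n : ℤ) : ℤ) : ℚ)) =
        L (Matrix.vecMul (Matrix.vecMul (χ i) (PP u m ((p i).eval (n : ℤ)))) (PP u m (y : ℤ))) := by
      intro i
      have : (y : ℚ) + (((p i).eval (n : ℤ) : ℤ) : ℚ) = (((p i).eval (n : ℤ) + (y : ℤ) : ℤ) : ℚ) := by
        push_cast; ring
      rw [this, RL_eval, PP_add hm hm0, Matrix.vecMul_vecMul]
    simp only [e1]
    rw [← map_sum, ← Matrix.sum_vecMul]
    have e2 : ∑ i, Matrix.vecMul (χ i) (PP u m ((p i).eval (n : ℤ))) = FF u m p χ n := rfl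
    rw [e2, hF n]
    have : (y : ℚ) = ((y : ℤ) : ℚ) := by push_cast; rfl
    rw [this, RL_eval]) j
  have h2 := RL_natDegree (m := m) L (χ j) hℓm hL
  omega

/-- if the frequency is constant and a rational functional of the phase is constant, then it
kills all `χ i u ^ (ℓ - 1)` -/
lemma const_phase (hm : u ^ m = 0) (hm0 : 0 < m) {ℓ : ℕ} (hℓ : 1 ≤ ℓ) (p : Fin ℓ → ℤ[X])
    (hp : ∀ i, 0 < (p i).natDegree) (hpp : ∀ i j, i ≠ j → 0 < (p i - p j).natDegree)
    (χ : Fin ℓ → Fin D → ℤ) (hF : ∀ n, FF u m p χ n = FF u m p χ 0)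
    (b : Fin D → UnitAddCircle) (Λ : UnitAddCircle →+ ℚ)
    (hΛ : ∀ n, Λ (ph u m b p χ n) = Λ (ph u m b p χ 0)) (j : Fin ℓ) :
    Λ (dot (Matrix.vecMul (χ j) (u ^ (ℓ - 1))) b) = 0 := by
  by_contra hne
  let L : (Fin D → ℤ) →+ ℚ := Λ.comp (dotHom b)
  have hL : L (Matrix.vecMul (χ j) (u ^ (ℓ - 1))) ≠ 0 := hne
  have hℓm : ℓ - 1 < m := by
    by_contra h
    push Not at h
    apply hL
    obtain ⟨c, hc⟩ := Nat.exists_eq_add_of_le h
    rw [hc, pow_add, hm, zero_mul, Matrix.vecMul_zero, map_zero]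
  have hph : ∀ n, Λ (ph u m b p χ n) =
      ∑ i, L (Matrix.vecMul (χ i) (BB u m ((p i).eval (n : ℤ)))) := by
    intro n
    unfold ph
    rw [map_sum]
    rfl
  have h1 := no_rel hℓ p hp hpp (fun i => RB u m L (χ i))
    (C (Λ (ph u m b p χ 0)) + RB u m L (FF u m p χ 0)) (by
    intro n y
    have e1 : ∀ i, (RB u m L (χ i)).eval ((y : ℚ) + (((p i).eval (n : ℤ) : ℤ) : ℚ)) =
        L (Matrix.vecMul (χ i) (BB u m ((p i).eval (n : ℤ)))) +
        L (Matrix.vecMul (Matrix.vecMul (χ i) (PP u m ((p i).eval (n : ℤ)))) (BB u m (y : ℤ))) := by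
      intro i
      have : (y : ℚ) + (((p i).eval (n : ℤ) : ℤ) : ℚ) = (((p i).eval (n : ℤ) + (y : ℤ) : ℤ) : ℚ) := by
        push_cast; ring
      rw [this, RB_eval, BB_add hm hm0, Matrix.vecMul_vecMul, Matrix.vecMul_add, map_add]
    simp only [e1]
    rw [Finset.sum_add_distrib, ← hph, hΛ n, ← map_sum, ← Matrix.sum_vecMul]
    have e2 : ∑ i, Matrix.vecMul (χ i) (PP u m ((p i).eval (n : ℤ))) = FF u m p χ n := rfl
    rw [e2, hF n, eval_add, eval_C]
    have : (y : ℚ) = ((y : ℤ) : ℚ) := by push_cast; rfl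
    rw [this, RB_eval]) j
  have h2 := RB_natDegree (m := m) L (χ j) hℓm hL
  omega

/-- a point of infinite order on the circle is detected by a homomorphism to the rationals -/
lemma exists_hom (z : UnitAddCircle) (hz : ¬ IsOfFinAddOrder z) :
    ∃ Λ : UnitAddCircle →+ ℚ, Λ z ≠ 0 := by
  obtain ⟨x, rfl⟩ := QuotientAddGroup.mk_surjective z
  have hx : x ∉ Submodule.span ℚ {(1 : ℝ)} := by
    intro h
    rw [Submodule.mem_span_singleton] at h
    obtain ⟨a, ha⟩ := h
    apply hz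
    refine isOfFinAddOrder_iff_nsmul_eq_zero.2 ⟨a.den, a.den_pos, ?_⟩
    have h1 : (a.den : ℝ) * x = a.num := by
      rw [← ha, Rat.smul_def, mul_one]
      exact_mod_cast Rat.den_mul_eq_num a
    have h2 : a.den • ((x : ℝ) : UnitAddCircle) = 0 := by
      rw [← AddCircle.coe_nsmul, nsmul_eq_mul, h1]
      have : ((a.num : ℝ) : UnitAddCircle) = a.num • (((1 : ℝ)) : UnitAddCircle) := by
        rw [← AddCircle.coe_zsmul]; simp
      rw [this, AddCircle.coe_period, smul_zero]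
    exact h2
  obtain ⟨f, hfx, hf⟩ := Submodule.exists_le_ker_of_notMem hx
  have hf1 : f 1 = 0 := hf (Submodule.mem_span_singleton_self 1)
  let Λ : UnitAddCircle →+ ℚ := QuotientAddGroup.lift (AddSubgroup.zmultiples (1 : ℝ))
    f.toAddMonoidHom (by
      intro y hy
      obtain ⟨k, rfl⟩ := AddSubgroup.mem_zmultiples_iff.1 hy
      change f (k • (1 : ℝ)) = 0
      rw [map_zsmul, hf1, smul_zero])
  refine ⟨Λ, ?_⟩
  exact hfx

/-- iterated differences of an integer polynomial sequence vanish eventually -/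
lemma fwd_zero (P : ℚ[X]) (a : ℕ → ℤ) (ha : ∀ n : ℕ, (a n : ℚ) = P.eval (n : ℚ)) {k : ℕ}
    (hk : P.natDegree < k) :
    ∑ j ∈ range (k + 1), ((-1 : ℤ) ^ (k - j) * k.choose j) * a j = 0 := by
  have h1 := Polynomial.fwdDiff_iter_eq_zero_of_degree_lt hk
  have h2 := congrFun h1 0
  rw [fwdDiff_iter_eq_sum_shift] at h2
  have h3 : ((∑ j ∈ range (k + 1), ((-1 : ℤ) ^ (k - j) * k.choose j) * a j : ℤ) : ℚ) = 0 := by
    push_cast
    simp only [ha]
    rw [Pi.zero_apply] at h2
    rw [← h2]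
    apply Finset.sum_congr rfl
    intro j _
    simp [zsmul_eq_mul]
  exact_mod_cast h3

lemma nc_ph_zero {ℓ : ℕ} (p : Fin ℓ → ℤ[X]) (χ : Fin ℓ → Fin D → ℤ) (b : Fin D → UnitAddCircle) :
    ∃ d, ∀ k, d < k → Weyl.nc (ph u m b p χ) k = 0 := by
  let P : Fin ℓ → ℕ → ℚ[X] := fun i s => (bin (s + 1)).comp ((p i).map (Int.castRingHom ℚ))
  let d := Finset.univ.sup fun i : Fin ℓ => (range m).sup fun s => (P i s).natDegree
  refine ⟨d, fun k hk => ?_⟩
  have hP : ∀ i, ∀ s ∈ range m, (P i s).natDegree < k := fun i s hs =>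
    lt_of_le_of_lt ((Finset.le_sup (f := fun s => (P i s).natDegree) hs).trans
      (Finset.le_sup (f := fun i : Fin ℓ => (range m).sup fun s => (P i s).natDegree)
        (Finset.mem_univ i))) hk
  have heval : ∀ i s (n : ℕ), ((Ring.choose ((p i).eval (n : ℤ)) (s + 1) : ℤ) : ℚ) =
      (P i s).eval (n : ℚ) := by
    intro i s n
    simp only [P, eval_comp]
    have h3 : ((p i).map (Int.castRingHom ℚ)).eval (n : ℚ) = (((p i).eval (n : ℤ) : ℤ) : ℚ) := by
      simp
    rw [h3, bin_eval]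
  have hph : ∀ n, ph u m b p χ n = ∑ i, ∑ s ∈ range m,
      Ring.choose ((p i).eval (n : ℤ)) (s + 1) • dot (Matrix.vecMul (χ i) (u ^ s)) b := by
    intro n
    unfold ph BB
    apply Finset.sum_congr rfl
    intro i _
    rw [vecMul_sum']
    change dotHom b _ = _
    rw [map_sum]
    apply Finset.sum_congr rfl
    intro s _
    rw [map_zsmul]
    rfl
  unfold Weyl.nc
  rw [fwdDiff_iter_eq_sum_shift]
  simp only [smul_eq_mul, mul_one, zero_add]
  simp only [hph]
  simp only [Finset.smul_sum, smul_smul]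
  rw [Finset.sum_comm]
  apply Finset.sum_eq_zero
  intro i _
  rw [Finset.sum_comm]
  apply Finset.sum_eq_zero
  intro s hs
  rw [← Finset.sum_smul, fwd_zero (P i s) _ (heval i s) (hP i s hs), zero_smul]

/-- equidistribution of the phase when the frequency is constant -/
lemma phase_avZero (hm : u ^ m = 0) (hm0 : 0 < m) {ℓ : ℕ} (hℓ : 1 ≤ ℓ) (p : Fin ℓ → ℤ[X])
    (hp : ∀ i, 0 < (p i).natDegree) (hpp : ∀ i j, i ≠ j → 0 < (p i - p j).natDegree)
    (χ : Fin ℓ → Fin D → ℤ) (hF : ∀ n, FF u m p χ n = FF u m p χ 0)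
    (b : Fin D → UnitAddCircle) (j : Fin ℓ)
    (hj : ¬ IsOfFinAddOrder (dot (Matrix.vecMul (χ j) (u ^ (ℓ - 1))) b)) :
    Weyl.AvZero (fun n => (AddCircle.toCircle (ph u m b p χ n) : ℂ)) := by
  classical
  obtain ⟨Λ, hΛ⟩ := exists_hom _ hj
  have hnc : ∃ k, ¬ IsOfFinAddOrder (Weyl.nc (ph u m b p χ) (k + 1)) := by
    by_contra hcon
    push Not at hcon
    apply hΛ
    apply const_phase hm hm0 hℓ p hp hpp χ hF b Λ
    intro n
    rw [Weyl.newton (ph u m b p χ) n, map_sum, Finset.sum_range_succ']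
    have h1 : ∑ k ∈ range n, Λ (n.choose (k + 1) • Weyl.nc (ph u m b p χ) (k + 1)) = 0 := by
      apply Finset.sum_eq_zero
      intro k _
      rw [map_nsmul]
      obtain ⟨c, hc, hc0⟩ := isOfFinAddOrder_iff_nsmul_eq_zero.1 (hcon k)
      have h2 : c • Λ (Weyl.nc (ph u m b p χ) (k + 1)) = 0 := by
        rw [← map_nsmul, hc0, map_zero]
      have h3 : Λ (Weyl.nc (ph u m b p χ) (k + 1)) = 0 := by
        rcases smul_eq_zero.1 h2 with h | h
        · omega
        · exact h
      rw [h3, smul_zero]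
    rw [h1, zero_add]
    simp [Weyl.nc]
  obtain ⟨d, hd⟩ := nc_ph_zero (u := u) (m := m) p χ b
  -- largest index
  have hbdd : ∀ k, ¬ IsOfFinAddOrder (Weyl.nc (ph u m b p χ) (k + 1)) → k ≤ d := by
    intro k hk
    by_contra h
    apply hk
    rw [hd (k + 1) (by omega)]
    exact IsOfFinAddOrder.zero
  let Sset := (range (d + 1)).filter
    (fun k => ¬ IsOfFinAddOrder (Weyl.nc (ph u m b p χ) (k + 1)))
  obtain ⟨k0, hk0⟩ := hnc
  have hne : Sset.Nonempty := ⟨k0, Finset.mem_filter.2 ⟨Finset.mem_range.2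
    (Nat.lt_succ_of_le (hbdd k0 hk0)), hk0⟩⟩
  let r := Sset.max' hne
  have hr : r ∈ Sset := Sset.max'_mem hne
  apply Weyl.weyl d r _ hd
  · intro k hk
    by_contra hnot
    obtain ⟨k', rfl⟩ : ∃ k', k = k' + 1 := ⟨k - 1, by omega⟩
    have : k' ≤ r := Sset.le_max' k' (Finset.mem_filter.2 ⟨Finset.mem_range.2
      (Nat.lt_succ_of_le (hbdd k' hnot)), hnot⟩)
    omega
  · exact (Finset.mem_filter.1 hr).2

/-- if the frequency is not constant, each value is taken boundedly often -/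
lemma freq_fibre {ℓ : ℕ} (p : Fin ℓ → ℤ[X]) (χ : Fin ℓ → Fin D → ℤ)
    (hF : ¬ ∀ n, FF u m p χ n = FF u m p χ 0) :
    ∃ K : ℕ, ∀ (v : Fin D → ℤ) (S : Finset ℕ), (S.filter (fun n => FF u m p χ n = v)).card ≤ K := by
  push Not at hF
  obtain ⟨n0, hn0⟩ := hF
  obtain ⟨k, hk⟩ := Function.ne_iff.1 hn0
  let L : (Fin D → ℤ) →+ ℚ := (Int.castAddHom ℚ).comp (Pi.evalAddMonoidHom (fun _ => ℤ) k)
  let f : ℚ[X] := ∑ i, (RL u m L (χ i)).comp ((p i).map (Int.castRingHom ℚ))
  have hf : ∀ n : ℕ, f.eval (n : ℚ) = ((FF u m p χ n k : ℤ) : ℚ) := by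
    intro n
    simp only [f, eval_finsetSum, eval_comp]
    have h3 : ∀ i, ((p i).map (Int.castRingHom ℚ)).eval (n : ℚ) =
        (((p i).eval (n : ℤ) : ℤ) : ℚ) := by
      intro i; simp
    simp only [h3, RL_eval]
    rw [← map_sum]
    rfl
  refine ⟨f.natDegree, fun v S => ?_⟩
  let g : ℚ[X] := f - C ((v k : ℤ) : ℚ)
  have hg : g ≠ 0 := by
    intro h0
    have h1 : ∀ n : ℕ, ((FF u m p χ n k : ℤ) : ℚ) = ((v k : ℤ) : ℚ) := by
      intro n
      have h2 : g.eval (n : ℚ) = 0 := by rw [h0, eval_zero]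
      simp only [g, eval_sub, eval_C, hf] at h2
      linarith
    apply hk
    have h2 := (h1 n0).trans (h1 0).symm
    exact_mod_cast h2
  have hsub : ((S.filter (fun n => FF u m p χ n = v)).image (fun n : ℕ => (n : ℚ))) ⊆
      g.roots.toFinset := by
    intro x hx
    obtain ⟨n, hn, rfl⟩ := Finset.mem_image.1 hx
    rw [Multiset.mem_toFinset, mem_roots hg, IsRoot.def]
    simp only [g, eval_sub, eval_C, hf]
    rw [(Finset.mem_filter.1 hn).2, sub_self]
  have hcard := Finset.card_le_card hsub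
  rw [Finset.card_image_of_injective _ Nat.cast_injective] at hcard
  refine hcard.trans ((Multiset.toFinset_card_le _).trans ((card_roots' g).trans ?_))
  simp only [g]
  exact natDegree_sub_C.le

end

end Pool.Agent.Helper973.Tor
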