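import Mathlib
import Pool.Agent.Helper973.Tor

set_option autoImplicit false

/-!
Characters of the torus, Haar measure, and mean convergence for products of characters.
-/

namespace Pool.Agent.Helper973.Chr

open MeasureTheory Filter Topology Finset
open Pool.Agent.Helper973.Tor

variable {D : ℕ}

/-- normalised Haar measure of the torus -/
noncomputable def haarT (D : ℕ) : Measure (Fin D → UnitAddCircle) :=
  Measure.pi fun _ => AddCircle.haarAddCircle

instance : IsProbabilityMeasure (haarT D) := by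
  unfold haarT; infer_instance

instance : (haarT D).IsAddHaarMeasure := by
  unfold haarT; infer_instance

/-- character attached to an integer vector -/
noncomputable def ech (χ : Fin D → ℤ) (x : Fin D → UnitAddCircle) : ℂ :=
  (AddCircle.toCircle (dot χ x) : ℂ)

lemma norm_ech (χ : Fin D → ℤ) (x : Fin D → UnitAddCircle) : ‖ech χ x‖ = 1 := by
  simp [ech]

lemma ech_eq (χ : Fin D → ℤ) (x : Fin D → UnitAddCircle) :
    UnitAddTorus.mFourier χ x = ech χ x := by
  unfold ech dot UnitAddTorus.mFourier
  simp only [ContinuousMap.coe_mk, fourier_apply]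
  have : ∀ S : Finset (Fin D), ∏ i ∈ S, (AddCircle.toCircle (χ i • x i) : ℂ) =
      (AddCircle.toCircle (∑ i ∈ S, χ i • x i) : ℂ) := by
    intro S
    induction S using Finset.induction_on with
    | empty => simp
    | insert a S ha ih =>
      rw [Finset.prod_insert ha, Finset.sum_insert ha, AddCircle.toCircle_add, ih, Circle.coe_mul]
  exact this univ

lemma continuous_ech (χ : Fin D → ℤ) : Continuous (ech χ) := by
  have : ech χ = fun x => UnitAddTorus.mFourier χ x := by
    funext x; rw [ech_eq]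
  rw [this]
  exact (UnitAddTorus.mFourier χ).continuous

lemma ech_add (χ ψ : Fin D → ℤ) (x : Fin D → UnitAddCircle) :
    ech (χ + ψ) x = ech χ x * ech ψ x := by
  unfold ech
  rw [add_dot, AddCircle.toCircle_add, Circle.coe_mul]

lemma ech_neg (χ : Fin D → ℤ) (x : Fin D → UnitAddCircle) :
    ech (-χ) x = (starRingEnd ℂ) (ech χ x) := by
  rw [← ech_eq, ← ech_eq, UnitAddTorus.mFourier_neg]

lemma integral_ech (χ : Fin D → ℤ) : ∫ x, ech χ x ∂(haarT D) = if χ = 0 then 1 else 0 := by
  have h0 : ∀ n : ℤ, ∫ t : UnitAddCircle, fourier n t ∂AddCircle.haarAddCircle =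
      if n = 0 then 1 else 0 := by
    intro n
    have h := congrFun (fourierCoeff_fourier (T := 1) n) 0
    unfold fourierCoeff at h
    simp only [neg_zero, fourier_zero, one_smul] at h
    rw [h]
    by_cases hn : n = 0
    · subst hn; simp
    · rw [if_neg hn, Pi.single_eq_of_ne (Ne.symm hn)]
  have h1 : ∫ x, ech χ x ∂(haarT D) =
      ∫ x, ∏ i, (fun (i : Fin D) (t : UnitAddCircle) => (fourier (χ i) t : ℂ)) i (x i) ∂(haarT D) := by
    apply integral_congr_ae
    apply Eventually.of_forall
    intro x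
    rw [← ech_eq]
    rfl
  rw [h1]
  unfold haarT
  rw [integral_fintype_prod_eq_prod]
  simp only [h0]
  split_ifs with h
  · subst h; simp
  · obtain ⟨i, hi⟩ := Function.ne_iff.1 h
    apply Finset.prod_eq_zero (Finset.mem_univ i)
    rw [if_neg (by simpa using hi)]

lemma continuous_mact (M : Matrix (Fin D) (Fin D) ℤ) : Continuous (mact M) := by
  unfold mact
  fun_prop

/-- affine bijections of the torus preserve Haar measure -/
lemma mp_affine (T : Equiv.Perm (Fin D → UnitAddCircle)) (M : Matrix (Fin D) (Fin D) ℤ)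
    (b : Fin D → UnitAddCircle) (hT : ∀ x, T x = mact M x + b) :
    MeasurePreserving T (haarT D) (haarT D) := by
  let f : (Fin D → UnitAddCircle) →+ (Fin D → UnitAddCircle) :=
    { toFun := mact M
      map_zero' := by funext i; simp [mact]
      map_add' := mact_add_right M }
  have hsurj : Function.Surjective f := by
    intro y
    obtain ⟨x, hx⟩ := T.surjective (y + b)
    refine ⟨x, ?_⟩
    rw [hT] at hx
    exact add_right_cancel hx
  have h1 : MeasurePreserving f (haarT D) (haarT D) :=
    AddMonoidHom.measurePreserving (continuous_mact M) hsurj rfl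
  have h2 : MeasurePreserving (fun x => x + b) (haarT D) (haarT D) :=
    measurePreserving_add_right _ b
  have h3 : (T : (Fin D → UnitAddCircle) → (Fin D → UnitAddCircle)) = (fun x => x + b) ∘ f := by
    funext x; exact hT x
  rw [h3]
  exact h2.comp h1

/-- multiple polynomial averages -/
noncomputable def avg {X : Type*} {ℓ : ℕ} (T : Equiv.Perm X) (p : Fin ℓ → Polynomial ℤ)
    (f : Fin ℓ → X → ℂ) (N : ℕ) (x : X) : ℂ :=
  (N : ℂ)⁻¹ * ∑ n ∈ Finset.Icc 1 N, ∏ i, f i ((T ^ ((p i).eval (n : ℤ))) x)

section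
variable {u : Matrix (Fin D) (Fin D) ℤ} {m : ℕ}

lemma prod_ech (hm : u ^ m = 0) (hm0 : 0 < m) {ℓ : ℕ} (T : Equiv.Perm (Fin D → UnitAddCircle))
    (b : Fin D → UnitAddCircle) (hT : ∀ x, T x = mact (1 + u) x + b) (p : Fin ℓ → Polynomial ℤ)
    (χ : Fin ℓ → Fin D → ℤ) (n : ℕ) (x : Fin D → UnitAddCircle) :
    ∏ i, ech (χ i) ((T ^ ((p i).eval (n : ℤ))) x) =
      (AddCircle.toCircle (ph u m b p χ n) : ℂ) * ech (FF u m p χ n) x := by
  have h1 : ∀ i, ech (χ i) ((T ^ ((p i).eval (n : ℤ))) x) =
      (AddCircle.toCircle (dot (Matrix.vecMul (χ i) (BB u m ((p i).eval (n : ℤ)))) b +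
        dot (Matrix.vecMul (χ i) (PP u m ((p i).eval (n : ℤ)))) x) : ℂ) := by
    intro i
    unfold ech
    rw [zpow_apply hm hm0 T b hT, dot_add, dot_mact, dot_mact, add_comm]
  simp only [h1]
  have h2 : ∀ (S : Finset (Fin ℓ)) (g : Fin ℓ → UnitAddCircle),
      ∏ i ∈ S, (AddCircle.toCircle (g i) : ℂ) = (AddCircle.toCircle (∑ i ∈ S, g i) : ℂ) := by
    intro S g
    induction S using Finset.induction_on with
    | empty => simp
    | insert a S ha ih =>
      rw [Finset.prod_insert ha, Finset.sum_insert ha, AddCircle.toCircle_add, ih, Circle.coe_mul]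
  rw [h2, Finset.sum_add_distrib, AddCircle.toCircle_add, Circle.coe_mul]
  have h3 : ∑ i, dot (Matrix.vecMul (χ i) (PP u m ((p i).eval (n : ℤ)))) x =
      dot (FF u m p χ n) x := by
    unfold FF
    exact (map_sum (dotHom x) _ _).symm
  rw [h3]
  rfl

lemma sum_Icc_eq (a : ℕ → ℂ) (N : ℕ) : ∑ n ∈ Finset.Icc 1 N, a n = ∑ n ∈ range N, a (n + 1) := by
  rw [Finset.range_eq_Ico, Finset.sum_Ico_add' a 0 N 1]
  rfl

lemma integral_sq_sum (S : Finset ℕ) (c : ℕ → ℂ) (hc : ∀ n, ‖c n‖ ≤ 1) (F : ℕ → Fin D → ℤ)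
    (K : ℕ) (hK : ∀ v, (S.filter (fun n => F n = v)).card ≤ K) :
    ∫ x, ‖∑ n ∈ S, c n * ech (F n) x‖ ^ 2 ∂(haarT D) ≤ S.card * K := by
  classical
  have h1 : ((∫ x, ‖∑ n ∈ S, c n * ech (F n) x‖ ^ 2 ∂(haarT D) : ℝ) : ℂ) =
      ∑ n ∈ S, ∑ k ∈ S, c n * (starRingEnd ℂ) (c k) * (if F n = F k then 1 else 0) := by
    rw [← integral_complex_ofReal]
    have e1 : ∀ x, ((‖∑ n ∈ S, c n * ech (F n) x‖ ^ 2 : ℝ) : ℂ) =
        ∑ n ∈ S, ∑ k ∈ S, c n * (starRingEnd ℂ) (c k) * ech (F n - F k) x := by
      intro x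
      rw [Complex.ofReal_pow, ← Complex.mul_conj', map_sum, Finset.sum_mul_sum]
      apply Finset.sum_congr rfl
      intro n _
      apply Finset.sum_congr rfl
      intro k _
      rw [map_mul, sub_eq_add_neg, ech_add, ech_neg]
      ring
    simp only [e1]
    rw [integral_finsetSum]
    · apply Finset.sum_congr rfl
      intro n _
      rw [integral_finsetSum]
      · apply Finset.sum_congr rfl
        intro k _
        rw [integral_const_mul, integral_ech]
        simp only [sub_eq_zero]
      · intro k _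
        exact ((continuous_const.mul (continuous_ech _))).integrable_of_hasCompactSupport
          (HasCompactSupport.of_compactSpace _)
    · intro n _
      apply integrable_finsetSum
      intro k _
      exact ((continuous_const.mul (continuous_ech _))).integrable_of_hasCompactSupport
        (HasCompactSupport.of_compactSpace _)
  have h2 : ∫ x, ‖∑ n ∈ S, c n * ech (F n) x‖ ^ 2 ∂(haarT D) =
      ‖((∫ x, ‖∑ n ∈ S, c n * ech (F n) x‖ ^ 2 ∂(haarT D) : ℝ) : ℂ)‖ := by
    rw [Complex.norm_real, Real.norm_of_nonneg]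
    apply integral_nonneg
    intro x
    positivity
  rw [h2, h1]
  refine (norm_sum_le _ _).trans ?_
  calc ∑ n ∈ S, ‖∑ k ∈ S, c n * (starRingEnd ℂ) (c k) * (if F n = F k then 1 else 0)‖
      ≤ ∑ n ∈ S, (K : ℝ) := by
        apply Finset.sum_le_sum
        intro n _
        refine (norm_sum_le _ _).trans ?_
        calc ∑ k ∈ S, ‖c n * (starRingEnd ℂ) (c k) * (if F n = F k then 1 else 0)‖
            ≤ ∑ k ∈ S, (if F k = F n then (1 : ℝ) else 0) := by
              apply Finset.sum_le_sum
              intro k _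
              by_cases h : F n = F k
              · rw [if_pos h, if_pos h.symm, mul_one, norm_mul, RCLike.norm_conj]
                exact mul_le_one₀ (hc n) (norm_nonneg _) (hc k)
              · rw [if_neg h, if_neg (Ne.symm h)]; simp
          _ = ((S.filter (fun k => F k = F n)).card : ℝ) := by
              rw [Finset.sum_ite, Finset.sum_const_zero, add_zero, Finset.sum_const, nsmul_eq_mul,
                mul_one]
          _ ≤ K := by exact_mod_cast hK (F n)
    _ = S.card * K := by rw [Finset.sum_const, nsmul_eq_mul]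

/-- convergence in `L²` to zero -/
def L2Zero {X : Type*} [MeasurableSpace X] (μ : Measure X) (g : ℕ → X → ℂ) : Prop :=
  Tendsto (fun N => eLpNorm (g N) 2 μ) atTop (𝓝 0)

/-- products of characters, one of which is outside the group of the factor -/
lemma char_conv (hm : u ^ m = 0) (hm0 : 0 < m) {ℓ : ℕ} (hℓ : 1 ≤ ℓ)
    (T : Equiv.Perm (Fin D → UnitAddCircle))
    (b : Fin D → UnitAddCircle) (hT : ∀ x, T x = mact (1 + u) x + b) (p : Fin ℓ → Polynomial ℤ)
    (hp : ∀ i, 0 < (p i).natDegree) (hpp : ∀ i j, i ≠ j → 0 < (p i - p j).natDegree)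
    (χ : Fin ℓ → Fin D → ℤ) (j : Fin ℓ)
    (hj : ¬ (Matrix.vecMul (χ j) (u ^ ℓ) = 0 ∧
      IsOfFinAddOrder (dot (Matrix.vecMul (χ j) (u ^ (ℓ - 1))) b))) :
    L2Zero (haarT D) (avg T p (fun i => ech (χ i))) := by
  unfold L2Zero
  have havg : ∀ N x, avg T p (fun i => ech (χ i)) N x = (N : ℂ)⁻¹ *
      ∑ n ∈ Finset.Icc 1 N, (AddCircle.toCircle (ph u m b p χ n) : ℂ) * ech (FF u m p χ n) x := by
    intro N x
    unfold avg
    congr 1
    apply Finset.sum_congr rfl
    intro n _
    exact prod_ech hm hm0 T b hT p χ n x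
  by_cases hF : ∀ n, FF u m p χ n = FF u m p χ 0
  · -- constant frequency
    have h1 := const_freq hm hm0 hℓ p hp hpp χ hF j
    have h2 : ¬ IsOfFinAddOrder (dot (Matrix.vecMul (χ j) (u ^ (ℓ - 1))) b) :=
      fun h => hj ⟨h1, h⟩
    have h3 := phase_avZero hm hm0 hℓ p hp hpp χ hF b j h2
    have h4 := (Weyl.avZero_shift (fun n => by simp) 1).2 h3
    have h5 : ∀ N, eLpNorm (avg T p (fun i => ech (χ i)) N) 2 (haarT D) =
        ENNReal.ofReal ‖(N : ℂ)⁻¹ * ∑ n ∈ range N,
          (AddCircle.toCircle (ph u m b p χ (n + 1)) : ℂ)‖ := by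
      intro N
      have e1 : eLpNorm (avg T p (fun i => ech (χ i)) N) 2 (haarT D) =
          eLpNorm (fun _ : Fin D → UnitAddCircle => (N : ℂ)⁻¹ * ∑ n ∈ range N,
          (AddCircle.toCircle (ph u m b p χ (n + 1)) : ℂ)) 2 (haarT D) := by
        apply eLpNorm_congr_norm_ae
        apply Eventually.of_forall
        intro x
        rw [havg]
        simp only [hF]
        rw [← Finset.sum_mul, sum_Icc_eq, ← mul_assoc, norm_mul, norm_ech, mul_one]
      rw [e1, eLpNorm_const _ (by norm_num) (NeZero.ne _), measure_univ, ENNReal.one_rpow,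
        mul_one, ofReal_norm]
    simp only [h5]
    have h6 := h4.norm
    rw [norm_zero] at h6
    have h7 := (ENNReal.continuous_ofReal.tendsto 0).comp h6
    rw [ENNReal.ofReal_zero] at h7
    exact h7
  · obtain ⟨K, hK⟩ := freq_fibre (u := u) (m := m) p χ hF
    have h1 : ∀ N : ℕ, eLpNorm (avg T p (fun i => ech (χ i)) N) 2 (haarT D) ≤
        ENNReal.ofReal (((K : ℝ) * (N : ℝ)⁻¹) ^ (1 / 2 : ℝ)) := by
      intro N
      rcases Nat.eq_zero_or_pos N with hN | hN
      · subst hN
        have : avg T p (fun i => ech (χ i)) 0 = 0 := by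
          funext x; simp [avg]
        rw [this]; simp
      have hcont : Continuous (avg T p (fun i => ech (χ i)) N) := by
        have : avg T p (fun i => ech (χ i)) N = fun x => (N : ℂ)⁻¹ *
          ∑ n ∈ Finset.Icc 1 N, (AddCircle.toCircle (ph u m b p χ n) : ℂ) * ech (FF u m p χ n) x := by
          funext x; exact havg N x
        rw [this]
        refine continuous_const.mul (continuous_finsetSum _ fun n _ => ?_)
        exact continuous_const.mul (continuous_ech _)
      have hmem : MemLp (avg T p (fun i => ech (χ i)) N) 2 (haarT D) := by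
        refine MemLp.of_bound hcont.aestronglyMeasurable 1 (Eventually.of_forall fun x => ?_)
        rw [havg, norm_mul, norm_inv, Complex.norm_natCast]
        have hNr : (0 : ℝ) < N := by exact_mod_cast hN
        rw [inv_mul_le_iff₀ hNr, mul_one]
        refine (norm_sum_le _ _).trans ?_
        calc _ ≤ ∑ n ∈ Finset.Icc 1 N, (1 : ℝ) := by
              apply Finset.sum_le_sum
              intro n _
              rw [norm_mul, norm_ech, mul_one]
              simp
          _ = N := by simp
      rw [hmem.eLpNorm_eq_integral_rpow_norm (by norm_num) (by norm_num)]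
      apply ENNReal.ofReal_le_ofReal
      simp only [ENNReal.toReal_ofNat]
      have h3 : ∫ x, ‖avg T p (fun i => ech (χ i)) N x‖ ^ (2 : ℝ) ∂(haarT D) ≤
          (K : ℝ) * (N : ℝ)⁻¹ := by
        have e1 : ∀ x, ‖avg T p (fun i => ech (χ i)) N x‖ ^ (2 : ℝ) = ((N : ℝ)⁻¹) ^ 2 *
            ‖∑ n ∈ Finset.Icc 1 N, (AddCircle.toCircle (ph u m b p χ n) : ℂ) *
              ech (FF u m p χ n) x‖ ^ 2 := by
          intro x
          rw [havg, Real.rpow_two, norm_mul, norm_inv, Complex.norm_natCast, mul_pow]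
        simp only [e1]
        rw [integral_const_mul]
        have h4 := integral_sq_sum (Finset.Icc 1 N)
          (fun n => (AddCircle.toCircle (ph u m b p χ n) : ℂ)) (fun n => by simp)
          (FF u m p χ) K (fun v => hK v _)
        have hcard : ((Finset.Icc 1 N).card : ℝ) = N := by simp
        rw [hcard] at h4
        calc ((N : ℝ)⁻¹) ^ 2 * _ ≤ ((N : ℝ)⁻¹) ^ 2 * (N * K) := by gcongr
          _ = (K : ℝ) * (N : ℝ)⁻¹ := by
              have hNr : (0 : ℝ) < N := by exact_mod_cast hN
              field_simp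
      rw [one_div]
      apply Real.rpow_le_rpow _ h3 (by norm_num)
      apply integral_nonneg
      intro x
      positivity
    refine tendsto_of_tendsto_of_tendsto_of_le_of_le tendsto_const_nhds ?_
      (fun N => zero_le) h1
    have h2 : Tendsto (fun N : ℕ => (K : ℝ) * (N : ℝ)⁻¹) atTop (𝓝 0) := by
      have := (tendsto_inv_atTop_nhds_zero_nat (𝕜 := ℝ)).const_mul (K : ℝ)
      simpa using this
    have h3 : Tendsto (fun N : ℕ => ((K : ℝ) * (N : ℝ)⁻¹) ^ (1 / 2 : ℝ)) atTop (𝓝 0) := by
      have := h2.rpow_const (p := (1 / 2 : ℝ)) (Or.inr (by norm_num))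
      simpa using this
    have h4 := (ENNReal.continuous_ofReal.tendsto 0).comp h3
    rw [ENNReal.ofReal_zero] at h4
    exact h4

end

end Pool.Agent.Helper973.Chr
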