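import Mathlib

set_option autoImplicit false

/-!
Averages of correlations and invariant functions.
-/

namespace Pool.Agent.Helper973.Erg

open MeasureTheory Filter Topology Finset
open scoped ENNReal

variable {X : Type*} [m0 : MeasurableSpace X]

/-- the averages of the correlations of `g` converge, to something of size at least the square of
the integral of `g` -/
lemma corr_avg (μ : Measure X) [IsProbabilityMeasure μ] (S : X → X) (hS : MeasurePreserving S μ μ)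
    (g : X → ℂ) (hg : MemLp g 2 μ) :
    ∃ L : ℂ, Tendsto (fun M : ℕ => (M : ℂ)⁻¹ * ∑ h ∈ Finset.Icc 1 M,
      ∫ x, (starRingEnd ℂ) (g x) * g (S^[h] x) ∂μ) atTop (𝓝 L) ∧ ‖∫ x, g x ∂μ‖ ^ 2 ≤ ‖L‖ := by
  let U : Lp ℂ 2 μ →ₗᵢ[ℂ] Lp ℂ 2 μ := Lp.compMeasurePreservingₗᵢ ℂ S hS
  let V : Lp ℂ 2 μ →L[ℂ] Lp ℂ 2 μ := U.toContinuousLinearMap
  have hV : ‖V‖ ≤ 1 := U.norm_toContinuousLinearMap_le
  let G : Lp ℂ 2 μ := hg.toLp g
  let K := V.eqLocus (1 : Lp ℂ 2 μ →L[ℂ] Lp ℂ 2 μ)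
  have h1 := ContinuousLinearMap.tendsto_birkhoffAverage_orthogonalProjection V hV G
  set P : K := K.orthogonalProjectionOnto G with hP
  have hPf : V (P : Lp ℂ 2 μ) = P := by
    exact LinearMap.mem_eqLocus.1 P.2
  have h2 : Tendsto (fun M => V (birkhoffAverage ℂ V _root_.id M G)) atTop (𝓝 (P : Lp ℂ 2 μ)) := by
    have := (V.continuous.tendsto _).comp h1
    rw [← hPf]
    exact this
  have h3 : Tendsto (fun M => inner ℂ G (V (birkhoffAverage ℂ V _root_.id M G))) atTop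
      (𝓝 (inner ℂ G (P : Lp ℂ 2 μ))) := tendsto_const_nhds.inner h2
  have hIter : ∀ h : ℕ, V^[h] G = (hg.comp_measurePreserving (hS.iterate h)).toLp (g ∘ S^[h]) := by
    intro h
    have e1 : (V : Lp ℂ 2 μ → Lp ℂ 2 μ) = Lp.compMeasurePreserving S hS := rfl
    rw [e1, Lp.compMeasurePreserving_iterate]
    rfl
  have hInn : ∀ h : ℕ, inner ℂ G (V^[h] G) = ∫ x, (starRingEnd ℂ) (g x) * g (S^[h] x) ∂μ := by
    intro h
    rw [hIter, L2.inner_def]
    apply integral_congr_ae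
    filter_upwards [hg.coeFn_toLp, (hg.comp_measurePreserving (hS.iterate h)).coeFn_toLp] with x h4 h5
    rw [h4, h5, RCLike.inner_apply]
    simp [mul_comm]
  refine ⟨inner ℂ G (P : Lp ℂ 2 μ), ?_, ?_⟩
  · refine h3.congr (fun M => ?_)
    unfold birkhoffAverage birkhoffSum
    rw [map_smul, map_sum, inner_smul_right, inner_sum]
    congr 1
    rw [Finset.range_eq_Ico]
    have : Finset.Icc 1 M = Finset.Ico (0 + 1) (M + 1) := by rfl
    rw [this, ← Finset.sum_Ico_add' _ 0 M 1]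
    apply Finset.sum_congr rfl
    intro k _
    rw [← hInn, Function.iterate_succ_apply']
    rfl
  · have h4 : inner ℂ G (P : Lp ℂ 2 μ) = inner ℂ (P : Lp ℂ 2 μ) (P : Lp ℂ 2 μ) := by
      have := Submodule.inner_orthogonalProjectionOnto_eq_of_mem_right P G
      rw [← this]
      rfl
    rw [h4, inner_self_eq_norm_sq_to_K]
    have h5 : ‖∫ x, g x ∂μ‖ ≤ ‖(P : Lp ℂ 2 μ)‖ := by
      let One : Lp ℂ 2 μ := (memLp_const (1 : ℂ)).toLp (fun _ => (1 : ℂ))
      have hOne : V One = One := by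
        have e1 : V One = ((memLp_const (1 : ℂ)).comp_measurePreserving hS).toLp
          ((fun _ => (1 : ℂ)) ∘ S) := rfl
        rw [e1]
        rfl
      let O : K := ⟨One, by simpa [K] using hOne⟩
      have h6 : inner ℂ One G = ∫ x, g x ∂μ := by
        rw [L2.inner_def]
        apply integral_congr_ae
        filter_upwards [hg.coeFn_toLp, (memLp_const (μ := μ) (p := 2) (1 : ℂ)).coeFn_toLp] with x h4 h5
        rw [h4, h5, RCLike.inner_apply]
        simp
      have h7 : inner ℂ One G = inner ℂ One (P : Lp ℂ 2 μ) := by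
        have := Submodule.inner_orthogonalProjectionOnto_eq_of_mem_left O G
        rw [← this]
        rfl
      have h8 : ‖One‖ = 1 := by
        rw [Lp.norm_toLp, eLpNorm_const _ (by norm_num) (NeZero.ne _), measure_univ]
        simp
      rw [← h6, h7]
      calc ‖inner ℂ One (P : Lp ℂ 2 μ)‖ ≤ ‖One‖ * ‖(P : Lp ℂ 2 μ)‖ := norm_inner_le_norm _ _
        _ = _ := by rw [h8, one_mul]
    rw [norm_pow]
    simp only [RCLike.norm_ofReal, abs_norm]
    exact pow_le_pow_left₀ (norm_nonneg _) h5 2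

end Pool.Agent.Helper973.Erg

namespace Pool.Agent.Helper973.Erg

open MeasureTheory Filter Topology Finset
open scoped ENNReal

/-- lower bound for the norm of the conditional expectation -/
lemma proj_bound {X : Type*} {I m0 : MeasurableSpace X} (hI : I ≤ m0) (μ : Measure X)
    [IsProbabilityMeasure μ] (f φ : X → ℂ)
    (hf : MemLp f ⊤ μ) (hφI : Measurable[I] φ) (hn : ∀ x, ‖φ x‖ = 1) :
    ‖∫ x, f x * (starRingEnd ℂ) (φ x) ∂μ‖ₑ ^ 2 ≤ ∫⁻ x, ‖(μ[f | I]) x‖ₑ ^ 2 ∂μ := by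
  have hψI : StronglyMeasurable[I] (fun x => (starRingEnd ℂ) (φ x)) := by
    apply Measurable.stronglyMeasurable
    exact Complex.continuous_conj.measurable.comp hφI
  have hψ : AEStronglyMeasurable (fun x => (starRingEnd ℂ) (φ x)) μ :=
    (hψI.mono hI).aestronglyMeasurable
  have hfi : Integrable f μ := hf.integrable le_top
  have hfφ : Integrable (fun x => f x * (starRingEnd ℂ) (φ x)) μ := by
    refine hfi.mono (hfi.1.mul hψ) (Eventually.of_forall fun x => ?_)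
    rw [norm_mul, RCLike.norm_conj, hn, mul_one]
  let B : ℂ →L[ℝ] ℂ →L[ℝ] ℂ := ContinuousLinearMap.mul ℝ ℂ
  have h1 : μ[fun x => f x * (starRingEnd ℂ) (φ x) | I] =ᵐ[μ]
      fun x => (μ[f|I]) x * (starRingEnd ℂ) (φ x) :=
    condExp_bilin_of_stronglyMeasurable_right B hψI hfφ hfi
  have h2 : ∫ x, f x * (starRingEnd ℂ) (φ x) ∂μ =
      ∫ x, (μ[f|I]) x * (starRingEnd ℂ) (φ x) ∂μ := by
    rw [← integral_condExp hI, integral_congr_ae h1]
  rw [h2]
  have h3 : ‖∫ x, (μ[f|I]) x * (starRingEnd ℂ) (φ x) ∂μ‖ₑ ≤ eLpNorm (μ[f|I]) 2 μ := by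
    calc ‖∫ x, (μ[f|I]) x * (starRingEnd ℂ) (φ x) ∂μ‖ₑ
        ≤ ∫⁻ x, ‖(μ[f|I]) x * (starRingEnd ℂ) (φ x)‖ₑ ∂μ := enorm_integral_le_lintegral_enorm _
      _ = ∫⁻ x, ‖(μ[f|I]) x‖ₑ ∂μ := by
          apply lintegral_congr
          intro x
          rw [← ofReal_norm, ← ofReal_norm, norm_mul, RCLike.norm_conj, hn, mul_one]
      _ = eLpNorm (μ[f|I]) 1 μ := (eLpNorm_one_eq_lintegral_enorm).symm
      _ ≤ eLpNorm (μ[f|I]) 2 μ :=
          eLpNorm_le_eLpNorm_of_exponent_le (by norm_num)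
            (stronglyMeasurable_condExp.mono hI).aestronglyMeasurable
  have h4 : eLpNorm (μ[f|I]) 2 μ ^ 2 = ∫⁻ x, ‖(μ[f|I]) x‖ₑ ^ 2 ∂μ := by
    have h5 := eLpNorm_nnreal_pow_eq_lintegral (f := μ[f|I]) (μ := μ) (p := 2) (by norm_num)
    simpa using h5
  rw [← h4]
  gcongr

/-- lower bound for the norm of the projection on invariant functions -/
lemma inv_bound {X : Type*} [m0 : MeasurableSpace X] (μ : Measure X) [IsProbabilityMeasure μ]
    (S : X → X) (f φ : X → ℂ)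
    (hf : MemLp f ⊤ μ) (hφ : Measurable φ) (hn : ∀ x, ‖φ x‖ = 1) (hinv : ∀ x, φ (S x) = φ x) :
    ‖∫ x, f x * (starRingEnd ℂ) (φ x) ∂μ‖ₑ ^ 2 ≤
      ∫⁻ x, ‖(μ[f | MeasurableSpace.invariants S]) x‖ₑ ^ 2 ∂μ := by
  apply proj_bound (MeasurableSpace.invariants_le _) μ f φ hf _ hn
  rw [MeasurableSpace.measurable_invariants_dom]
  refine ⟨hφ, fun s _ => ?_⟩
  ext x
  simp [hinv x]

end Pool.Agent.Helper973.Erg
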