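import Mathlib
import Pool.Agent.Helper973.Chr

set_option autoImplicit false

/-!
Reduction of mean convergence of multiple averages to products of characters.
-/

namespace Pool.Agent.Helper973.Red

open MeasureTheory Filter Topology Finset
open Pool.Agent.Helper973.Tor Pool.Agent.Helper973.Chr

section general
variable {X : Type*} [MeasurableSpace X] {μ : Measure X} [IsProbabilityMeasure μ] {ℓ : ℕ}
  {T : Equiv.Perm X} {p : Fin ℓ → Polynomial ℤ}

omit [MeasurableSpace X] in
lemma prod_update (f : Fin ℓ → X → ℂ) (j : Fin ℓ) (g : X → ℂ) (y : Fin ℓ → X) :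
    ∏ i, Function.update f j g i (y i) = g (y j) * ∏ i ∈ univ.erase j, f i (y i) := by
  rw [← Finset.mul_prod_erase univ _ (Finset.mem_univ j), Function.update_self]
  congr 1
  apply Finset.prod_congr rfl
  intro i hi
  rw [Function.update_of_ne (Finset.ne_of_mem_erase hi)]

omit [MeasurableSpace X] in
lemma avg_update (f : Fin ℓ → X → ℂ) (j : Fin ℓ) (g : X → ℂ) (N : ℕ) (x : X) :
    avg T p (Function.update f j g) N x = (N : ℂ)⁻¹ * ∑ n ∈ Finset.Icc 1 N,
      g ((T ^ ((p j).eval (n : ℤ))) x) *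
        ∏ i ∈ univ.erase j, f i ((T ^ ((p i).eval (n : ℤ))) x) := by
  unfold avg
  congr 1
  apply Finset.sum_congr rfl
  intro n _
  exact prod_update f j g (fun i => (T ^ ((p i).eval (n : ℤ))) x)

omit [MeasurableSpace X] in
lemma avg_update_add (f : Fin ℓ → X → ℂ) (j : Fin ℓ) (g h : X → ℂ) (N : ℕ) :
    avg T p (Function.update f j (g + h)) N =
      avg T p (Function.update f j g) N + avg T p (Function.update f j h) N := by
  funext x
  rw [Pi.add_apply, avg_update, avg_update, avg_update, ← mul_add, ← Finset.sum_add_distrib]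
  congr 1
  apply Finset.sum_congr rfl
  intro n _
  rw [Pi.add_apply, add_mul]

omit [MeasurableSpace X] in
lemma avg_update_smul (f : Fin ℓ → X → ℂ) (j : Fin ℓ) (c : ℂ) (g : X → ℂ) (N : ℕ) :
    avg T p (Function.update f j (c • g)) N = c • avg T p (Function.update f j g) N := by
  funext x
  rw [Pi.smul_apply, avg_update, avg_update, smul_eq_mul]
  have h : ∑ n ∈ Finset.Icc 1 N, (c • g) ((T ^ ((p j).eval (n : ℤ))) x) *
        ∏ i ∈ univ.erase j, f i ((T ^ ((p i).eval (n : ℤ))) x) =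
      c * ∑ n ∈ Finset.Icc 1 N, g ((T ^ ((p j).eval (n : ℤ))) x) *
        ∏ i ∈ univ.erase j, f i ((T ^ ((p i).eval (n : ℤ))) x) := by
    rw [Finset.mul_sum]
    apply Finset.sum_congr rfl
    intro n _
    rw [Pi.smul_apply, smul_eq_mul, mul_assoc]
  rw [h]
  ring

variable (hT : ∀ t : ℤ, MeasurePreserving (T ^ t : Equiv.Perm X) μ μ)
include hT

omit [IsProbabilityMeasure μ] in
lemma aesm_avg (f : Fin ℓ → X → ℂ) (hf : ∀ i, AEStronglyMeasurable (f i) μ) (N : ℕ) :
    AEStronglyMeasurable (avg T p f N) μ := by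
  have h1 : avg T p f N = fun x => (N : ℂ)⁻¹ * ∑ n ∈ Finset.Icc 1 N,
      ∏ i, (f i ∘ (T ^ ((p i).eval (n : ℤ)) : Equiv.Perm X)) x := rfl
  rw [h1]
  apply AEStronglyMeasurable.const_mul
  apply Finset.aestronglyMeasurable_fun_sum
  intro n _
  apply Finset.aestronglyMeasurable_fun_prod
  intro i _
  exact (hf i).comp_measurePreserving (hT _)

omit [IsProbabilityMeasure μ] in
lemma avg_bound (f : Fin ℓ → X → ℂ) (j : Fin ℓ) (C : Fin ℓ → ℝ)
    (hf : ∀ i, AEStronglyMeasurable (f i) μ) (hC : ∀ i, ∀ᵐ x ∂μ, ‖f i x‖ ≤ C i)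
    (hC0 : ∀ i, 0 ≤ C i) (g : X → ℂ) (hg : AEStronglyMeasurable g μ) (N : ℕ) :
    eLpNorm (avg T p (Function.update f j g) N) 2 μ ≤
      ENNReal.ofReal (∏ i ∈ univ.erase j, C i) * eLpNorm g 2 μ := by
  rcases Nat.eq_zero_or_pos N with hN | hN
  · subst hN
    have : avg T p (Function.update f j g) 0 = 0 := by funext x; simp [avg]
    rw [this]; simp
  let W : ℕ → X → ℂ := fun n x => g ((T ^ ((p j).eval (n : ℤ))) x) *
        ∏ i ∈ univ.erase j, f i ((T ^ ((p i).eval (n : ℤ))) x)
  have h1 : avg T p (Function.update f j g) N = (N : ℂ)⁻¹ • ∑ n ∈ Finset.Icc 1 N, W n := by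
    funext x
    rw [avg_update, Pi.smul_apply, Finset.sum_apply, smul_eq_mul]
  have hWm : ∀ n, AEStronglyMeasurable (W n) μ := by
    intro n
    apply AEStronglyMeasurable.mul (hg.comp_measurePreserving (hT _))
    apply Finset.aestronglyMeasurable_fun_prod
    intro i _
    exact (hf i).comp_measurePreserving (hT _)
  have hW : ∀ n, eLpNorm (W n) 2 μ ≤
      ENNReal.ofReal (∏ i ∈ univ.erase j, C i) * eLpNorm g 2 μ := by
    intro n
    have h2 : eLpNorm (g ∘ (T ^ ((p j).eval (n : ℤ)) : Equiv.Perm X)) 2 μ = eLpNorm g 2 μ :=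
      eLpNorm_comp_measurePreserving hg (hT _)
    rw [← h2]
    apply eLpNorm_le_mul_eLpNorm_of_ae_le_mul
    have h3 : ∀ i, ∀ᵐ x ∂μ, ‖f i ((T ^ ((p i).eval (n : ℤ))) x)‖ ≤ C i := fun i =>
      (hT _).quasiMeasurePreserving.tendsto_ae.eventually (hC i)
    have h4 : ∀ᵐ x ∂μ, ∀ i, ‖f i ((T ^ ((p i).eval (n : ℤ))) x)‖ ≤ C i := ae_all_iff.2 h3
    filter_upwards [h4] with x hx
    simp only [W]
    rw [norm_mul, mul_comm, norm_prod]
    refine mul_le_mul ?_ le_rfl (norm_nonneg _) (Finset.prod_nonneg fun i _ => hC0 i)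
    exact Finset.prod_le_prod (fun i _ => norm_nonneg _) (fun i _ => hx i)
  rw [h1, eLpNorm_const_smul]
  have h5 : eLpNorm (∑ n ∈ Finset.Icc 1 N, W n) 2 μ ≤
      N * (ENNReal.ofReal (∏ i ∈ univ.erase j, C i) * eLpNorm g 2 μ) := by
    refine (eLpNorm_sum_le (fun n _ => hWm n) (by norm_num)).trans ?_
    refine (Finset.sum_le_sum (fun n _ => hW n)).trans ?_
    rw [Finset.sum_const, nsmul_eq_mul, Nat.card_Icc, Nat.add_sub_cancel]
  have h6 : ‖(N : ℂ)⁻¹‖ₑ = (N : ENNReal)⁻¹ := by
    rw [enorm_inv (by exact_mod_cast hN.ne')]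
    congr 1
    rw [← ofReal_norm, Complex.norm_natCast, ENNReal.ofReal_natCast]
  rw [h6]
  calc (N : ENNReal)⁻¹ * eLpNorm (∑ n ∈ Finset.Icc 1 N, W n) 2 μ
      ≤ (N : ENNReal)⁻¹ * (N * (ENNReal.ofReal (∏ i ∈ univ.erase j, C i) * eLpNorm g 2 μ)) := by
        gcongr
    _ = _ := by
        rw [← mul_assoc, ENNReal.inv_mul_cancel (by exact_mod_cast hN.ne')
          (ENNReal.natCast_ne_top N), one_mul]

omit [IsProbabilityMeasure μ] in
lemma l2zero_add (f : Fin ℓ → X → ℂ) (hf : ∀ i, AEStronglyMeasurable (f i) μ) (j : Fin ℓ)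
    (g h : X → ℂ) (hgm : AEStronglyMeasurable g μ) (hhm : AEStronglyMeasurable h μ)
    (hg : L2Zero μ (avg T p (Function.update f j g)))
    (hh : L2Zero μ (avg T p (Function.update f j h))) :
    L2Zero μ (avg T p (Function.update f j (g + h))) := by
  unfold L2Zero at *
  have h1 := hg.add hh
  rw [add_zero] at h1
  refine tendsto_of_tendsto_of_tendsto_of_le_of_le tendsto_const_nhds h1 (fun N => zero_le)
    (fun N => ?_)
  simp only
  rw [avg_update_add]
  have hm : ∀ g' : X → ℂ, AEStronglyMeasurable g' μ →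
      ∀ i, AEStronglyMeasurable (Function.update f j g' i) μ := by
    intro g' hg' i
    by_cases hij : i = j
    · subst hij; rw [Function.update_self]; exact hg'
    · rw [Function.update_of_ne hij]; exact hf i
  exact eLpNorm_add_le (aesm_avg hT _ (hm g hgm) N) (aesm_avg hT _ (hm h hhm) N) (by norm_num)

omit hT [IsProbabilityMeasure μ] in
lemma l2zero_smul (f : Fin ℓ → X → ℂ) (j : Fin ℓ) (c : ℂ)
    (g : X → ℂ) (hg : L2Zero μ (avg T p (Function.update f j g))) :
    L2Zero μ (avg T p (Function.update f j (c • g))) := by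
  unfold L2Zero at *
  simp only [avg_update_smul, eLpNorm_const_smul]
  have := ENNReal.Tendsto.const_mul (a := ‖c‖ₑ) hg (Or.inr (by simp))
  simpa using this

omit [IsProbabilityMeasure μ] in
lemma l2zero_sum {κ : Type*} (f : Fin ℓ → X → ℂ) (hf : ∀ i, AEStronglyMeasurable (f i) μ)
    (j : Fin ℓ) (S : Finset κ) (g : κ → X → ℂ) (hgm : ∀ k, AEStronglyMeasurable (g k) μ)
    (hg : ∀ k ∈ S, L2Zero μ (avg T p (Function.update f j (g k)))) :
    L2Zero μ (avg T p (Function.update f j (∑ k ∈ S, g k))) := by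
  classical
  induction S using Finset.induction_on with
  | empty =>
    have h1 : ∀ N, avg T p (Function.update f j 0) N = 0 := by
      intro N
      funext x
      rw [avg_update]
      simp
    unfold L2Zero
    simp [h1]
  | insert a S ha ih =>
    rw [Finset.sum_insert ha]
    apply l2zero_add hT f hf j _ _ (hgm a)
    · exact Finset.aestronglyMeasurable_sum S (fun k _ => hgm k)
    · exact hg a (Finset.mem_insert_self a S)
    · exact ih (fun k hk => hg k (Finset.mem_insert_of_mem hk))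

omit [IsProbabilityMeasure μ] in
lemma l2zero_approx (f : Fin ℓ → X → ℂ) (hf : ∀ i, MemLp (f i) ⊤ μ) (j : Fin ℓ)
    (happ : ∀ ε : ENNReal, 0 < ε → ∃ g : X → ℂ, AEStronglyMeasurable g μ ∧
      eLpNorm (f j - g) 2 μ ≤ ε ∧ L2Zero μ (avg T p (Function.update f j g))) :
    L2Zero μ (avg T p f) := by
  -- bounds
  have hC : ∀ i, ∃ C : ℝ, 0 ≤ C ∧ ∀ᵐ x ∂μ, ‖f i x‖ ≤ C := by
    intro i
    refine ⟨(eLpNorm (f i) ⊤ μ).toReal, ENNReal.toReal_nonneg, ?_⟩
    have h1 := ae_le_eLpNormEssSup (f := f i) (μ := μ)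
    filter_upwards [h1] with x hx
    rw [eLpNorm_exponent_top]
    have h2 : eLpNormEssSup (f i) μ ≠ ⊤ := by
      have := (hf i).2
      rw [eLpNorm_exponent_top] at this
      exact this.ne
    rw [← ofReal_norm, ENNReal.ofReal_le_iff_le_toReal h2] at hx
    exact hx
  choose C hC0 hC using hC
  set B : ENNReal := ENNReal.ofReal (∏ i ∈ univ.erase j, C i) with hB
  unfold L2Zero
  rw [ENNReal.tendsto_nhds_zero]
  intro ε hε
  -- choose approximation
  have hε2 : 0 < ε / 2 / (B + 1) := by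
    apply ENNReal.div_pos
    · exact (ENNReal.half_pos hε.ne').ne'
    · exact ENNReal.add_ne_top.2 ⟨ENNReal.ofReal_ne_top, ENNReal.one_ne_top⟩
  obtain ⟨g, hgm, hg, hg0⟩ := happ _ hε2
  unfold L2Zero at hg0
  rw [ENNReal.tendsto_nhds_zero] at hg0
  have hev := hg0 (ε / 2) (ENNReal.half_pos hε.ne')
  filter_upwards [hev] with N hN
  have hfj : f = Function.update f j ((f j - g) + g) := by
    rw [sub_add_cancel, Function.update_eq_self]
  rw [hfj, avg_update_add]
  have hm : ∀ g' : X → ℂ, AEStronglyMeasurable g' μ →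
      ∀ i, AEStronglyMeasurable (Function.update f j g' i) μ := by
    intro g' hg' i
    by_cases hij : i = j
    · subst hij; rw [Function.update_self]; exact hg'
    · rw [Function.update_of_ne hij]; exact (hf i).1
  have hd : AEStronglyMeasurable (f j - g) μ := (hf j).1.sub hgm
  calc eLpNorm (avg T p (Function.update f j (f j - g)) N + avg T p (Function.update f j g) N) 2 μ
      ≤ eLpNorm (avg T p (Function.update f j (f j - g)) N) 2 μ +
        eLpNorm (avg T p (Function.update f j g) N) 2 μ :=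
        eLpNorm_add_le (aesm_avg hT _ (hm _ hd) N) (aesm_avg hT _ (hm g hgm) N) (by norm_num)
    _ ≤ B * (ε / 2 / (B + 1)) + ε / 2 := by
        gcongr
        refine (avg_bound hT f j C (fun i => (hf i).1) hC hC0 (f j - g) hd N).trans ?_
        gcongr
    _ ≤ ε / 2 + ε / 2 := by
        gcongr
        calc B * (ε / 2 / (B + 1)) ≤ (B + 1) * (ε / 2 / (B + 1)) := by
              gcongr; exact le_self_add
          _ ≤ ε / 2 := ENNReal.mul_div_le
    _ = ε := ENNReal.add_halves ε

end general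

end Pool.Agent.Helper973.Red
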