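import Mathlib
import Pool.Agent.Helper973.Red

set_option autoImplicit false

/-!
Fourier approximation on the torus and convergence criterion in terms of Fourier coefficients.
-/

namespace Pool.Agent.Helper973.Fou

open MeasureTheory Filter Topology Finset
open Pool.Agent.Helper973.Tor Pool.Agent.Helper973.Chr Pool.Agent.Helper973.Red

variable {D : ℕ}

/-- Fourier coefficient -/
noncomputable def fc (f : (Fin D → UnitAddCircle) → ℂ) (χ : Fin D → ℤ) : ℂ :=
  ∫ x, f x * (starRingEnd ℂ) (ech χ x) ∂(haarT D)

noncomputable local instance : MeasureSpace UnitAddCircle := ⟨AddCircle.haarAddCircle⟩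

local instance : Measure.IsAddHaarMeasure (volume : Measure UnitAddCircle) :=
  inferInstanceAs (Measure.IsAddHaarMeasure AddCircle.haarAddCircle)

local instance : IsProbabilityMeasure (volume : Measure UnitAddCircle) :=
  inferInstanceAs (IsProbabilityMeasure AddCircle.haarAddCircle)

lemma vol_eq : (volume : Measure (UnitAddTorus (Fin D))) = haarT D := rfl

lemma approx (f : (Fin D → UnitAddCircle) → ℂ) (hf : MemLp f 2 (haarT D)) (ε : ENNReal)
    (hε : 0 < ε) : ∃ S : Finset (Fin D → ℤ),
      eLpNorm (f - ∑ χ ∈ S, fc f χ • ech χ) 2 (haarT D) ≤ ε := by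
  have hf' : MemLp f 2 (volume : Measure (UnitAddTorus (Fin D))) := hf
  have h := UnitAddTorus.hasSum_mFourier_series_L2 (hf'.toLp f)
  unfold HasSum at h
  simp only [SummationFilter.unconditional_filter] at h
  have h1 := (EMetric.tendsto_nhds.1 h) ε hε
  obtain ⟨S, hS⟩ := h1.exists
  refine ⟨S, ?_⟩
  have hc : ∀ χ, UnitAddTorus.mFourierCoeff (hf'.toLp f) χ = fc f χ := by
    intro χ
    unfold UnitAddTorus.mFourierCoeff fc
    refine integral_congr_ae (μ := haarT D) ?_
    filter_upwards [hf'.coeFn_toLp] with x hx
    rw [hx, smul_eq_mul, ech_eq, ech_neg, mul_comm]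
  simp only [hc] at hS
  rw [edist_comm, Lp.edist_def] at hS
  refine le_trans (le_of_eq ?_) hS.le
  apply eLpNorm_congr_ae
  have h2 : ∀ᵐ x ∂(volume : Measure (UnitAddTorus (Fin D))), ∀ χ ∈ S,
      ((fc f χ • UnitAddTorus.mFourierLp 2 χ : Lp ℂ 2 (volume : Measure (UnitAddTorus (Fin D)))) :
        UnitAddTorus (Fin D) → ℂ) x = fc f χ * ech χ x := by
    rw [Filter.eventually_all_finset]
    intro χ _
    filter_upwards [Lp.coeFn_smul (fc f χ) (UnitAddTorus.mFourierLp (d := Fin D) 2 χ),
      UnitAddTorus.coeFn_mFourierLp (d := Fin D) 2 χ] with x h3 h4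
    rw [h3, Pi.smul_apply, h4, ech_eq, smul_eq_mul]
  have h5 := Lp.coeFn_finsetSum S
    (fun χ => (fc f χ • UnitAddTorus.mFourierLp 2 χ : Lp ℂ 2 (volume : Measure (UnitAddTorus (Fin D)))))
  filter_upwards [hf'.coeFn_toLp, h2, h5] with x hx h6 h7
  rw [Pi.sub_apply, Pi.sub_apply, hx, h7]
  congr 1
  rw [Finset.sum_apply, Finset.sum_apply]
  apply Finset.sum_congr rfl
  intro χ hχ
  rw [h6 χ hχ, Pi.smul_apply, smul_eq_mul]

section
variable {u : Matrix (Fin D) (Fin D) ℤ} {m : ℕ}

/-- criterion for mean convergence to zero in terms of Fourier coefficients -/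
lemma crit (hm : u ^ m = 0) (hm0 : 0 < m) {ℓ : ℕ} (hℓ : 1 ≤ ℓ)
    (T : Equiv.Perm (Fin D → UnitAddCircle))
    (b : Fin D → UnitAddCircle) (hT : ∀ x, T x = mact (1 + u) x + b) (p : Fin ℓ → Polynomial ℤ)
    (hp : ∀ i, 0 < (p i).natDegree) (hpp : ∀ i j, i ≠ j → 0 < (p i - p j).natDegree)
    (f : Fin ℓ → (Fin D → UnitAddCircle) → ℂ) (hf : ∀ i, MemLp (f i) ⊤ (haarT D)) (j : Fin ℓ)
    (hj : ∀ χ : Fin D → ℤ, Matrix.vecMul χ (u ^ ℓ) = 0 →
      IsOfFinAddOrder (dot (Matrix.vecMul χ (u ^ (ℓ - 1))) b) → fc (f j) χ = 0) :
    L2Zero (haarT D) (avg T p f) := by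
  classical
  have hTm : ∀ t : ℤ, MeasurePreserving (T ^ t : Equiv.Perm (Fin D → UnitAddCircle))
      (haarT D) (haarT D) := by
    intro t
    exact mp_affine (T ^ t) _ _ (fun x => zpow_apply hm hm0 T b hT t x)
  have hech : ∀ χ : Fin D → ℤ, MemLp (ech χ) ⊤ (haarT D) := by
    intro χ
    exact MemLp.of_bound (continuous_ech χ).aestronglyMeasurable 1
      (Eventually.of_forall fun x => (norm_ech χ x).le)
  -- induction over the set of indices which are not characters
  have key : ∀ (S : Finset (Fin ℓ)), ∀ f : Fin ℓ → (Fin D → UnitAddCircle) → ℂ,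
      (∀ i, MemLp (f i) ⊤ (haarT D)) → (∀ i ∉ S, ∃ χ, f i = ech χ) →
      (∀ χ : Fin D → ℤ, Matrix.vecMul χ (u ^ ℓ) = 0 →
      IsOfFinAddOrder (dot (Matrix.vecMul χ (u ^ (ℓ - 1))) b) → fc (f j) χ = 0) →
      L2Zero (haarT D) (avg T p f) := by
    intro S
    induction S using Finset.induction_on with
    | empty =>
      intro f hf hS hj
      have h1 : ∀ i, ∃ χ, f i = ech χ := fun i => hS i (Finset.notMem_empty i)
      choose χ hχ using h1
      have h2 : f = fun i => ech (χ i) := by funext i; exact hχ i
      rw [h2]
      apply char_conv hm hm0 hℓ T b hT p hp hpp χ j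
      rintro ⟨h3, h4⟩
      have h5 := hj (χ j) h3 h4
      rw [hχ j] at h5
      unfold fc at h5
      have h6 : ∀ x, ech (χ j) x * (starRingEnd ℂ) (ech (χ j) x) = 1 := by
        intro x
        rw [Complex.mul_conj', norm_ech]
        simp
      simp only [h6] at h5
      simp at h5
    | insert a S ha ih =>
      intro f hf hS hj
      by_cases haj : a = j
      · subst haj
        apply l2zero_approx hTm f hf a
        intro ε hε
        obtain ⟨R, hR⟩ := approx (f a) ((hf a).mono_exponent le_top) ε hε
        refine ⟨_, ?_, hR, ?_⟩
        · apply Finset.aestronglyMeasurable_sum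
          intro χ _
          exact ((hech χ).1).const_smul _
        · apply l2zero_sum hTm f (fun i => (hf i).1) a R _
            (fun χ => ((hech χ).1).const_smul _)
          intro χ _
          by_cases hc : fc (f a) χ = 0
          · rw [hc, zero_smul]
            have h1 : ∀ N, avg T p (Function.update f a 0) N = 0 := by
              intro N
              funext x
              rw [avg_update]
              simp
            unfold L2Zero
            simp [h1]
          · apply l2zero_smul
            apply ih
            · intro i
              by_cases hi : i = a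
              · subst hi; rw [Function.update_self]; exact hech χ
              · rw [Function.update_of_ne hi]; exact hf i
            · intro i hi
              by_cases hia : i = a
              · subst hia; exact ⟨χ, by rw [Function.update_self]⟩
              · rw [Function.update_of_ne hia]
                exact hS i (by simp [hia, hi])
            · intro ψ h3 h4
              rw [Function.update_self]
              have hne : χ ≠ ψ := by
                intro h
                subst h
                exact hc (hj χ h3 h4)
              unfold fc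
              have h5 : ∀ x, ech χ x * (starRingEnd ℂ) (ech ψ x) = ech (χ - ψ) x := by
                intro x
                rw [← ech_neg, ← ech_add, sub_eq_add_neg]
              simp only [h5]
              rw [integral_ech, if_neg (sub_ne_zero.2 hne)]
      · apply l2zero_approx hTm f hf a
        intro ε hε
        obtain ⟨R, hR⟩ := approx (f a) ((hf a).mono_exponent le_top) ε hε
        refine ⟨_, ?_, hR, ?_⟩
        · apply Finset.aestronglyMeasurable_sum
          intro χ _
          exact ((hech χ).1).const_smul _
        · apply l2zero_sum hTm f (fun i => (hf i).1) a R _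
            (fun χ => ((hech χ).1).const_smul _)
          intro χ _
          apply l2zero_smul
          apply ih
          · intro i
            by_cases hi : i = a
            · subst hi; rw [Function.update_self]; exact hech χ
            · rw [Function.update_of_ne hi]; exact hf i
          · intro i hi
            by_cases hia : i = a
            · subst hia; exact ⟨χ, by rw [Function.update_self]⟩
            · rw [Function.update_of_ne hia]
              exact hS i (by simp [hia, hi])
          · intro ψ h3 h4
            rw [Function.update_of_ne (Ne.symm haj)]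
            exact hj ψ h3 h4
  exact key Finset.univ f hf (fun i hi => absurd (Finset.mem_univ i) hi) hj

end

end Pool.Agent.Helper973.Fou
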