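import Mathlib
import Pool.Agent.Helper973.Erg

set_option autoImplicit false

/-!
Host-Kra seminorms and lower bounds by correlations with phases.
-/

namespace Pool.Agent.Helper973.HK

open MeasureTheory Filter Topology Finset
open scoped ENNReal

/-- `hkPow μ T k f` is the power `2 ^ (k + 1)` of the Host-Kra seminorm of order `k + 1`:
`hkPow μ T 0 f` is the square of the `L²` norm of the conditional expectation of `f` on the
invariant sets, and `hkPow μ T (k + 1) f` is the limit of the averages over `h` of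
`hkPow μ T k (conj f * f ∘ T ^ h)` -/
noncomputable def hkPow {X : Type*} [MeasurableSpace X] (μ : Measure X) (T : Equiv.Perm X) :
    ℕ → (X → ℂ) → ℝ≥0∞
  | 0, f => ∫⁻ x, ‖(μ[f | MeasurableSpace.invariants T]) x‖ₑ ^ 2 ∂μ
  | k + 1, f => limsup (fun H : ℕ => (H : ℝ≥0∞)⁻¹ * ∑ h ∈ Finset.Icc 1 H,
      hkPow μ T k (fun x => (starRingEnd ℂ) (f x) * f ((T ^ h) x))) atTop

section
variable {X : Type*} [m0 : MeasurableSpace X] {μ : Measure X} [IsProbabilityMeasure μ]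
  {T : Equiv.Perm X}

/-- power mean inequality for complex numbers -/
lemma power_mean (M : ℕ) (hM : 0 < M) (a : ℕ → ℂ) (n : ℕ) (hn : 1 ≤ n) :
    ‖(M : ℂ)⁻¹ * ∑ h ∈ Finset.Icc 1 M, a h‖ₑ ^ n ≤
      (M : ℝ≥0∞)⁻¹ * ∑ h ∈ Finset.Icc 1 M, ‖a h‖ₑ ^ n := by
  have h6 : ‖(M : ℂ)⁻¹‖ₑ = (M : ENNReal)⁻¹ := by
    rw [enorm_inv (by exact_mod_cast hM.ne')]
    congr 1
    rw [← ofReal_norm, Complex.norm_natCast, ENNReal.ofReal_natCast]
  have h1 : ‖(M : ℂ)⁻¹ * ∑ h ∈ Finset.Icc 1 M, a h‖ₑ ≤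
      ∑ h ∈ Finset.Icc 1 M, (M : ℝ≥0∞)⁻¹ * ‖a h‖ₑ := by
    rw [enorm_mul, h6, ← Finset.mul_sum]
    gcongr
    exact enorm_sum_le _ _
  have h2 := ENNReal.rpow_arith_mean_le_arith_mean_rpow (Finset.Icc 1 M)
    (fun _ => (M : ℝ≥0∞)⁻¹) (fun h => ‖a h‖ₑ) (by
      rw [Finset.sum_const, Nat.card_Icc, Nat.add_sub_cancel, nsmul_eq_mul,
        ENNReal.mul_inv_cancel (by exact_mod_cast hM.ne') (ENNReal.natCast_ne_top M)])
      (p := (n : ℝ)) (by exact_mod_cast hn)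
  simp only [ENNReal.rpow_natCast] at h2
  calc _ ≤ (∑ h ∈ Finset.Icc 1 M, (M : ℝ≥0∞)⁻¹ * ‖a h‖ₑ) ^ n := by gcongr
    _ ≤ _ := h2
    _ = _ := by rw [Finset.mul_sum]

omit [IsProbabilityMeasure μ] in
lemma hkPow_succ (k : ℕ) (f : X → ℂ) : hkPow μ T (k + 1) f =
    limsup (fun H : ℕ => (H : ℝ≥0∞)⁻¹ * ∑ h ∈ Finset.Icc 1 H,
      hkPow μ T k (fun x => (starRingEnd ℂ) (f x) * f ((T ^ h) x))) atTop := rfl

/-- the inductive step -/
lemma step (hT : ∀ t : ℕ, MeasurePreserving (T ^ t : Equiv.Perm X) μ μ) (k q : ℕ) (hq : 1 ≤ q)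
    (n : ℕ) (hn : 1 ≤ n)
    (f φ : X → ℂ) (hf : MemLp f ⊤ μ) (hφ : Measurable φ) (hn1 : ∀ x, ‖φ x‖ = 1)
    (hstep : ∀ h : ℕ, ‖∫ x, ((starRingEnd ℂ) (f x) * f ((T ^ (q * h)) x)) *
      (starRingEnd ℂ) ((starRingEnd ℂ) (φ x) * φ ((T ^ (q * h)) x)) ∂μ‖ₑ ^ n ≤
      hkPow μ T k (fun x => (starRingEnd ℂ) (f x) * f ((T ^ (q * h)) x))) :
    (q : ℝ≥0∞)⁻¹ * ‖∫ x, f x * (starRingEnd ℂ) (φ x) ∂μ‖ₑ ^ (2 * n) ≤ hkPow μ T (k + 1) f := by
  set g : X → ℂ := fun x => f x * (starRingEnd ℂ) (φ x) with hg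
  have hψ : AEStronglyMeasurable (fun x => (starRingEnd ℂ) (φ x)) μ :=
    (Complex.continuous_conj.measurable.comp hφ).stronglyMeasurable.aestronglyMeasurable
  have hgm : MemLp g 2 μ := by
    have h1 : MemLp f 2 μ := hf.mono_exponent le_top
    refine h1.mono (hf.1.mul hψ) (Eventually.of_forall fun x => ?_)
    rw [hg]
    simp only
    rw [norm_mul, RCLike.norm_conj, hn1, mul_one]
  have hS : MeasurePreserving ((T ^ q : Equiv.Perm X) : X → X) μ μ := hT q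
  obtain ⟨L, hL, hL2⟩ := Erg.corr_avg μ _ hS g hgm
  have hit : ∀ (h : ℕ) (x : X), ((T ^ q : Equiv.Perm X) : X → X)^[h] x = (T ^ (q * h)) x := by
    intro h x
    rw [pow_mul, Equiv.Perm.coe_pow (T ^ q) h]
  have hcorr : ∀ h : ℕ, ∫ x, (starRingEnd ℂ) (g x) *
      g (((T ^ q : Equiv.Perm X) : X → X)^[h] x) ∂μ =
      ∫ x, ((starRingEnd ℂ) (f x) * f ((T ^ (q * h)) x)) *
      (starRingEnd ℂ) ((starRingEnd ℂ) (φ x) * φ ((T ^ (q * h)) x)) ∂μ := by
    intro h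
    apply integral_congr_ae
    apply Eventually.of_forall
    intro x
    simp only [hg, hit, map_mul, Complex.conj_conj]
    ring
  set c : ℕ → ℂ := fun h => ∫ x, (starRingEnd ℂ) (g x) *
      g (((T ^ q : Equiv.Perm X) : X → X)^[h] x) ∂μ with hc
  set F : ℕ → ℝ≥0∞ := fun H : ℕ => (H : ℝ≥0∞)⁻¹ * ∑ h ∈ Finset.Icc 1 H,
      hkPow μ T k (fun x => (starRingEnd ℂ) (f x) * f ((T ^ h) x)) with hF
  -- lower bound along multiples of q
  have hlow : ∀ M : ℕ, 0 < M → (q : ℝ≥0∞)⁻¹ * ‖(M : ℂ)⁻¹ * ∑ h ∈ Finset.Icc 1 M, c h‖ₑ ^ n ≤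
      F (q * M) := by
    intro M hM
    have h1 : ∑ h ∈ Finset.Icc 1 M, ‖c h‖ₑ ^ n ≤ ∑ h ∈ Finset.Icc 1 (q * M),
      hkPow μ T k (fun x => (starRingEnd ℂ) (f x) * f ((T ^ h) x)) := by
      calc ∑ h ∈ Finset.Icc 1 M, ‖c h‖ₑ ^ n
          ≤ ∑ h ∈ Finset.Icc 1 M,
            hkPow μ T k (fun x => (starRingEnd ℂ) (f x) * f ((T ^ (q * h)) x)) := by
            apply Finset.sum_le_sum
            intro h _
            rw [hc]
            simp only
            rw [hcorr h]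
            exact hstep h
        _ = ∑ h ∈ (Finset.Icc 1 M).image (fun h => q * h),
            hkPow μ T k (fun x => (starRingEnd ℂ) (f x) * f ((T ^ h) x)) := by
            rw [Finset.sum_image]
            intro a _ b _ hab
            exact Nat.eq_of_mul_eq_mul_left hq hab
        _ ≤ _ := by
            apply Finset.sum_le_sum_of_subset
            intro h hh
            rw [Finset.mem_image] at hh
            obtain ⟨a, ha, rfl⟩ := hh
            rw [Finset.mem_Icc] at ha ⊢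
            exact ⟨Nat.mul_pos hq ha.1, Nat.mul_le_mul_left q ha.2⟩
    calc (q : ℝ≥0∞)⁻¹ * ‖(M : ℂ)⁻¹ * ∑ h ∈ Finset.Icc 1 M, c h‖ₑ ^ n
        ≤ (q : ℝ≥0∞)⁻¹ * ((M : ℝ≥0∞)⁻¹ * ∑ h ∈ Finset.Icc 1 M, ‖c h‖ₑ ^ n) := by
          gcongr
          exact power_mean M hM c n hn
      _ = ((q * M : ℕ) : ℝ≥0∞)⁻¹ * ∑ h ∈ Finset.Icc 1 M, ‖c h‖ₑ ^ n := by
          rw [← mul_assoc, Nat.cast_mul, ENNReal.mul_inv]
          · left; exact_mod_cast (by omega : q ≠ 0)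
          · left; exact ENNReal.natCast_ne_top q
      _ ≤ F (q * M) := by
          rw [hF]
          simp only
          gcongr
  have hlim : Tendsto (fun M : ℕ => (q : ℝ≥0∞)⁻¹ *
      ‖(M : ℂ)⁻¹ * ∑ h ∈ Finset.Icc 1 M, c h‖ₑ ^ n) atTop (𝓝 ((q : ℝ≥0∞)⁻¹ * ‖L‖ₑ ^ n)) := by
    apply ENNReal.Tendsto.const_mul
    · exact ENNReal.Tendsto.pow hL.enorm
    · right
      exact ENNReal.inv_ne_top.2 (by exact_mod_cast (by omega : q ≠ 0))
  have h5 : (q : ℝ≥0∞)⁻¹ * ‖L‖ₑ ^ n ≤ hkPow μ T (k + 1) f := by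
    rw [hkPow_succ]
    rw [← hlim.limsup_eq]
    calc limsup (fun M : ℕ => (q : ℝ≥0∞)⁻¹ * ‖(M : ℂ)⁻¹ * ∑ h ∈ Finset.Icc 1 M, c h‖ₑ ^ n) atTop
        ≤ limsup (fun M : ℕ => F (q * M)) atTop := by
          refine limsup_le_limsup ?_
          filter_upwards [eventually_gt_atTop 0] with M hM
          exact hlow M hM
      _ ≤ limsup F atTop := by
          have h6 : Tendsto (fun M : ℕ => q * M) atTop atTop :=
            tendsto_id.const_mul_atTop' hq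
          have h7 : limsup (fun M : ℕ => F (q * M)) atTop =
              limsup F (Filter.map (fun M => q * M) atTop) := rfl
          rw [h7]
          exact limsup_le_limsup_of_le h6
  refine le_trans ?_ h5
  rw [pow_mul]
  gcongr
  rw [← ofReal_norm, ← ofReal_norm, ← ENNReal.ofReal_pow (norm_nonneg _)]
  exact ENNReal.ofReal_le_ofReal hL2

/-- phases of degree `k` -/
def IsPhase {X : Type*} (T : Equiv.Perm X) : ℕ → (X → ℂ) → Prop
  | 0, φ => ∀ x, φ (T x) = φ x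
  | k + 1, φ => ∀ h : ℕ, IsPhase T k (fun x => (starRingEnd ℂ) (φ x) * φ ((T ^ h) x))

omit [IsProbabilityMeasure μ] in
lemma memLp_corr (hT : ∀ t : ℕ, MeasurePreserving (T ^ t : Equiv.Perm X) μ μ) (f : X → ℂ)
    (hf : MemLp f ⊤ μ) (h : ℕ) :
    MemLp (fun x => (starRingEnd ℂ) (f x) * f ((T ^ h) x)) ⊤ μ := by
  have h1 : MemLp (fun x => (starRingEnd ℂ) (f x)) ⊤ μ := hf.star
  have h2 : MemLp (fun x => f ((T ^ h) x)) ⊤ μ := hf.comp_measurePreserving (hT h)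
  exact MemLp.mul h2 h1

lemma phase_bound (hT : ∀ t : ℕ, MeasurePreserving (T ^ t : Equiv.Perm X) μ μ) (k : ℕ) :
    ∀ (f φ : X → ℂ), MemLp f ⊤ μ → Measurable φ → (∀ x, ‖φ x‖ = 1) → IsPhase T k φ →
      ‖∫ x, f x * (starRingEnd ℂ) (φ x) ∂μ‖ₑ ^ (2 ^ (k + 1)) ≤ hkPow μ T k f := by
  induction k with
  | zero =>
    intro f φ hf hφ hn hph
    exact Erg.inv_bound μ T f φ hf hφ hn hph
  | succ k ih =>
    intro f φ hf hφ hn hph
    have h1 := step (μ := μ) hT k 1 le_rfl (2 ^ (k + 1)) Nat.one_le_two_pow f φ hf hφ hn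
      (by
        intro h
        rw [one_mul]
        apply ih
        · exact memLp_corr hT f hf h
        · exact (Complex.continuous_conj.measurable.comp hφ).mul (hφ.comp (hT h).measurable)
        · intro x
          rw [norm_mul, RCLike.norm_conj, hn, hn, mul_one]
        · exact hph h)
    rw [Nat.cast_one, inv_one, one_mul] at h1
    rw [pow_succ' 2 (k + 1)]
    exact h1

/-- version along multiples of `q` -/
lemma phase_bound_mul (hT : ∀ t : ℕ, MeasurePreserving (T ^ t : Equiv.Perm X) μ μ) (k q : ℕ)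
    (hq : 1 ≤ q) (f φ : X → ℂ) (hf : MemLp f ⊤ μ) (hφ : Measurable φ) (hn : ∀ x, ‖φ x‖ = 1)
    (hph : ∀ h : ℕ, IsPhase T k (fun x => (starRingEnd ℂ) (φ x) * φ ((T ^ (q * h)) x))) :
      (q : ℝ≥0∞)⁻¹ * ‖∫ x, f x * (starRingEnd ℂ) (φ x) ∂μ‖ₑ ^ (2 ^ (k + 2)) ≤
        hkPow μ T (k + 1) f := by
  rw [pow_succ' 2 (k + 1)]
  apply step (μ := μ) hT k q hq (2 ^ (k + 1)) Nat.one_le_two_pow f φ hf hφ hn
  intro h
  apply phase_bound hT
  · exact memLp_corr hT f hf (q * h)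
  · exact (Complex.continuous_conj.measurable.comp hφ).mul (hφ.comp (hT (q * h)).measurable)
  · intro x
    rw [norm_mul, RCLike.norm_conj, hn, hn, mul_one]
  · exact hph h

/-- if the seminorm vanishes there is no correlation with phases along multiples of `q` -/
lemma no_corr (hT : ∀ t : ℕ, MeasurePreserving (T ^ t : Equiv.Perm X) μ μ) (k q : ℕ)
    (hq : 1 ≤ q) (f φ : X → ℂ) (hf : MemLp f ⊤ μ) (hφ : Measurable φ) (hn : ∀ x, ‖φ x‖ = 1)
    (hph : ∀ h : ℕ, IsPhase T k (fun x => (starRingEnd ℂ) (φ x) * φ ((T ^ (q * h)) x)))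
    (h0 : hkPow μ T (k + 1) f = 0) :
    ∫ x, f x * (starRingEnd ℂ) (φ x) ∂μ = 0 := by
  have h1 := phase_bound_mul hT k q hq f φ hf hφ hn hph
  rw [h0] at h1
  have h2 := le_antisymm h1 zero_le
  rw [mul_eq_zero] at h2
  rcases h2 with h2 | h2
  · exact absurd (ENNReal.inv_eq_zero.1 h2) (ENNReal.natCast_ne_top q)
  · have h3 := pow_eq_zero_iff (by positivity) |>.1 h2
    exact enorm_eq_zero.1 h3

end

end Pool.Agent.Helper973.HK
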