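import Mathlib

set_option autoImplicit false

namespace Pool.Agent.Helper973.KG

noncomputable section

/-- the quadratic map of one level, with G = 1/(2 gamma) -/
def fq (G x : ℝ) : ℝ := G * (x ^ 2 - 1) + 1

def T0 (G : ℝ) (r : ℝ → ℝ) (x : ℝ) : ℝ := (r (fq G x) + r (G - 1)) / (G * x)

def T1 (G : ℝ) (r : ℝ → ℝ) (x : ℝ) : ℝ := x * r (fq G x) / (r (fq G x) + r (G - 1))

structure Cls (r : ℝ → ℝ) : Prop where
  pos : ∀ x, 1 ≤ x → 0 < r x
  le : ∀ x, 1 ≤ x → r x ≤ x
  ge : ∀ x, 1 ≤ x → x - 1 / x ≤ r x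
  mono : ∀ x y, 1 ≤ x → x ≤ y → y - x ≤ r y - r x

lemma Cls.mono' {r : ℝ → ℝ} (h : Cls r) {x y : ℝ} (hx : 1 ≤ x) (hxy : x ≤ y) : r x ≤ r y := by
  have := h.mono x y hx hxy
  linarith

lemma one_le_fq {G x : ℝ} (hG : 2 ≤ G) (hx : 1 ≤ x) : 1 ≤ fq G x := by
  unfold fq
  nlinarith [mul_nonneg (by linarith : (0:ℝ) ≤ G) (by nlinarith : (0:ℝ) ≤ x ^ 2 - 1)]

lemma fq_add (G x : ℝ) : fq G x + (G - 1) = G * x ^ 2 := by
  unfold fq; ring

lemma cls_id : Cls (fun x => x) where
  pos x hx := by linarith
  le x hx := le_refl _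
  ge x hx := by
    have : 0 < 1 / x := by positivity
    linarith
  mono x y hx hxy := le_refl _

lemma Cls.T0 {r : ℝ → ℝ} (h : Cls r) {G : ℝ} (hG : 2 ≤ G) : Cls (T0 G r) := by
  have hG0 : 0 < G := by linarith
  have hz : 1 ≤ G - 1 := by linarith
  refine ⟨?_, ?_, ?_, ?_⟩
  · intro x hx
    have hf := one_le_fq hG hx
    unfold KG.T0
    have h1 := h.pos _ hf
    have h2 := h.pos _ hz
    positivity
  · intro x hx
    have hf := one_le_fq hG hx
    have hx0 : 0 < x := by linarith
    unfold KG.T0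
    rw [div_le_iff₀ (by positivity)]
    have h1 := h.le _ hf
    have h2 := h.le _ hz
    have h3 := fq_add G x
    nlinarith
  · intro x hx
    have hf := one_le_fq hG hx
    have hx0 : 0 < x := by linarith
    unfold KG.T0
    rw [le_div_iff₀ (by positivity)]
    have h1 := h.ge _ hf
    have h2 := h.ge _ hz
    have h3 := fq_add G x
    have h4 : 1 / fq G x ≤ 1 := by
      rw [div_le_one (by linarith)]; exact hf
    have h5 : 1 / (G - 1) ≤ 1 := by
      rw [div_le_one (by linarith)]; exact hz
    have h6 : (x - 1 / x) * (G * x) = G * x ^ 2 - G := by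
      field_simp
    rw [h6]
    linarith
  · intro x y hx hxy
    have hy : 1 ≤ y := by linarith
    have hx0 : 0 < x := by linarith
    have hy0 : 0 < y := by linarith
    have hfx := one_le_fq hG hx
    have hfy := one_le_fq hG hy
    have hff : fq G x ≤ fq G y := by
      unfold fq
      have : x ^ 2 ≤ y ^ 2 := by nlinarith
      nlinarith
    have h1 := h.mono _ _ hfx hff
    have h2 := h.le _ hz
    have h3 := h.le _ hfy
    have e1 : x - KG.T0 G r x = ((fq G x - r (fq G x)) + (G - 1 - r (G - 1))) / (G * x) := by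
      unfold KG.T0
      rw [eq_div_iff (by positivity), sub_mul, div_mul_cancel₀ _ (by positivity)]
      have := fq_add G x
      nlinarith
    have e2 : y - KG.T0 G r y = ((fq G y - r (fq G y)) + (G - 1 - r (G - 1))) / (G * y) := by
      unfold KG.T0
      rw [eq_div_iff (by positivity), sub_mul, div_mul_cancel₀ _ (by positivity)]
      have := fq_add G y
      nlinarith
    have key : y - KG.T0 G r y ≤ x - KG.T0 G r x := by
      rw [e1, e2]
      apply div_le_div₀
      · linarith [h.le _ hfx]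
      · linarith
      · positivity
      · nlinarith
    linarith

lemma Cls.T1 {r : ℝ → ℝ} (h : Cls r) {G : ℝ} (hG : 2 ≤ G) : Cls (T1 G r) := by
  have hG0 : 0 < G := by linarith
  have hz : 1 ≤ G - 1 := by linarith
  have hb := h.pos _ hz
  refine ⟨?_, ?_, ?_, ?_⟩
  · intro x hx
    have hf := one_le_fq hG hx
    unfold KG.T1
    have h1 := h.pos _ hf
    have hx0 : 0 < x := by linarith
    positivity
  · intro x hx
    have hf := one_le_fq hG hx
    have h1 := h.pos _ hf
    have hx0 : 0 < x := by linarith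
    unfold KG.T1
    rw [div_le_iff₀ (by positivity)]
    nlinarith
  · intro x hx
    have hf := one_le_fq hG hx
    have h1 := h.pos _ hf
    have hx0 : 0 < x := by linarith
    have h2 := h.ge _ hf
    have h3 := h.le _ hz
    unfold KG.T1
    rw [le_div_iff₀ (by positivity)]
    have key : (x ^ 2 - 1) * r (G - 1) ≤ r (fq G x) := by
      have s0 : 0 ≤ x ^ 2 - 1 := by nlinarith
      have s1 : (x ^ 2 - 1) * r (G - 1) ≤ (x ^ 2 - 1) * G :=
        mul_le_mul_of_nonneg_left (by linarith) s0
      have s2 : 1 / fq G x ≤ 1 := by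
        rw [div_le_one (by linarith)]; exact hf
      have s3 : fq G x = G * (x ^ 2 - 1) + 1 := rfl
      linarith
    have e : (x - 1 / x) * (r (fq G x) + r (G - 1)) * x
        = (x ^ 2 - 1) * (r (fq G x) + r (G - 1)) := by
      field_simp
    have key2 : (x - 1 / x) * (r (fq G x) + r (G - 1)) * x ≤ (x * r (fq G x)) * x := by
      rw [e]; nlinarith
    exact le_of_mul_le_mul_right key2 hx0
  · intro x y hx hxy
    have hy : 1 ≤ y := by linarith
    have hx0 : 0 < x := by linarith
    have hy0 : 0 < y := by linarith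
    have hfx := one_le_fq hG hx
    have hfy := one_le_fq hG hy
    have hff : fq G x ≤ fq G y := by
      unfold fq
      have : x ^ 2 ≤ y ^ 2 := by nlinarith
      nlinarith
    have h1 := h.mono _ _ hfx hff
    have h2 := h.le _ hz
    have h3 := h.le _ hfx
    have p1 := h.pos _ hfx
    have p2 := h.pos _ hfy
    have e1 : x - KG.T1 G r x = (x * r (G - 1)) / (r (fq G x) + r (G - 1)) := by
      unfold KG.T1
      rw [eq_div_iff (by positivity), sub_mul, div_mul_cancel₀ _ (by positivity)]
      ring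
    have e2 : y - KG.T1 G r y = (y * r (G - 1)) / (r (fq G y) + r (G - 1)) := by
      unfold KG.T1
      rw [eq_div_iff (by positivity), sub_mul, div_mul_cancel₀ _ (by positivity)]
      ring
    have key : y - KG.T1 G r y ≤ x - KG.T1 G r x := by
      rw [e1, e2, div_le_div_iff₀ (by positivity) (by positivity)]
      have s1 : fq G y - fq G x = G * (y ^ 2 - x ^ 2) := by unfold fq; ring
      have s2 := fq_add G x
      have s3 : y * (r (fq G x) + r (G - 1)) ≤ x * (r (fq G y) + r (G - 1)) := by
        have t1 : r (fq G x) + r (G - 1) ≤ G * x ^ 2 := by linarith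
        have t2 : 0 ≤ (y - x) * (G * x * (x + y) - (r (fq G x) + r (G - 1))) := by
          apply mul_nonneg (by linarith)
          have : G * x ^ 2 ≤ G * x * (x + y) := by
            have : G * x * (x + y) - G * x ^ 2 = G * x * y := by ring
            have : 0 ≤ G * x * y := by positivity
            linarith
          linarith
        have t3 : x * (r (fq G y) - r (fq G x)) ≥ x * (G * (y ^ 2 - x ^ 2)) := by
          apply mul_le_mul_of_nonneg_left _ hx0.le
          linarith
        nlinarith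
      nlinarith
    linarith

/-- ratio functions -/
def rr (G : ℕ → ℝ) (k n : ℕ) : ℝ → ℝ :=
  if n = 0 then fun x => x
  else if n % 2 = 0 then T0 (G k) (rr G (k + 1) (n / 2)) else T1 (G k) (rr G (k + 1) (n / 2))
termination_by n
decreasing_by all_goals omega

lemma rr_zero (G : ℕ → ℝ) (k : ℕ) : rr G k 0 = fun x => x := by
  rw [rr]; simp

lemma rr_odd (G : ℕ → ℝ) (k n : ℕ) : rr G k (2 * n + 1) = T1 (G k) (rr G (k + 1) n) := by
  rw [rr]
  have h1 : (2 * n + 1) % 2 = 1 := by omega
  have h2 : (2 * n + 1) / 2 = n := by omega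
  simp [h1, h2]

lemma rr_even (G : ℕ → ℝ) (hG : ∀ k, 2 < G k) (k n : ℕ) :
    rr G k (2 * n) = T0 (G k) (rr G (k + 1) n) := by
  rcases Nat.eq_zero_or_pos n with rfl | hn
  · rw [mul_zero, rr_zero, rr_zero]
    funext x
    unfold T0
    rw [fq_add]
    have := hG k
    rcases eq_or_ne x 0 with rfl | hx
    · simp
    · have hG0 : G k ≠ 0 := by linarith
      field_simp
  · have h1 : (2 * n) % 2 = 0 := by omega
    have h2 : (2 * n) / 2 = n := by omega
    have h3 : 2 * n ≠ 0 := by omega
    rw [rr, if_neg h3, if_pos h1, h2]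

lemma cls_rr (G : ℕ → ℝ) (hG : ∀ k, 2 < G k) (n : ℕ) : ∀ k, Cls (rr G k n) := by
  induction n using Nat.strong_induction_on with
  | _ n ih =>
    intro k
    rcases Nat.even_or_odd' n with ⟨m, rfl | rfl⟩
    · rcases Nat.eq_zero_or_pos m with rfl | hm
      · rw [rr_zero]; exact cls_id
      · rw [rr_even G hG]
        exact (ih m (by omega) (k + 1)).T0 (hG k).le
    · rw [rr_odd]
      exact (ih m (by omega) (k + 1)).T1 (hG k).le

lemma rr_lt (G : ℕ → ℝ) (hG : ∀ k, 2 < G k) (n : ℕ) :
    ∀ k, 0 < n → ∀ x, 1 ≤ x → rr G k n x < x := by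
  induction n using Nat.strong_induction_on with
  | _ n ih =>
    intro k hn x hx
    have hz : 1 ≤ G k - 1 := by linarith [hG k]
    have hf := one_le_fq (hG k).le hx
    have hx0 : 0 < x := by linarith
    have hG0 : 0 < G k := by linarith [hG k]
    rcases Nat.even_or_odd' n with ⟨m, rfl | rfl⟩
    · rw [rr_even G hG]
      have h1 := ih m (by omega) (k + 1) (by omega) _ hf
      have h2 := ih m (by omega) (k + 1) (by omega) _ hz
      unfold T0
      rw [div_lt_iff₀ (by positivity)]
      have := fq_add (G k) x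
      nlinarith
    · rw [rr_odd]
      have h1 := (cls_rr G hG m (k + 1)).pos _ hf
      have h2 := (cls_rr G hG m (k + 1)).pos _ hz
      unfold T1
      rw [div_lt_iff₀ (by positivity)]
      nlinarith

/-- squared off diagonal Jacobi coefficients -/
def RR (G : ℕ → ℝ) (k n : ℕ) : ℝ :=
  if n % 2 = 1 then rr G (k + 1) (n / 2) (G k - 1) / G k
  else (G k - 1 - rr G (k + 1) (n / 2) (G k - 1)) / G k

lemma RR_odd (G : ℕ → ℝ) (k n : ℕ) : RR G k (2 * n + 1) = rr G (k + 1) n (G k - 1) / G k := by
  unfold RR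
  have h1 : (2 * n + 1) % 2 = 1 := by omega
  have h2 : (2 * n + 1) / 2 = n := by omega
  simp [h1, h2]

lemma RR_even (G : ℕ → ℝ) (k n : ℕ) :
    RR G k (2 * n) = (G k - 1 - rr G (k + 1) n (G k - 1)) / G k := by
  unfold RR
  have h1 : (2 * n) % 2 = 0 := by omega
  have h2 : (2 * n) / 2 = n := by omega
  simp

lemma RR_zero (G : ℕ → ℝ) (k : ℕ) : RR G k 0 = 0 := by
  have := RR_even G k 0
  simp only [mul_zero] at this
  rw [this, rr_zero]
  simp

lemma rr_mul (G : ℕ → ℝ) (hG : ∀ k, 2 < G k) (n : ℕ) :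
    ∀ k x, 1 ≤ x → rr G k n x * (x - rr G k (n + 1) x) = RR G k (n + 1) := by
  induction n using Nat.strong_induction_on with
  | _ n ih =>
    intro k x hx
    have hz : 1 ≤ G k - 1 := by linarith [hG k]
    have hf := one_le_fq (hG k).le hx
    have hx0 : 0 < x := by linarith
    have hG0 : 0 < G k := by linarith [hG k]
    have hfa := fq_add (G k) x
    rcases Nat.even_or_odd' n with ⟨m, rfl | rfl⟩
    · rw [rr_even G hG, rr_odd, RR_odd]
      have p1 := (cls_rr G hG m (k + 1)).pos _ hf
      have p2 := (cls_rr G hG m (k + 1)).pos _ hz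
      unfold T0 T1
      field_simp
      ring
    · have e : 2 * m + 1 + 1 = 2 * (m + 1) := by ring
      rw [e, rr_even G hG, rr_odd, RR_even]
      have p1 := (cls_rr G hG m (k + 1)).pos _ hf
      have p2 := (cls_rr G hG m (k + 1)).pos _ hz
      have i1 := ih m (by omega) (k + 1) _ hf
      have i2 := ih m (by omega) (k + 1) _ hz
      unfold T0 T1
      set a := rr G (k + 1) m (fq (G k) x)
      set b := rr G (k + 1) m (G k - 1)
      set a' := rr G (k + 1) (m + 1) (fq (G k) x)
      set b' := rr G (k + 1) (m + 1) (G k - 1)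
      have i3 : a * (fq (G k) x - a') = b * (G k - 1 - b') := by rw [i1, i2]
      have e1 : x - (a' + b') / (G k * x) = ((fq (G k) x - a') + (G k - 1 - b')) / (G k * x) := by
        rw [eq_div_iff (by positivity), sub_mul, div_mul_cancel₀ _ (by positivity)]
        nlinarith
      rw [e1, div_mul_div_comm, div_eq_div_iff (by positivity) (by positivity)]
      have e2 : a * ((fq (G k) x - a') + (G k - 1 - b')) = (a + b) * (G k - 1 - b') := by
        linear_combination i3
      linear_combination (x * G k) * e2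

lemma RR_pos (G : ℕ → ℝ) (hG : ∀ k, 2 < G k) (k n : ℕ) : 0 < RR G k (n + 1) := by
  rw [← rr_mul G hG n k 1 le_rfl]
  have h1 := (cls_rr G hG n k).pos 1 le_rfl
  have h2 := rr_lt G hG (n + 1) k (by omega) 1 le_rfl
  exact mul_pos h1 (by linarith)

lemma RR_add (G : ℕ → ℝ) (k n : ℕ) :
    RR G k (2 * n) + RR G k (2 * n + 1) = (G k - 1) / G k := by
  rw [RR_even, RR_odd]; ring

lemma RR_mul (G : ℕ → ℝ) (hG : ∀ k, 2 < G k) (k n : ℕ) :
    RR G k (2 * n + 1) * RR G k (2 * n + 2) = RR G (k + 1) (n + 1) / (G k) ^ 2 := by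
  have e : 2 * n + 2 = 2 * (n + 1) := by ring
  rw [e, RR_even, RR_odd]
  have hz : 1 ≤ G k - 1 := by linarith [hG k]
  have := rr_mul G hG n (k + 1) _ hz
  rw [← this]
  have hG0 : G k ≠ 0 := by linarith [hG k]
  field_simp

end

end Pool.Agent.Helper973.KG
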