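import Mathlib
import Pool.Agent.Helper973.KGa

set_option autoImplicit false

namespace Pool.Agent.Helper973.KG

noncomputable section

def Up (ρ κ : ℝ) (r : ℝ → ℝ) : Prop := ∀ x, 1 ≤ x → r x ≤ ρ + κ * √(x ^ 2 - 1)

lemma Up.weaken {ρ κ ρ' κ' : ℝ} {r : ℝ → ℝ} (h : Up ρ κ r) (h1 : ρ ≤ ρ') (h2 : κ ≤ κ') :
    Up ρ' κ' r := by
  intro x hx
  have := h x hx
  have := mul_le_mul_of_nonneg_right h2 (Real.sqrt_nonneg (x ^ 2 - 1))
  linarith

lemma sqrt_fq {G x : ℝ} (hG : 2 ≤ G) (hx : 1 ≤ x) :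
    √((fq G x) ^ 2 - 1) ≤ G * x * √(x ^ 2 - 1) := by
  have hy : 0 ≤ x ^ 2 - 1 := by nlinarith
  have hGx : 0 ≤ G * x := by positivity
  rw [← Real.sqrt_sq hGx, ← Real.sqrt_mul (by positivity)]
  apply Real.sqrt_le_sqrt
  unfold fq
  have e : (G * x) ^ 2 * (x ^ 2 - 1) - ((G * (x ^ 2 - 1) + 1) ^ 2 - 1)
      = G * (G - 2) * (x ^ 2 - 1) := by ring
  have : 0 ≤ G * (G - 2) * (x ^ 2 - 1) := by
    apply mul_nonneg _ hy
    apply mul_nonneg (by linarith) (by linarith)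
  linarith

lemma Up.T0 {ρ κ q G : ℝ} {r : ℝ → ℝ} (h : Up ρ κ r) (hG : 2 ≤ G) (hκ : 0 ≤ κ)
    (hq : r (G - 1) ≤ q) (hρq : 0 ≤ ρ + q) : Up ((ρ + q) / 2) κ (T0 G r) := by
  intro x hx
  have hf := one_le_fq hG hx
  have h1 := h _ hf
  have h2 := mul_le_mul_of_nonneg_left (sqrt_fq hG hx) hκ
  have hx0 : 0 < x := by linarith
  have hGx : 2 ≤ G * x := by nlinarith
  unfold KG.T0
  rw [div_le_iff₀ (by positivity)]
  have h3 : (ρ + q) / 2 * 2 ≤ (ρ + q) / 2 * (G * x) :=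
    mul_le_mul_of_nonneg_left hGx (by linarith)
  nlinarith

lemma sub_one_le_sqrt {x : ℝ} (hx : 1 ≤ x) : x - 1 ≤ √(x ^ 2 - 1) := by
  apply Real.le_sqrt_of_sq_le
  nlinarith

lemma le_two_sqrt {x : ℝ} (h : 4 / 3 ≤ x ^ 2) : x ≤ 2 * √(x ^ 2 - 1) := by
  have : x / 2 ≤ √(x ^ 2 - 1) := by
    apply Real.le_sqrt_of_sq_le
    nlinarith
  linarith

lemma Up.T1 {ρ κ b K G : ℝ} {r : ℝ → ℝ} (hr : Cls r) (h : Up ρ κ r) (hG : 2 ≤ G) (hκ : 0 ≤ κ)
    (hρ : 0 ≤ ρ) (hb0 : 0 < b) (hb : b ≤ r (G - 1)) (hK2 : 2 ≤ K)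
    (hK : ρ / b + 4 / 3 * G * κ / b ≤ K) : Up (ρ / b) K (T1 G r) := by
  intro x hx
  have hf := one_le_fq hG hx
  have hx0 : 0 < x := by linarith
  have hρb : 0 ≤ ρ / b := by positivity
  have hs := Real.sqrt_nonneg (x ^ 2 - 1)
  by_cases hx2 : x ^ 2 ≤ 4 / 3
  · have h1 := h _ hf
    have h2 := mul_le_mul_of_nonneg_left (sqrt_fq hG hx) hκ
    have ha := hr.pos _ hf
    have hT : KG.T1 G r x ≤ x * r (fq G x) / b := by
      unfold KG.T1
      apply div_le_div_of_nonneg_left (by positivity) hb0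
      linarith
    have h3 : x * r (fq G x) / b ≤ x * (ρ + κ * (G * x * √(x ^ 2 - 1))) / b := by
      apply div_le_div_of_nonneg_right _ hb0.le
      apply mul_le_mul_of_nonneg_left _ hx0.le
      linarith
    have h4 : x * (ρ + κ * (G * x * √(x ^ 2 - 1))) / b
        = x * (ρ / b) + x ^ 2 * (G * κ / b) * √(x ^ 2 - 1) := by
      field_simp
    have h5 : x * (ρ / b) ≤ (1 + √(x ^ 2 - 1)) * (ρ / b) :=
      mul_le_mul_of_nonneg_right (by linarith [sub_one_le_sqrt hx]) hρb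
    have hGκ : 0 ≤ G * κ / b := by positivity
    have h6 : x ^ 2 * (G * κ / b) * √(x ^ 2 - 1) ≤ 4 / 3 * (G * κ / b) * √(x ^ 2 - 1) := by
      apply mul_le_mul_of_nonneg_right _ hs
      exact mul_le_mul_of_nonneg_right hx2 hGκ
    have h7 : (ρ / b + 4 / 3 * G * κ / b) * √(x ^ 2 - 1) ≤ K * √(x ^ 2 - 1) :=
      mul_le_mul_of_nonneg_right hK hs
    have h8 : 4 / 3 * G * κ / b = 4 / 3 * (G * κ / b) := by ring
    rw [h8] at h7
    nlinarith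
  · have h1 := (hr.T1 hG).le x hx
    have h2 := le_two_sqrt (not_le.mp hx2).le
    have h3 : 2 * √(x ^ 2 - 1) ≤ K * √(x ^ 2 - 1) := mul_le_mul_of_nonneg_right hK2 hs
    linarith

lemma Up.triv {G : ℝ} {r : ℝ → ℝ} (hr : Cls r) (hG : 3 ≤ G) : Up (2 / G) 1 (KG.T1 G r) := by
  intro x hx
  have hG2 : 2 ≤ G := by linarith
  have hf := one_le_fq hG2 hx
  have hx0 : 0 < x := by linarith
  have ha := hr.pos _ hf
  have hal := hr.le _ hf
  have hz : 1 ≤ G - 1 := by linarith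
  have hb := hr.ge _ hz
  have hb2 : G - 3 / 2 ≤ r (G - 1) := by
    have : 1 / (G - 1) ≤ 1 / 2 := by
      apply one_div_le_one_div_of_le <;> linarith
    linarith
  have hs := Real.sqrt_nonneg (x ^ 2 - 1)
  have hs2 : √(x ^ 2 - 1) ^ 2 = x ^ 2 - 1 := Real.sq_sqrt (by nlinarith)
  have hsx : √(x ^ 2 - 1) ≤ x := by
    apply Real.sqrt_le_iff.2
    constructor
    · linarith
    · linarith
  set s := √(x ^ 2 - 1) with hsdef
  have hfa := fq_add G x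
  have hfd : fq G x = G * s ^ 2 + 1 := by unfold fq; rw [hs2]
  unfold KG.T1
  -- monotone in a, antitone in b
  have step1 : x * r (fq G x) / (r (fq G x) + r (G - 1)) ≤ x * fq G x / (fq G x + (G - 3 / 2)) := by
    rw [div_le_div_iff₀ (by linarith) (by linarith)]
    have : r (fq G x) * (fq G x + (G - 3 / 2)) ≤ fq G x * (r (fq G x) + r (G - 1)) := by
      nlinarith
    nlinarith
  refine step1.trans ?_
  rw [div_le_iff₀ (by linarith)]
  have hx2 : x ^ 2 = 1 + s ^ 2 := by linarith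
  have hG1 : 1 / G ≤ 1 / 3 := by
    apply one_div_le_one_div_of_le <;> linarith
  have hGG : 2 / G * G = 2 := by field_simp
  have e1 : fq G x + (G - 3 / 2) = G * x ^ 2 - 1 / 2 := by linarith
  rw [e1, hfd]
  -- x (G s^2 + 1) ≤ (2/G + s) (G x^2 - 1/2)
  have e2 : (2 / G + 1 * s) * (G * x ^ 2 - 1 / 2)
      = 2 * x ^ 2 + G * s * x ^ 2 - 1 / G - s / 2 := by
    field_simp
    ring
  rw [e2]
  have k1 : (x - s) * (x + s) = 1 := by linarith
  have k2 : 1 ≤ 2 * (x * (x - s)) := by nlinarith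
  have k3 : 0 ≤ G * s := by positivity
  nlinarith [mul_le_mul_of_nonneg_left k2 k3]

lemma low_iter {r : ℝ → ℝ} (hr : Cls r) {g : ℝ} (hg : 2 ≤ g) (h : ℕ) :
    Cls ((T0 g)^[h] r) ∧ ∀ x, 1 ≤ x → (2 / g) ^ h * (√(x ^ 2 - 1) *
      √(4 ^ h * (x ^ 2 - 1) / (1 + 4 ^ h * (x ^ 2 - 1)))) ≤ (T0 g)^[h] r x := by
  induction h with
  | zero =>
    refine ⟨hr, fun x hx => ?_⟩
    have h1 := hr.ge x hx
    have hx0 : 0 < x := by linarith
    have hy : 0 ≤ x ^ 2 - 1 := by nlinarith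
    simp only [pow_zero, one_mul, Function.iterate_zero, id_eq]
    rw [← Real.sqrt_mul hy]
    have e : (x ^ 2 - 1) * ((x ^ 2 - 1) / (1 + (x ^ 2 - 1))) = ((x ^ 2 - 1) / x) ^ 2 := by
      rw [div_pow]
      have : 1 + (x ^ 2 - 1) = x ^ 2 := by ring
      rw [this]; ring
    rw [e, Real.sqrt_sq (by positivity)]
    have e2 : (x ^ 2 - 1) / x = x - 1 / x := by field_simp
    rw [e2]; exact h1
  | succ h ih =>
    obtain ⟨hc, hl⟩ := ih
    refine ⟨?_, fun x hx => ?_⟩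
    · rw [Function.iterate_succ']
      exact hc.T0 hg
    rw [Function.iterate_succ']
    simp only [Function.comp]
    set s := (T0 g)^[h] r
    have hx0 : 0 < x := by linarith
    have hy : 0 ≤ x ^ 2 - 1 := by nlinarith
    have hX : 1 ≤ 2 * x ^ 2 - 1 := by nlinarith
    have hXf : 2 * x ^ 2 - 1 ≤ fq g x := by unfold fq; nlinarith
    have h1 := hl _ hX
    have h2 := hc.mono' hX hXf
    have h3 := hc.pos (g - 1) (by linarith)
    unfold KG.T0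
    rw [le_div_iff₀ (by positivity)]
    have e1 : (2 * x ^ 2 - 1) ^ 2 - 1 = (2 * x) ^ 2 * (x ^ 2 - 1) := by ring
    have e2 : √((2 * x ^ 2 - 1) ^ 2 - 1) = 2 * x * √(x ^ 2 - 1) := by
      rw [e1, Real.sqrt_mul (by positivity), Real.sqrt_sq (by positivity)]
    have e3 : √(4 ^ (h + 1) * (x ^ 2 - 1) / (1 + 4 ^ (h + 1) * (x ^ 2 - 1)))
        ≤ √(4 ^ h * ((2 * x ^ 2 - 1) ^ 2 - 1) / (1 + 4 ^ h * ((2 * x ^ 2 - 1) ^ 2 - 1))) := by
      apply Real.sqrt_le_sqrt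
      have h4 : (0:ℝ) < 4 ^ h := by positivity
      have h5 : 4 ^ (h + 1) * (x ^ 2 - 1) ≤ 4 ^ h * ((2 * x ^ 2 - 1) ^ 2 - 1) := by
        rw [e1, pow_succ]
        have : 4 ^ h * ((2 * x) ^ 2 * (x ^ 2 - 1)) - 4 ^ h * 4 * (x ^ 2 - 1)
            = 4 ^ h * 4 * (x ^ 2 - 1) ^ 2 := by ring
        have : 0 ≤ (4:ℝ) ^ h * 4 * (x ^ 2 - 1) ^ 2 := by positivity
        linarith
      have h6 : 0 ≤ 4 ^ (h + 1) * (x ^ 2 - 1) := by positivity
      rw [div_le_div_iff₀ (by linarith) (by linarith)]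
      nlinarith
    have e4 : (2 / g) ^ (h + 1) * (√(x ^ 2 - 1) *
        √(4 ^ (h + 1) * (x ^ 2 - 1) / (1 + 4 ^ (h + 1) * (x ^ 2 - 1)))) * (g * x)
        = (2 / g) ^ h * ((2 * x * √(x ^ 2 - 1)) *
        √(4 ^ (h + 1) * (x ^ 2 - 1) / (1 + 4 ^ (h + 1) * (x ^ 2 - 1)))) := by
      rw [pow_succ]
      have : g ≠ 0 := by linarith
      field_simp
    rw [e4]
    rw [e2] at h1
    have h7 : (2 / g) ^ h * ((2 * x * √(x ^ 2 - 1)) *
        √(4 ^ (h + 1) * (x ^ 2 - 1) / (1 + 4 ^ (h + 1) * (x ^ 2 - 1))))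
        ≤ (2 / g) ^ h * ((2 * x * √(x ^ 2 - 1)) *
        √(4 ^ h * ((2 * x ^ 2 - 1) ^ 2 - 1) / (1 + 4 ^ h * ((2 * x ^ 2 - 1) ^ 2 - 1)))) := by
      apply mul_le_mul_of_nonneg_left _ (by positivity)
      apply mul_le_mul_of_nonneg_left e3 (by positivity)
    linarith

end

end Pool.Agent.Helper973.KG
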