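import Mathlib
import Pool.Agent.Helper973.KGb

set_option autoImplicit false

namespace Pool.Agent.Helper973.KG

noncomputable section

structure Par (G Gc GT : ℝ) (L : ℕ) : Prop where
  hG : 64 ≤ G
  hGc : 2 < Gc
  hGT : 2 < GT
  hGT' : GT ≤ 21 / 10
  hpow : (2:ℝ) ^ L = G ^ 2 / 2
  hc : 999 / 1000 ≤ (2 / Gc) ^ L
  hsC : ((L:ℝ) + 2) * √((Gc - 1) ^ 2 - 1) ≤ 1 / (200 * G ^ 3)
  hσ1 : (7 / 10) / G ≤ √((GT - 1) ^ 2 - 1)
  hσ2 : √((GT - 1) ^ 2 - 1) ≤ (71 / 100) / G

lemma iter_cls {r : ℝ → ℝ} (hr : Cls r) {g : ℝ} (hg : 2 ≤ g) (h : ℕ) :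
    Cls ((T0 g)^[h] r) := (low_iter hr hg h).1

lemma runA {r : ℝ → ℝ} {g ρ κ : ℝ} (hg : 2 ≤ g) (hκ : 0 ≤ κ) (hρ : 0 ≤ ρ) (h : Up ρ κ r)
    (n : ℕ) : Up (ρ + n * (κ * √((g - 1) ^ 2 - 1) / 2)) κ ((T0 g)^[n] r) := by
  induction n with
  | zero => simpa using h
  | succ n ih =>
    rw [Function.iterate_succ']
    simp only [Function.comp]
    have hs := Real.sqrt_nonneg ((g - 1) ^ 2 - 1)
    have h1 := ih (g - 1) (by linarith)
    have hn : (0:ℝ) ≤ n := Nat.cast_nonneg n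
    have h2 : 0 ≤ (n:ℝ) * (κ * √((g - 1) ^ 2 - 1) / 2) := by positivity
    have h3 : 0 ≤ κ * √((g - 1) ^ 2 - 1) := by positivity
    have := Up.T0 ih hg hκ h1 (by linarith)
    refine this.weaken ?_ le_rfl
    push_cast
    linarith

lemma runB {r : ℝ → ℝ} {g ρ κ v : ℝ} (hg : 2 ≤ g) (hκ : 0 ≤ κ) (hρ : 0 ≤ ρ) (hv : 0 ≤ v)
    (h : Up ρ κ r) (h' : Up v 1 r) (L : ℕ) (n : ℕ) (hn : n ≤ L) :
    Up ((ρ + (L + 2) * (κ * √((g - 1) ^ 2 - 1) / 2)) + v / 2 ^ n) 1 ((T0 g)^[n] r) := by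
  have hs := Real.sqrt_nonneg ((g - 1) ^ 2 - 1)
  have hL : (0:ℝ) ≤ L := Nat.cast_nonneg L
  have hP : 0 ≤ ρ + (L + 2) * (κ * √((g - 1) ^ 2 - 1) / 2) := by positivity
  induction n with
  | zero =>
    simp only [pow_zero, div_one, Function.iterate_zero, id_eq]
    exact h'.weaken (by linarith) le_rfl
  | succ n ih =>
    rw [Function.iterate_succ']
    simp only [Function.comp]
    have hA := runA hg hκ hρ h n (g - 1) (by linarith)
    have hnL : (n:ℝ) ≤ L := by exact_mod_cast (by omega : n ≤ L)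
    have hq : (T0 g)^[n] r (g - 1) ≤ ρ + (L + 2) * (κ * √((g - 1) ^ 2 - 1) / 2) := by
      have h3 : 0 ≤ κ * √((g - 1) ^ 2 - 1) / 2 := by positivity
      have := mul_le_mul_of_nonneg_right hnL h3
      linarith
    have hvn : 0 ≤ v / 2 ^ n := by positivity
    have := Up.T0 (ih (by omega)) hg zero_le_one hq (by linarith)
    refine this.weaken ?_ le_rfl
    have : v / 2 ^ (n + 1) = v / 2 ^ n / 2 := by rw [div_div, ← pow_succ]
    rw [this]
    linarith

lemma runN {r : ℝ → ℝ} {g v : ℝ} (hr : Cls r) (hg : 2 ≤ g) (hv : 0 ≤ v)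
    (h' : Up v 1 r) (n : ℕ) :
    ∃ p, 0 ≤ p ∧ p ≤ (g / 2) ^ n * ((T0 g)^[n] r 1) ∧ Up (p + v / 2 ^ n) 1 ((T0 g)^[n] r) := by
  induction n with
  | zero =>
    refine ⟨0, le_rfl, ?_, ?_⟩
    · simpa using (hr.pos 1 le_rfl).le
    · simpa using h'
  | succ n ih =>
    obtain ⟨p, hp0, hp1, hp2⟩ := ih
    have hc := iter_cls hr hg n
    have hz := hc.pos (g - 1) (by linarith)
    have h1 := hc.pos 1 le_rfl
    refine ⟨(p + (T0 g)^[n] r (g - 1)) / 2, by positivity, ?_, ?_⟩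
    · rw [Function.iterate_succ']
      simp only [Function.comp]
      have e : T0 g ((T0 g)^[n] r) 1 = ((T0 g)^[n] r 1 + (T0 g)^[n] r (g - 1)) / g := by
        have : fq g 1 = 1 := by unfold fq; ring
        show ((T0 g)^[n] r (fq g 1) + (T0 g)^[n] r (g - 1)) / (g * 1) = _
        rw [this, mul_one]
      rw [e, pow_succ]
      have hg0 : g ≠ 0 := by linarith
      have e2 : (g / 2) ^ n * (g / 2) * (((T0 g)^[n] r 1 + (T0 g)^[n] r (g - 1)) / g)
          = ((g / 2) ^ n * (T0 g)^[n] r 1 + (g / 2) ^ n * (T0 g)^[n] r (g - 1)) / 2 := by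
        field_simp
      rw [e2]
      have h3 : 1 ≤ (g / 2) ^ n := one_le_pow₀ (by linarith)
      have h4 : (T0 g)^[n] r (g - 1) ≤ (g / 2) ^ n * (T0 g)^[n] r (g - 1) := by
        nlinarith
      linarith
    · rw [Function.iterate_succ']
      simp only [Function.comp]
      have hvn : 0 ≤ v / 2 ^ n := by positivity
      have := Up.T0 hp2 hg zero_le_one le_rfl (by linarith)
      refine this.weaken ?_ le_rfl
      have : v / 2 ^ (n + 1) = v / 2 ^ n / 2 := by rw [div_div, ← pow_succ]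
      rw [this]
      linarith

lemma run_one {r : ℝ → ℝ} {g : ℝ} (hr : Cls r) (hg : 2 ≤ g) (n : ℕ) :
    (2 / g) ^ n * r 1 ≤ (T0 g)^[n] r 1 := by
  induction n with
  | zero => simp
  | succ n ih =>
    rw [Function.iterate_succ']
    simp only [Function.comp]
    have hc := iter_cls hr hg n
    have e : T0 g ((T0 g)^[n] r) 1 = ((T0 g)^[n] r 1 + (T0 g)^[n] r (g - 1)) / g := by
      have : fq g 1 = 1 := by unfold fq; ring
      show ((T0 g)^[n] r (fq g 1) + (T0 g)^[n] r (g - 1)) / (g * 1) = _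
      rw [this, mul_one]
    rw [e, pow_succ, le_div_iff₀ (by linarith)]
    have hm := hc.mono' le_rfl (by linarith : (1:ℝ) ≤ g - 1)
    have hg0 : g ≠ 0 := by linarith
    have e2 : (2 / g) ^ n * (2 / g) * r 1 * g = 2 * ((2 / g) ^ n * r 1) := by
      field_simp
    rw [e2]
    linarith

lemma Par.gpos {G Gc GT : ℝ} {L : ℕ} (P : Par G Gc GT L) : 0 < G := by linarith [P.hG]

lemma Par.sc0 {G Gc GT : ℝ} {L : ℕ} (P : Par G Gc GT L) :
    ((L:ℝ) + 2) * √((Gc - 1) ^ 2 - 1) ≤ (1 / 12800) / G ^ 2 := by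
  refine P.hsC.trans ?_
  have hG := P.gpos
  have := P.hG
  rw [div_le_div_iff₀ (by positivity) (by positivity)]
  have : G ^ 2 * 64 ≤ G ^ 2 * G := mul_le_mul_of_nonneg_left this (by positivity)
  nlinarith

lemma Par.beta {G Gc GT : ℝ} {L : ℕ} (P : Par G Gc GT L) {r : ℝ → ℝ} (hr : Cls r) :
    (69 / 100) / G ≤ (T0 Gc)^[L] r (GT - 1) := by
  have hG := P.gpos
  have hG64 := P.hG
  have h1 := (low_iter hr P.hGc.le L).2 (GT - 1) (by linarith [P.hGT])
  refine le_trans ?_ h1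
  have hy : 0 ≤ (GT - 1) ^ 2 - 1 := by nlinarith [P.hGT]
  have hs1 := P.hσ1
  set y := (GT - 1) ^ 2 - 1 with hydef
  have hyl : (49 / 100) / G ^ 2 ≤ y := by
    have h2 : ((7 / 10) / G) ^ 2 ≤ (√y) ^ 2 := pow_le_pow_left₀ (by positivity) hs1 2
    rw [Real.sq_sqrt hy, div_pow] at h2
    norm_num at h2 ⊢
    exact h2
  have h4 : (4:ℝ) ^ L = G ^ 4 / 4 := by
    have : (4:ℝ) ^ L = ((2:ℝ) ^ L) ^ 2 := by
      rw [← pow_mul, mul_comm, pow_mul]; norm_num
    rw [this, P.hpow]; ring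
  have h5 : 500 ≤ (4:ℝ) ^ L * y := by
    rw [h4]
    have : G ^ 4 / 4 * ((49 / 100) / G ^ 2) ≤ G ^ 4 / 4 * y :=
      mul_le_mul_of_nonneg_left hyl (by positivity)
    have e : G ^ 4 / 4 * ((49 / 100) / G ^ 2) = (49 / 400) * G ^ 2 := by
      field_simp
      ring
    nlinarith
  have h6 : (998 / 1000) ≤ √((4:ℝ) ^ L * y / (1 + (4:ℝ) ^ L * y)) := by
    apply Real.le_sqrt_of_sq_le
    rw [le_div_iff₀ (by linarith)]
    nlinarith
  have h7 : (7 / 10) / G * (998 / 1000) ≤ √y * √((4:ℝ) ^ L * y / (1 + (4:ℝ) ^ L * y)) :=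
    mul_le_mul hs1 h6 (by norm_num) (Real.sqrt_nonneg _)
  have h8 : 999 / 1000 * ((7 / 10) / G * (998 / 1000)) ≤
      (2 / Gc) ^ L * (√y * √((4:ℝ) ^ L * y / (1 + (4:ℝ) ^ L * y))) :=
    mul_le_mul P.hc h7 (by positivity) (by have := P.hGc; positivity)
  refine le_trans ?_ h8
  have e : 999 / 1000 * ((7 / 10) / G * (998 / 1000)) = (999 / 1000 * (7 / 10) * (998 / 1000)) / G := by
    ring
  rw [e]
  apply div_le_div_of_nonneg_right _ hG.le
  norm_num

lemma special_step {G Gc GT : ℝ} {L : ℕ} (P : Par G Gc GT L) {r : ℝ → ℝ} (hr : Cls r)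
    (h : Up (4 / (2 * G)) (8 * (2 * G)) r) :
    Up (4 / G) (8 * G) (T1 GT ((T0 Gc)^[L] (T1 G r))) := by
  have hG := P.gpos
  have hG64 := P.hG
  have hG2 : 2 ≤ G := by linarith
  have hb : G - 3 / 2 ≤ r (G - 1) := by
    have h1 := hr.ge (G - 1) (by linarith)
    have : 1 / (G - 1) ≤ 1 / 2 := by
      apply one_div_le_one_div_of_le <;> linarith
    linarith
  have hb0 : 0 < G - 3 / 2 := by linarith
  have h1 : Up (4 / (2 * G) / (G - 3 / 2)) (32 * G) (T1 G r) := by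
    apply Up.T1 hr h hG2 (by positivity) (by positivity) hb0 hb (by linarith)
    rw [← add_div, div_le_iff₀ hb0]
    have : 4 / (2 * G) ≤ 1 := by
      rw [div_le_one (by positivity)]; linarith
    nlinarith
  have h2 : Up (2 / G) 1 (T1 G r) := Up.triv hr (by linarith)
  have h3 := runB P.hGc.le (by positivity : (0:ℝ) ≤ 32 * G) (by positivity) (by positivity) h1 h2 L L
    le_rfl
  have hs := P.hsC
  have h4 : 4 / (2 * G) / (G - 3 / 2) ≤ (2048 / 1000) / G ^ 2 := by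
    rw [div_div, div_le_div_iff₀ (by positivity) (by positivity)]
    nlinarith
  have h5 : ((L:ℝ) + 2) * (32 * G * √((Gc - 1) ^ 2 - 1) / 2) ≤ (8 / 100) / G ^ 2 := by
    have : ((L:ℝ) + 2) * (32 * G * √((Gc - 1) ^ 2 - 1) / 2)
        = 16 * G * (((L:ℝ) + 2) * √((Gc - 1) ^ 2 - 1)) := by ring
    rw [this]
    have h6 := mul_le_mul_of_nonneg_left hs (by positivity : (0:ℝ) ≤ 16 * G)
    refine h6.trans (le_of_eq ?_)
    field_simp
    norm_num
  have h6 : 2 / G / 2 ^ L ≤ (63 / 1000) / G ^ 2 := by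
    rw [P.hpow]
    have : 2 / G / (G ^ 2 / 2) = 4 / G ^ 3 := by
      field_simp
      norm_num
    rw [this, div_le_div_iff₀ (by positivity) (by positivity)]
    nlinarith [pow_pos hG 2]
  have h7 : Up ((22 / 10) / G ^ 2) 1 ((T0 Gc)^[L] (T1 G r)) := by
    refine h3.weaken ?_ le_rfl
    have : (2048 / 1000) / G ^ 2 + (8 / 100) / G ^ 2 + (63 / 1000) / G ^ 2 ≤ (22 / 10) / G ^ 2 := by
      rw [← add_div, ← add_div]
      apply div_le_div_of_nonneg_right _ (by positivity)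
      norm_num
    linarith
  have hcl := iter_cls (hr.T1 hG2) P.hGc.le L
  have hβ := P.beta (hr.T1 hG2)
  have hβ0 : 0 < (69 / 100) / G := by positivity
  have e1 : (22 / 10) / G ^ 2 / ((69 / 100) / G) = (220 / 69) / G := by
    field_simp
    norm_num
  have h8 : Up ((22 / 10) / G ^ 2 / ((69 / 100) / G)) (8 * G) (T1 GT ((T0 Gc)^[L] (T1 G r))) := by
    apply Up.T1 hcl h7 P.hGT.le zero_le_one (by positivity) hβ0 hβ (by linarith)
    rw [e1]
    have e2 : 4 / 3 * GT * 1 / ((69 / 100) / G) = (400 / 207) * GT * G := by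
      field_simp
      ring
    rw [e2]
    have h9 : (220 / 69) / G ≤ 1 := by
      rw [div_le_one hG]; linarith
    nlinarith [P.hGT']
  rw [e1] at h8
  refine h8.weaken ?_ le_rfl
  apply div_le_div_of_nonneg_right _ hG.le
  norm_num

lemma special_base {G Gc GT : ℝ} {L : ℕ} (P : Par G Gc GT L) {r : ℝ → ℝ} (hr : Cls r) :
    Up (4 / G) (8 * G) (T0 GT ((T0 Gc)^[L] (T1 G r))) := by
  have hG := P.gpos
  have hG64 := P.hG
  have h2 : Up (2 / G) 1 (T1 G r) := Up.triv hr (by linarith)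
  have h3 := runA P.hGc.le zero_le_one (by positivity) h2 L
  have hs := Real.sqrt_nonneg ((Gc - 1) ^ 2 - 1)
  have hL : (0:ℝ) ≤ L := Nat.cast_nonneg L
  have h4 := h3 (GT - 1) (by linarith [P.hGT])
  have h2G : 0 < 2 / G := by positivity
  have hσ0 := Real.sqrt_nonneg ((GT - 1) ^ 2 - 1)
  have h5 : 0 ≤ (L:ℝ) * (1 * √((Gc - 1) ^ 2 - 1) / 2) := by positivity
  have h6 := Up.T0 h3 P.hGT.le zero_le_one h4 (by linarith)
  refine h6.weaken ?_ (by linarith)
  have h7 := P.sc0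
  have h8 : (L:ℝ) * √((Gc - 1) ^ 2 - 1) ≤ ((L:ℝ) + 2) * √((Gc - 1) ^ 2 - 1) :=
    mul_le_mul_of_nonneg_right (by linarith) hs
  have h9 : (1 / 12800) / G ^ 2 ≤ (1 / 12800) / G := by
    apply div_le_div_of_nonneg_left (by norm_num) hG
    nlinarith
  have h10 := P.hσ2
  have h11 : (2 / G) + (1 / 12800) / G + (71 / 100) / G ≤ 4 / G := by
    rw [← add_div, ← add_div]
    apply div_le_div_of_nonneg_right _ hG.le
    norm_num
  linarith

lemma nice_step {G Gc GT : ℝ} {L : ℕ} (P : Par G Gc GT L) {r : ℝ → ℝ} (hr : Cls r)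
    (h : 1 / 8 ≤ r 1) : 1 / 8 ≤ T1 GT ((T0 Gc)^[L] (T1 G r)) 1 := by
  have hG := P.gpos
  have hG64 := P.hG
  have hG2 : 2 ≤ G := by linarith
  have h2 : Up (2 / G) 1 (T1 G r) := Up.triv hr (by linarith)
  have hc1 := hr.T1 hG2
  have hcl := iter_cls hc1 P.hGc.le L
  obtain ⟨p, hp0, hp1, hp2⟩ := runN hc1 P.hGc.le (by positivity) h2 L
  have h3 := hp2 (GT - 1) (by linarith [P.hGT])
  have h4 := run_one hc1 P.hGc.le L
  set s := (T0 Gc)^[L] (T1 G r) with hs
  have e1 : T1 GT s 1 = s 1 / (s 1 + s (GT - 1)) := by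
    have : fq GT 1 = 1 := by unfold fq; ring
    show 1 * s (fq GT 1) / (s (fq GT 1) + s (GT - 1)) = _
    rw [this, one_mul]
  have hr1 : r 1 ≤ 1 := hr.le 1 le_rfl
  have hr1p := hr.pos 1 le_rfl
  have hrz := hr.le (G - 1) (by linarith)
  have hrzp := hr.pos (G - 1) (by linarith)
  have ht1 : (1 / 8) / G ≤ T1 G r 1 := by
    have : fq G 1 = 1 := by unfold fq; ring
    show _ ≤ 1 * r (fq G 1) / (r (fq G 1) + r (G - 1))
    rw [this, one_mul]
    apply div_le_div₀ hr1p.le h (by linarith) (by linarith)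
  have hs1 : (999 / 8000) / G ≤ s 1 := by
    refine le_trans ?_ h4
    have := mul_le_mul P.hc ht1 (by positivity) (by have := P.hGc; positivity)
    refine le_trans (le_of_eq ?_) this
    ring
  have hs1p := hcl.pos 1 le_rfl
  have hszp := hcl.pos (GT - 1) (by linarith [P.hGT])
  have hPi : (Gc / 2) ^ L ≤ 1000 / 999 := by
    have e : (Gc / 2) ^ L = ((2 / Gc) ^ L)⁻¹ := by
      rw [← inv_pow, inv_div]
    rw [e]
    have : (1000 / 999 : ℝ) = (999 / 1000)⁻¹ := by norm_num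
    rw [this]
    exact inv_anti₀ (by norm_num) P.hc
  have hp3 : p ≤ 1000 / 999 * s 1 := hp1.trans (mul_le_mul_of_nonneg_right hPi hs1p.le)
  have h6 : 2 / G / 2 ^ L ≤ (1 / 1000) / G := by
    rw [P.hpow]
    have : 2 / G / (G ^ 2 / 2) = 4 / G ^ 3 := by
      field_simp
      norm_num
    rw [this, div_le_div_iff₀ (by positivity) (by positivity)]
    have : 64 ^ 2 ≤ G ^ 2 := pow_le_pow_left₀ (by norm_num) hG64 2
    nlinarith
  have h7 : (1 / 1000) / G + (71 / 100) / G ≤ (5.7) * s 1 := by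
    have : (1 / 1000) / G + (71 / 100) / G = (0.711 / (999 / 8000)) * ((999 / 8000) / G) := by
      field_simp
      norm_num
    rw [this]
    have h8 : (0.711 / (999 / 8000)) * ((999 / 8000) / G) ≤ (0.711 / (999 / 8000)) * s 1 :=
      mul_le_mul_of_nonneg_left hs1 (by norm_num)
    refine h8.trans ?_
    apply mul_le_mul_of_nonneg_right _ hs1p.le
    norm_num
  rw [e1, le_div_iff₀ (by positivity)]
  have h9 := P.hσ2
  have : s (GT - 1) ≤ 7 * s 1 := by
    have : 1 * √((GT - 1) ^ 2 - 1) = √((GT - 1) ^ 2 - 1) := one_mul _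
    linarith
  linarith

lemma T0_dist {r : ℝ → ℝ} {g e : ℝ} (hg : 2 ≤ g) (he : 0 ≤ e) (h : ∀ x, 1 ≤ x → x - r x ≤ e) :
    ∀ x, 1 ≤ x → x - T0 g r x ≤ e := by
  intro x hx
  have hf := one_le_fq hg hx
  have hx0 : 0 < x := by linarith
  have h1 := h _ hf
  have h2 := h (g - 1) (by linarith)
  have e1 : x - T0 g r x = ((fq g x - r (fq g x)) + (g - 1 - r (g - 1))) / (g * x) := by
    unfold T0
    rw [eq_div_iff (by positivity), sub_mul, div_mul_cancel₀ _ (by positivity)]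
    have := fq_add g x
    nlinarith
  rw [e1, div_le_iff₀ (by positivity)]
  have : 2 ≤ g * x := by nlinarith
  nlinarith

lemma zero_base {G Gc GT : ℝ} {L : ℕ} (P : Par G Gc GT L) {r : ℝ → ℝ} (hr : Cls r) :
    1 / 8 ≤ T0 GT ((T0 Gc)^[L] (T0 G r)) 1 := by
  have hG := P.gpos
  have hG64 := P.hG
  have h1 : ∀ x, 1 ≤ x → x - T0 G r x ≤ 2 / G := by
    intro x hx
    have hf := one_le_fq (by linarith : 2 ≤ G) hx
    have hx0 : 0 < x := by linarith
    have h1 := hr.ge _ hf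
    have h2 := hr.ge (G - 1) (by linarith)
    have e1 : x - T0 G r x = ((fq G x - r (fq G x)) + (G - 1 - r (G - 1))) / (G * x) := by
      unfold T0
      rw [eq_div_iff (by positivity), sub_mul, div_mul_cancel₀ _ (by positivity)]
      have := fq_add G x
      nlinarith
    rw [e1]
    have h4 : 1 / fq G x ≤ 1 := by
      rw [div_le_one (by linarith)]; exact hf
    have h5 : 1 / (G - 1) ≤ 1 := by
      rw [div_le_one (by linarith)]; linarith
    apply div_le_div₀ (by norm_num) (by linarith) hG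
    nlinarith
  have h2 : ∀ n x, 1 ≤ x → x - (T0 Gc)^[n] (T0 G r) x ≤ 2 / G := by
    intro n
    induction n with
    | zero => simpa using h1
    | succ n ih =>
      rw [Function.iterate_succ']
      exact T0_dist P.hGc.le (by positivity) ih
  have h3 := T0_dist P.hGT.le (by positivity) (h2 L) 1 le_rfl
  have h4 : 2 / G ≤ 2 / 64 := by
    apply div_le_div_of_nonneg_left <;> linarith
  linarith

end

end Pool.Agent.Helper973.KG
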