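import Mathlib
import Pool.Agent.Helper973.KGc

set_option autoImplicit false

namespace Pool.Agent.Helper973.KG

noncomputable section

/-- the explicit parameters: G = 1/(2 gamma) -/
def Gp (k : ℕ) : ℝ :=
  if k = 0 then 2 + 1 / 2 ^ 30
  else if k + 35 = Nat.sqrt (k + 35) * Nat.sqrt (k + 35) then
    2 + 1 / (4 * ((2:ℝ) ^ (Nat.sqrt (k + 35))) ^ 2)
  else if k + 36 = (Nat.sqrt (k + 35) + 1) * (Nat.sqrt (k + 35) + 1) then
    (2:ℝ) ^ (Nat.sqrt (k + 35))
  else 2 + 1 / (2 ^ 15 * ((2:ℝ) ^ (Nat.sqrt (k + 35))) ^ 8)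

def st (j : ℕ) : ℕ := j ^ 2 + 12 * j + 1
def Gb (j : ℕ) : ℝ := (2:ℝ) ^ (j + 6)
def Lb (j : ℕ) : ℕ := 2 * j + 11
def GTb (j : ℕ) : ℝ := 2 + 1 / (4 * (Gb j) ^ 2)
def Gcb (j : ℕ) : ℝ := 2 + 1 / (2 ^ 15 * (Gb j) ^ 8)

lemma Gb_ge (j : ℕ) : 64 ≤ Gb j := by
  unfold Gb
  rw [pow_add]
  have : (1:ℝ) ≤ 2 ^ j := one_le_pow₀ (by norm_num)
  nlinarith

lemma Gp_T (j : ℕ) : Gp (st j) = GTb j := by
  have h1 : st j ≠ 0 := by unfold st; omega
  have h2 : st j + 35 = (j + 6) * (j + 6) := by unfold st; ring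
  have h3 : Nat.sqrt (st j + 35) = j + 6 := by rw [h2, Nat.sqrt_eq]
  unfold Gp
  rw [if_neg h1, h3, if_pos h2]
  rfl

lemma Gp_C (j i : ℕ) (hi : i < Lb j) : Gp (st j + 1 + i) = Gcb j := by
  unfold Lb at hi
  have h1 : st j + 1 + i ≠ 0 := by omega
  have h2 : st j + 1 + i + 35 = (j + 6) * (j + 6) + (1 + i) := by unfold st; ring
  have h3 : Nat.sqrt (st j + 1 + i + 35) = j + 6 := by
    rw [h2]
    apply Nat.sqrt_add_eq
    omega
  have h4 : ¬ (st j + 1 + i + 35 = (j + 6) * (j + 6)) := by omega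
  have h5 : ¬ (st j + 1 + i + 36 = (j + 6 + 1) * (j + 6 + 1)) := by
    have : (j + 6 + 1) * (j + 6 + 1) = (j + 6) * (j + 6) + 2 * j + 13 := by ring
    omega
  unfold Gp
  rw [if_neg h1, h3, if_neg h4, if_neg h5]
  rfl

lemma Gp_S (j : ℕ) : Gp (st j + 1 + Lb j) = Gb j := by
  unfold Lb
  have h1 : st j + 1 + (2 * j + 11) ≠ 0 := by omega
  have h2 : st j + 1 + (2 * j + 11) + 35 = (j + 6) * (j + 6) + (2 * j + 12) := by
    unfold st; ring
  have h3 : Nat.sqrt (st j + 1 + (2 * j + 11) + 35) = j + 6 := by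
    rw [h2]
    apply Nat.sqrt_add_eq
    omega
  have h4 : ¬ (st j + 1 + (2 * j + 11) + 35 = (j + 6) * (j + 6)) := by omega
  have h5 : st j + 1 + (2 * j + 11) + 36 = (j + 6 + 1) * (j + 6 + 1) := by
    have : (j + 6 + 1) * (j + 6 + 1) = (j + 6) * (j + 6) + 2 * j + 13 := by ring
    omega
  unfold Gp
  rw [if_neg h1, h3, if_neg h4, if_pos h5]
  rfl

lemma st_succ (j : ℕ) : st (j + 1) = st j + 1 + Lb j + 1 := by
  unfold st Lb; ring

lemma two_lt_Gp (k : ℕ) : 2 < Gp k := by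
  unfold Gp
  split_ifs with h1 h2 h3
  · have : (0:ℝ) < 1 / 2 ^ 30 := by positivity
    linarith
  · have : (0:ℝ) < 1 / (4 * ((2:ℝ) ^ (Nat.sqrt (k + 35))) ^ 2) := by positivity
    linarith
  · have h5 : 5 ≤ Nat.sqrt (k + 35) := by
      rw [Nat.le_sqrt]; omega
    have : (2:ℝ) ^ 5 ≤ 2 ^ (Nat.sqrt (k + 35)) := pow_le_pow_right₀ (by norm_num) h5
    norm_num at this
    linarith
  · have : (0:ℝ) < 1 / (2 ^ 15 * ((2:ℝ) ^ (Nat.sqrt (k + 35))) ^ 8) := by positivity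
    linarith

lemma par_b (j : ℕ) : Par (Gb j) (Gcb j) (GTb j) (Lb j) := by
  have hG := Gb_ge j
  have hG0 : 0 < Gb j := by linarith
  have hL : ((Lb j : ℕ) : ℝ) + 2 ≤ Gb j / 2 := by
    unfold Lb Gb
    have h1 : ∀ n : ℕ, ((2 * n + 11 : ℕ) : ℝ) + 2 ≤ (2:ℝ) ^ (n + 6) / 2 := by
      intro n
      induction n with
      | zero => norm_num
      | succ n ih =>
        have h2 : (1:ℝ) ≤ 2 ^ (n + 6) := one_le_pow₀ (by norm_num)
        have h3 : (2:ℝ) ^ (n + 1 + 6) = 2 * 2 ^ (n + 6) := by ring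
        rw [h3]
        push_cast at ih ⊢
        have h4 : (64:ℝ) ≤ 2 ^ (n + 6) := by
          rw [pow_add]
          have : (1:ℝ) ≤ 2 ^ n := one_le_pow₀ (by norm_num)
          nlinarith
        linarith
    exact h1 j
  have hL0 : (0:ℝ) ≤ (Lb j : ℕ) := Nat.cast_nonneg _
  have hθ : 0 < 1 / (2 ^ 15 * (Gb j) ^ 8) := by positivity
  have hη : 0 < 1 / (4 * (Gb j) ^ 2) := by positivity
  refine ⟨hG, ?_, ?_, ?_, ?_, ?_, ?_, ?_, ?_⟩
  · unfold Gcb; linarith
  · unfold GTb; linarith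
  · unfold GTb
    have : 1 / (4 * (Gb j) ^ 2) ≤ 1 / 10 := by
      apply one_div_le_one_div_of_le (by norm_num)
      nlinarith
    linarith
  · unfold Lb Gb
    rw [← pow_mul]
    have : (2:ℝ) ^ ((j + 6) * 2) = 2 ^ (2 * j + 11) * 2 := by
      rw [← pow_succ]; congr 1; ring
    rw [this]; ring
  · unfold Gcb
    set θ := 1 / (2 ^ 15 * (Gb j) ^ 8) with hθd
    have h8 : (Gb j) ≤ (Gb j) ^ 8 := by
      apply le_self_pow₀ (by linarith) (by norm_num)
    have h1 : θ * Gb j ≤ 1 / 2 ^ 15 := by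
      rw [hθd, div_mul_eq_mul_div, div_le_div_iff₀ (by positivity) (by positivity)]
      nlinarith
    have h2 : 1 - θ / 2 ≤ 2 / (2 + θ) := by
      rw [le_div_iff₀ (by linarith)]
      nlinarith
    have hθ1 : θ ≤ 1 := by
      have : θ * 1 ≤ θ * Gb j := mul_le_mul_of_nonneg_left (by linarith) hθ.le
      have : (1:ℝ) / 2 ^ 15 ≤ 1 := by norm_num
      linarith
    have h3 := one_add_mul_le_pow (a := -(θ / 2)) (by linarith) (Lb j)
    have h4 : (1 + -(θ / 2)) ^ (Lb j) ≤ (2 / (2 + θ)) ^ (Lb j) := by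
      apply pow_le_pow_left₀
      · linarith
      · linarith
    refine le_trans ?_ (h3.trans h4)
    have h5 : ((Lb j : ℕ) : ℝ) * θ ≤ Gb j / 2 * θ := mul_le_mul_of_nonneg_right (by linarith) hθ.le
    have : (1:ℝ) / 2 ^ 15 ≤ 1 / 1000 := by norm_num
    nlinarith
  · unfold Gcb
    set θ := 1 / (2 ^ 15 * (Gb j) ^ 8) with hθd
    have hs : √((2 + θ - 1) ^ 2 - 1) ≤ 1 / (100 * (Gb j) ^ 4) := by
      apply Real.sqrt_le_iff.2
      refine ⟨by positivity, ?_⟩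
      have h8 : (1:ℝ) ≤ (Gb j) ^ 8 := one_le_pow₀ (by linarith)
      have hθ1 : θ ≤ 1 / 1000 := by
        rw [hθd]
        apply one_div_le_one_div_of_le (by norm_num)
        nlinarith
      have e : (2 + θ - 1) ^ 2 - 1 = (2 + θ) * θ := by ring
      rw [e]
      have e2 : (1 / (100 * (Gb j) ^ 4)) ^ 2 = (2 ^ 15 / 10000) * θ := by
        rw [hθd]
        field_simp
        norm_num
      rw [e2]
      apply mul_le_mul_of_nonneg_right _ hθ.le
      norm_num at hθ1 ⊢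
      linarith
    have := mul_le_mul hL hs (Real.sqrt_nonneg _) (by positivity)
    refine this.trans (le_of_eq ?_)
    field_simp
    norm_num
  · unfold GTb
    apply Real.le_sqrt_of_sq_le
    have e : (2 + 1 / (4 * (Gb j) ^ 2) - 1) ^ 2 - 1
        = (1 / 2) / (Gb j) ^ 2 + (1 / (4 * (Gb j) ^ 2)) ^ 2 := by
      field_simp
      ring
    rw [e, div_pow]
    have : (7 / 10) ^ 2 / (Gb j) ^ 2 ≤ (1 / 2) / (Gb j) ^ 2 := by
      apply div_le_div_of_nonneg_right _ (by positivity)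
      norm_num
    have h2 : 0 ≤ (1 / (4 * (Gb j) ^ 2)) ^ 2 := by positivity
    linarith
  · unfold GTb
    apply Real.sqrt_le_iff.2
    refine ⟨by positivity, ?_⟩
    have e : (2 + 1 / (4 * (Gb j) ^ 2) - 1) ^ 2 - 1
        = (1 / 2) / (Gb j) ^ 2 + (1 / (16 * (Gb j) ^ 2)) / (Gb j) ^ 2 := by
      field_simp
      ring
    rw [e, div_pow, ← add_div]
    apply div_le_div_of_nonneg_right _ (by positivity)
    have : 1 / (16 * (Gb j) ^ 2) ≤ 1 / (16 * 64 ^ 2) := by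
      apply one_div_le_one_div_of_le (by norm_num)
      nlinarith
    norm_num at this ⊢
    linarith

lemma rr_run (G : ℕ → ℝ) (hG : ∀ k, 2 < G k) (g : ℝ) (L : ℕ) :
    ∀ k n, (∀ i, i < L → G (k + i) = g) →
      rr G k (2 ^ L * n) = (T0 g)^[L] (rr G (k + L) n) := by
  induction L with
  | zero => intro k n _; simp
  | succ L ih =>
    intro k n h
    have e : 2 ^ (L + 1) * n = 2 * (2 ^ L * n) := by ring
    rw [e, rr_even G hG, ih (k + 1) n]
    · rw [Function.iterate_succ']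
      have h0 := h 0 (by omega)
      simp only [add_zero] at h0
      rw [h0]
      have : k + 1 + L = k + (L + 1) := by ring
      rw [this]
      rfl
    · intro i hi
      have := h (i + 1) (by omega)
      rw [← this]
      congr 1
      ring

def mainf (j u : ℕ) : ℕ := 2 * (2 ^ (Lb j) * (2 * u + 1)) + 1
def specf (j u : ℕ) : ℕ := 2 * (2 ^ (Lb j) * (2 * u + 1))
def zerof (j u : ℕ) : ℕ := 2 * (2 ^ (Lb j) * (2 * u))

lemma rr_C (j n : ℕ) : rr Gp (st j + 1) (2 ^ (Lb j) * n)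
    = (T0 (Gcb j))^[Lb j] (rr Gp (st j + 1 + Lb j) n) :=
  rr_run Gp two_lt_Gp (Gcb j) (Lb j) (st j + 1) n (fun i hi => Gp_C j i hi)

lemma rr_main (j u : ℕ) : rr Gp (st j) (mainf j u)
    = T1 (GTb j) ((T0 (Gcb j))^[Lb j] (T1 (Gb j) (rr Gp (st (j + 1)) u))) := by
  unfold mainf
  rw [rr_odd, Gp_T, rr_C, rr_odd, Gp_S, st_succ]

lemma rr_spec (j u : ℕ) : rr Gp (st j) (specf j u)
    = T0 (GTb j) ((T0 (Gcb j))^[Lb j] (T1 (Gb j) (rr Gp (st (j + 1)) u))) := by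
  unfold specf
  rw [rr_even Gp two_lt_Gp, Gp_T, rr_C, rr_odd, Gp_S, st_succ]

lemma rr_zerof (j u : ℕ) : rr Gp (st j) (zerof j u)
    = T0 (GTb j) ((T0 (Gcb j))^[Lb j] (T0 (Gb j) (rr Gp (st (j + 1)) u))) := by
  unfold zerof
  rw [rr_even Gp two_lt_Gp, Gp_T, rr_C, rr_even Gp two_lt_Gp, Gp_S, st_succ]

def chn : ℕ → ℕ → ℕ
  | 0, u => u
  | i + 1, u => chn i (mainf i u)

def Sn (i : ℕ) : ℕ := i ^ 2 + 12 * i

lemma chn_add (i : ℕ) : ∀ u v, chn i (u + 2 ^ 0 * v) = chn i u + 2 ^ (Sn i) * v := by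
  induction i with
  | zero => intro u v; simp [chn, Sn]
  | succ i ih =>
    intro u v
    show chn i (mainf i (u + 2 ^ 0 * v)) = chn i (mainf i u) + 2 ^ (Sn (i + 1)) * v
    have e : mainf i (u + 2 ^ 0 * v) = mainf i u + 2 ^ 0 * (2 ^ (2 * i + 13) * v) := by
      unfold mainf Lb
      have : 2 ^ (2 * i + 13) = 2 ^ (2 * i + 11) * 4 := by
        rw [show 2 * i + 13 = (2 * i + 11) + 2 by ring, pow_add]; norm_num
      rw [this]
      ring
    rw [e, ih]
    have : Sn (i + 1) = Sn i + (2 * i + 13) := by unfold Sn; ring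
    rw [this, pow_add]
    ring

lemma le_chn (i : ℕ) : ∀ u, u ≤ chn i u := by
  induction i with
  | zero => intro u; exact le_rfl
  | succ i ih =>
    intro u
    show u ≤ chn i (mainf i u)
    refine le_trans ?_ (ih _)
    unfold mainf
    have : 1 ≤ 2 ^ (Lb i) := Nat.one_le_two_pow
    nlinarith

lemma nice_chain (i : ℕ) : ∀ u, 1 / 8 ≤ rr Gp (st i) u 1 → 1 / 8 ≤ rr Gp (st 0) (chn i u) 1 := by
  induction i with
  | zero => intro u h; exact h
  | succ i ih =>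
    intro u h
    apply ih
    rw [rr_main]
    exact nice_step (par_b i) (cls_rr Gp two_lt_Gp u _) h

lemma special_chain (i : ℕ) : ∀ u, Up (4 / Gb i) (8 * Gb i) (rr Gp (st i) u) →
    Up (4 / Gb 0) (8 * Gb 0) (rr Gp (st 0) (chn i u)) := by
  induction i with
  | zero => intro u h; exact h
  | succ i ih =>
    intro u h
    apply ih
    rw [rr_main]
    have e : Gb (i + 1) = 2 * Gb i := by unfold Gb; ring
    rw [e] at h
    exact special_step (par_b i) (cls_rr Gp two_lt_Gp u _) h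

theorem gap (i i' : ℕ) (hii : i < i') (N : ℕ) : ∃ q, N ≤ q ∧
    1 / 8 ≤ rr Gp 1 (q + 2 ^ (Sn i)) (Gp 0 - 1) ∧
    rr Gp 1 (q + 2 ^ (Sn i')) (Gp 0 - 1) ≤ 1 / 10 := by
  have hst0 : st 0 = 1 := by unfold st; norm_num
  have hζ : Gp 0 - 1 = 1 + 1 / 2 ^ 30 := by
    unfold Gp; simp only [if_true]; ring
  have hζ1 : 1 ≤ Gp 0 - 1 := by
    rw [hζ]
    have : (0:ℝ) < 1 / 2 ^ 30 := by positivity
    linarith
  set w := zerof (i + 1) N with hw
  refine ⟨chn i (specf i w), ?_, ?_, ?_⟩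
  · refine le_trans ?_ (le_chn i _)
    have h1 : 1 ≤ 2 ^ (Lb i) := Nat.one_le_two_pow
    have h2 : 1 ≤ 2 ^ (Lb (i + 1)) := Nat.one_le_two_pow
    have h3 : N ≤ w := by
      rw [hw]; unfold zerof; nlinarith
    unfold specf
    nlinarith
  · have e : chn i (specf i w) + 2 ^ (Sn i) = chn (i + 1) w := by
      have h1 := chn_add i (specf i w) 1
      simp only [pow_zero, mul_one] at h1
      rw [← h1]
      rfl
    rw [e, ← hst0]
    have h1 : 1 / 8 ≤ rr Gp (st 0) (chn (i + 1) w) 1 := by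
      apply nice_chain
      rw [hw, rr_zerof]
      exact zero_base (par_b (i + 1)) (cls_rr Gp two_lt_Gp _ _)
    exact h1.trans ((cls_rr Gp two_lt_Gp _ _).mono' le_rfl hζ1)
  · obtain ⟨e, he⟩ : ∃ e, Sn i' = Sn i + (2 * i + 13) + e := by
      obtain ⟨d, rfl⟩ : ∃ d, i' = i + 1 + d := ⟨i' - (i + 1), by omega⟩
      refine ⟨2 * i * d + 2 * d + d ^ 2 + 12 * d, ?_⟩
      unfold Sn; ring
    have e1 : chn i (specf i w) + 2 ^ (Sn i') = chn i (specf i (w + 2 ^ e)) := by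
      have h1 := chn_add i (specf i w) (2 ^ (2 * i + 13) * 2 ^ e)
      have h2 : 2 ^ (Sn i) * (2 ^ (2 * i + 13) * 2 ^ e) = 2 ^ (Sn i') := by
        rw [he, pow_add, pow_add]; ring
      rw [h2] at h1
      rw [← h1]
      congr 1
      unfold specf Lb
      have : 2 ^ (2 * i + 13) = 2 ^ (2 * i + 11) * 4 := by
        rw [show 2 * i + 13 = (2 * i + 11) + 2 by ring, pow_add]; norm_num
      rw [this]
      ring
    rw [e1]
    have h1 : Up (4 / Gb 0) (8 * Gb 0) (rr Gp (st 0) (chn i (specf i (w + 2 ^ e)))) := by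
      apply special_chain
      rw [rr_spec]
      exact special_base (par_b i) (cls_rr Gp two_lt_Gp _ _)
    have h2 := h1 _ hζ1
    rw [hst0] at h2
    refine h2.trans ?_
    have h3 : √((Gp 0 - 1) ^ 2 - 1) ≤ 1 / 2 ^ 14 := by
      rw [hζ]
      apply Real.sqrt_le_iff.2
      constructor
      · positivity
      · norm_num
    unfold Gb
    norm_num at h3 ⊢
    linarith

end

end Pool.Agent.Helper973.KG
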