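import Mathlib

set_option autoImplicit false
open MeasureTheory Filter Topology

namespace Pool.Agent.Helper973.KG

noncomputable section

def ker (x y : ℝ) : ENNReal := if x = y then ⊤ else ENNReal.ofReal (Real.log (2 / |x - y|))

lemma measurable_ker : Measurable (fun z : ℝ × ℝ => ker z.1 z.2) := by
  unfold ker
  apply Measurable.ite
  · exact measurableSet_eq_fun measurable_fst measurable_snd
  · exact measurable_const
  · fun_prop

lemma measurable_ker_neg : Measurable (fun z : ℝ × ℝ => ker z.1 (-z.2)) := by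
  have : Measurable (fun z : ℝ × ℝ => ((z.1, -z.2) : ℝ × ℝ)) := by fun_prop
  exact measurable_ker.comp this

def qq (z : ℝ × ℝ) : ℝ := min (z.1 ^ 2) (z.2 ^ 2) / (z.1 * z.2)

lemma measurable_qq : Measurable qq := by
  unfold qq
  fun_prop

lemma abs_qq_le (z : ℝ × ℝ) : |qq z| ≤ 1 := by
  unfold qq
  rw [abs_div]
  apply div_le_one_of_le₀ _ (abs_nonneg _)
  have h1 : 0 ≤ min (z.1 ^ 2) (z.2 ^ 2) := le_min (sq_nonneg _) (sq_nonneg _)
  rw [abs_of_nonneg h1, abs_mul]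
  rcases le_total |z.1| |z.2| with h | h
  · calc min (z.1 ^ 2) (z.2 ^ 2) ≤ z.1 ^ 2 := min_le_left _ _
      _ = |z.1| * |z.1| := by rw [← sq, sq_abs]
      _ ≤ |z.1| * |z.2| := mul_le_mul_of_nonneg_left h (abs_nonneg _)
  · calc min (z.1 ^ 2) (z.2 ^ 2) ≤ z.2 ^ 2 := min_le_right _ _
      _ = |z.2| * |z.2| := by rw [← sq, sq_abs]
      _ ≤ |z.1| * |z.2| := mul_le_mul_of_nonneg_right h (abs_nonneg _)

lemma ae_prod_of {ν : Measure ℝ} [IsFiniteMeasure ν] {p : ℝ → Prop} (h : ∀ᵐ x ∂ν, p x) :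
    ∀ᵐ z ∂(ν.prod ν), p z.1 ∧ p z.2 := by
  have h1 := (Measure.quasiMeasurePreserving_fst (μ := ν) (ν := ν)).ae h
  have h2 := (Measure.quasiMeasurePreserving_snd (μ := ν) (ν := ν)).ae h
  filter_upwards [h1, h2] with z hz1 hz2
  exact ⟨hz1, hz2⟩

def cutJ (c : ℝ) (N : ℕ) (x : ℝ) : ℝ := if c ≤ |x| then (x ^ N)⁻¹ else 0

lemma measurable_cutJ (c : ℝ) (N : ℕ) : Measurable (cutJ c N) := by
  unfold cutJ
  apply Measurable.ite
  · exact measurableSet_le measurable_const (by fun_prop)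
  · fun_prop
  · exact measurable_const

lemma cutJ_le {c : ℝ} (hc : 0 < c) (N : ℕ) (x : ℝ) : |cutJ c N x| ≤ (c ^ N)⁻¹ := by
  unfold cutJ
  split_ifs with h
  · rw [abs_inv, abs_pow]
    apply inv_anti₀ (by positivity)
    exact pow_le_pow_left₀ hc.le h N
  · rw [abs_zero]; positivity

def phi (c : ℝ) (N : ℕ) (s x : ℝ) : ℝ := if s < (x ^ 2) ^ N then cutJ c N x else 0

lemma phi_le {c : ℝ} (hc : 0 < c) (N : ℕ) (s x : ℝ) : |phi c N s x| ≤ (c ^ N)⁻¹ := by
  unfold phi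
  split_ifs with h
  · exact cutJ_le hc N x
  · rw [abs_zero]; positivity

lemma measurable_phi (c : ℝ) (N : ℕ) : Measurable (fun w : ℝ × ℝ => phi c N w.1 w.2) := by
  unfold phi
  apply Measurable.ite
  · exact measurableSet_lt measurable_fst (by fun_prop)
  · exact (measurable_cutJ c N).comp measurable_snd
  · exact measurable_const

lemma int_phi {c : ℝ} (N : ℕ) {x y : ℝ} (hx : c ≤ |x|) (hx1 : |x| ≤ 1) (hy : c ≤ |y|) :
    ∫ s in Set.Ioc (0:ℝ) 1, phi c N s x * phi c N s y = (qq (x, y)) ^ N := by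
  have e : ∀ s, phi c N s x * phi c N s y
      = (Set.Iio (min ((x ^ 2) ^ N) ((y ^ 2) ^ N))).indicator
        (fun _ => (x ^ N)⁻¹ * (y ^ N)⁻¹) s := by
    intro s
    unfold phi cutJ
    rw [if_pos hx, if_pos hy]
    by_cases h : s < min ((x ^ 2) ^ N) ((y ^ 2) ^ N)
    · rw [Set.indicator_of_mem (by exact h)]
      rw [if_pos (lt_of_lt_of_le h (min_le_left _ _)), if_pos (lt_of_lt_of_le h (min_le_right _ _))]
    · rw [Set.indicator_of_notMem (by exact h)]
      rw [lt_min_iff, not_and_or] at h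
      rcases h with h | h
      · rw [if_neg h, zero_mul]
      · rw [if_neg h, mul_zero]
  simp_rw [e]
  have hm1 : min ((x ^ 2) ^ N) ((y ^ 2) ^ N) ≤ 1 := by
    refine (min_le_left _ _).trans ?_
    apply pow_le_one₀ (sq_nonneg _)
    rw [← sq_abs]
    exact pow_le_one₀ (abs_nonneg _) hx1
  have hm0 : 0 ≤ min ((x ^ 2) ^ N) ((y ^ 2) ^ N) := le_min (by positivity) (by positivity)
  rw [integral_indicator measurableSet_Iio, Measure.restrict_restrict measurableSet_Iio,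
    setIntegral_const]
  have hset : Set.Iio (min ((x ^ 2) ^ N) ((y ^ 2) ^ N)) ∩ Set.Ioc (0:ℝ) 1
      = Set.Ioo 0 (min ((x ^ 2) ^ N) ((y ^ 2) ^ N)) := by
    ext s
    simp only [Set.mem_inter_iff, Set.mem_Iio, Set.mem_Ioc, Set.mem_Ioo]
    constructor
    · rintro ⟨h1, h2, h3⟩; exact ⟨h2, h1⟩
    · rintro ⟨h1, h2⟩; exact ⟨h2, h1, (h2.le.trans hm1)⟩
  rw [hset, measureReal_def, Real.volume_Ioo, sub_zero, ENNReal.toReal_ofReal hm0, smul_eq_mul]
  unfold qq
  simp only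
  rw [div_pow, mul_pow]
  have : (min (x ^ 2) (y ^ 2)) ^ N = min ((x ^ 2) ^ N) ((y ^ 2) ^ N) := by
    rcases le_total (x ^ 2) (y ^ 2) with h | h
    · rw [min_eq_left h, min_eq_left (pow_le_pow_left₀ (sq_nonneg _) h N)]
    · rw [min_eq_right h, min_eq_right (pow_le_pow_left₀ (sq_nonneg _) h N)]
  rw [this, div_eq_mul_inv, mul_inv]

lemma psd {ν : Measure ℝ} [IsFiniteMeasure ν] {c : ℝ} (hc : 0 < c)
    (h : ∀ᵐ x ∂ν, c ≤ |x| ∧ |x| ≤ 1) (N : ℕ) : 0 ≤ ∫ z, (qq z) ^ N ∂(ν.prod ν) := by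
  have h1 : ∫ z, (qq z) ^ N ∂(ν.prod ν)
      = ∫ z, (∫ s in Set.Ioc (0:ℝ) 1, phi c N s z.1 * phi c N s z.2) ∂(ν.prod ν) := by
    apply integral_congr_ae
    filter_upwards [ae_prod_of h] with z hz
    rw [int_phi N hz.1.1 hz.1.2 hz.2.1]
  rw [h1, integral_integral_swap]
  · apply integral_nonneg
    intro s
    show 0 ≤ ∫ z : ℝ × ℝ, phi c N s z.1 * phi c N s z.2 ∂(ν.prod ν)
    rw [integral_prod_mul (μ := ν) (ν := ν) (fun x => phi c N s x) (fun x => phi c N s x)]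
    exact mul_self_nonneg _
  · apply Integrable.of_bound (C := (c ^ N)⁻¹ * (c ^ N)⁻¹)
    · apply Measurable.aestronglyMeasurable
      have m1 : Measurable (fun w : (ℝ × ℝ) × ℝ => ((w.2, w.1.1) : ℝ × ℝ)) := by fun_prop
      have m2 : Measurable (fun w : (ℝ × ℝ) × ℝ => ((w.2, w.1.2) : ℝ × ℝ)) := by fun_prop
      exact ((measurable_phi c N).comp m1).mul ((measurable_phi c N).comp m2)
    · refine Filter.Eventually.of_forall fun w => ?_
      rw [Function.uncurry, Real.norm_eq_abs, abs_mul]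
      exact mul_le_mul (phi_le hc N _ _) (phi_le hc N _ _) (abs_nonneg _) (by positivity)

def gs (J : ℕ) (z : ℝ × ℝ) : ℝ :=
  ∑ n ∈ Finset.range J, (2:ℝ) * (1 / (2 * n + 1)) * (qq z) ^ (2 * n + 1)

lemma measurable_gs (J : ℕ) : Measurable (gs J) := by
  unfold gs
  apply Finset.measurable_sum
  intro n _
  exact (measurable_qq.pow_const _).const_mul _

lemma integrable_term {ν : Measure ℝ} [IsFiniteMeasure ν] (n : ℕ) :
    Integrable (fun z => (2:ℝ) * (1 / (2 * n + 1)) * (qq z) ^ (2 * n + 1)) (ν.prod ν) := by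
  apply Integrable.const_mul
  apply Integrable.of_bound (C := 1)
  · exact (measurable_qq.pow_const _).aestronglyMeasurable
  · refine Filter.Eventually.of_forall fun w => ?_
    rw [Real.norm_eq_abs, abs_pow]
    exact pow_le_one₀ (abs_nonneg _) (abs_qq_le w)

lemma integral_gs {ν : Measure ℝ} [IsFiniteMeasure ν] {c : ℝ} (hc : 0 < c)
    (h : ∀ᵐ x ∂ν, c ≤ |x| ∧ |x| ≤ 1) (J : ℕ) : 0 ≤ ∫ z, gs J z ∂(ν.prod ν) := by
  unfold gs
  rw [integral_finsetSum _ (fun n _ => integrable_term n)]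
  apply Finset.sum_nonneg
  intro n _
  rw [integral_const_mul]
  exact mul_nonneg (by positivity) (psd hc h _)

lemma lint_gs {ν : Measure ℝ} [IsFiniteMeasure ν] {c : ℝ} (hc : 0 < c)
    (h : ∀ᵐ x ∂ν, c ≤ |x| ∧ |x| ≤ 1) (J : ℕ) :
    ∫⁻ z, ENNReal.ofReal (-(gs J z)) ∂(ν.prod ν) ≤ ∫⁻ z, ENNReal.ofReal (gs J z) ∂(ν.prod ν) := by
  have hi : Integrable (gs J) (ν.prod ν) := by
    unfold gs
    exact integrable_finsetSum _ (fun n _ => integrable_term n)
  have h1 := integral_eq_lintegral_pos_part_sub_lintegral_neg_part hi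
  have h2 := integral_gs hc h J
  rw [h1] at h2
  have f1 : ∫⁻ z, ENNReal.ofReal (gs J z) ∂(ν.prod ν) ≠ ⊤ := by
    have := hi.lintegral_lt_top
    exact this.ne
  have f2 : ∫⁻ z, ENNReal.ofReal (-(gs J z)) ∂(ν.prod ν) ≠ ⊤ := by
    have := hi.neg.lintegral_lt_top
    exact this.ne
  rw [← ENNReal.toReal_le_toReal f2 f1]
  linarith

lemma gs_nonneg {z : ℝ × ℝ} (h : 0 ≤ qq z) (J : ℕ) : 0 ≤ gs J z := by
  unfold gs
  apply Finset.sum_nonneg
  intro n _
  positivity

lemma gs_nonpos {z : ℝ × ℝ} (h : qq z ≤ 0) (J : ℕ) : gs J z ≤ 0 := by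
  unfold gs
  apply Finset.sum_nonpos
  intro n _
  apply mul_nonpos_of_nonneg_of_nonpos (by positivity)
  exact Odd.pow_nonpos (by exact ⟨n, rfl⟩) h

lemma mono_pos (z : ℝ × ℝ) : Monotone (fun J => ENNReal.ofReal (gs J z)) := by
  apply monotone_nat_of_le_succ
  intro J
  rcases le_total 0 (qq z) with h | h
  · apply ENNReal.ofReal_le_ofReal
    unfold gs
    rw [Finset.sum_range_succ]
    have : 0 ≤ (2:ℝ) * (1 / (2 * J + 1)) * (qq z) ^ (2 * J + 1) := by positivity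
    linarith
  · rw [ENNReal.ofReal_of_nonpos (gs_nonpos h J)]
    exact zero_le

lemma mono_neg (z : ℝ × ℝ) : Monotone (fun J => ENNReal.ofReal (-(gs J z))) := by
  apply monotone_nat_of_le_succ
  intro J
  rcases le_total 0 (qq z) with h | h
  · rw [ENNReal.ofReal_of_nonpos (by linarith [gs_nonneg h J])]
    exact zero_le
  · apply ENNReal.ofReal_le_ofReal
    unfold gs
    rw [Finset.sum_range_succ]
    have : (2:ℝ) * (1 / (2 * J + 1)) * (qq z) ^ (2 * J + 1) ≤ 0 := by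
      apply mul_nonpos_of_nonneg_of_nonpos (by positivity)
      exact Odd.pow_nonpos (by exact ⟨J, rfl⟩) h
    linarith

lemma tendsto_gs {x y : ℝ} (hx : x ≠ 0) (hy : y ≠ 0) (h1 : x ≠ y) (h2 : x ≠ -y) :
    Tendsto (fun J => gs J (x, y)) atTop (𝓝 (Real.log |x + y| - Real.log |x - y|)) := by
  have hxy : x * y ≠ 0 := mul_ne_zero hx hy
  have hne : x ^ 2 ≠ y ^ 2 := by
    intro h
    rcases sq_eq_sq_iff_eq_or_eq_neg.1 h with h | h
    · exact h1 h
    · exact h2 h
  have hs : x + y ≠ 0 := fun h => h2 (by linarith)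
  have hd : x - y ≠ 0 := fun h => h1 (by linarith)
  have hq : |qq (x, y)| < 1 := by
    refine lt_of_le_of_ne (abs_qq_le _) ?_
    intro h
    have h3 : (qq (x, y)) ^ 2 = 1 := by rw [← sq_abs, h, one_pow]
    unfold qq at h3
    simp only at h3
    rw [div_pow, div_eq_one_iff_eq (by positivity), mul_pow] at h3
    rcases le_total (x ^ 2) (y ^ 2) with hle | hle
    · rw [min_eq_left hle] at h3
      apply hne
      have hx2 : x ^ 2 ≠ 0 := by positivity
      apply mul_left_cancel₀ hx2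
      rw [← h3]; ring
    · rw [min_eq_right hle] at h3
      apply hne
      have hy2 : y ^ 2 ≠ 0 := by positivity
      apply mul_right_cancel₀ hy2
      rw [← h3]; ring
  have hsum := (Real.hasSum_log_sub_log_of_abs_lt_one hq).tendsto_sum_nat
  have hlim : Real.log (1 + qq (x, y)) - Real.log (1 - qq (x, y))
      = Real.log |x + y| - Real.log |x - y| := by
    have hq1 : 0 < 1 + qq (x, y) := by linarith [(abs_lt.1 hq).1]
    have hq2 : 0 < 1 - qq (x, y) := by linarith [(abs_lt.1 hq).2]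
    rw [← Real.log_div hq1.ne' hq2.ne', ← Real.log_div (abs_ne_zero.2 hs) (abs_ne_zero.2 hd),
      ← abs_div]
    have e : (1 + qq (x, y)) / (1 - qq (x, y)) = |(x + y) / (x - y)| := by
      have hpos : 0 < (1 + qq (x, y)) / (1 - qq (x, y)) := div_pos hq1 hq2
      rw [← abs_of_pos hpos]
      have hq3 : 1 - qq (x, y) ≠ 0 := hq2.ne'
      unfold qq at hq3 ⊢
      simp only at hq3 ⊢
      rcases le_total (x ^ 2) (y ^ 2) with hle | hle
      · rw [min_eq_left hle] at hq3 ⊢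
        have e1 : (1 + x ^ 2 / (x * y)) / (1 - x ^ 2 / (x * y)) = -((x + y) / (x - y)) := by
          rw [← neg_div, div_eq_div_iff hq3 hd]
          field_simp
          ring
        rw [e1, abs_neg]
      · rw [min_eq_right hle] at hq3 ⊢
        have e1 : (1 + y ^ 2 / (x * y)) / (1 - y ^ 2 / (x * y)) = (x + y) / (x - y) := by
          rw [div_eq_div_iff hq3 hd]
          field_simp
        rw [e1]
    rw [e]
  rw [← hlim]
  exact hsum

lemma gs_antidiag {x : ℝ} (hx : x ≠ 0) : Tendsto (fun J => -(gs J (x, -x))) atTop atTop := by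
  have hq : qq (x, -x) = -1 := by
    unfold qq
    simp only
    rw [neg_sq, min_self]
    field_simp
  have e : ∀ J, -(gs J (x, -x)) = ∑ n ∈ Finset.range J, (2:ℝ) * (1 / (2 * n + 1)) := by
    intro J
    unfold gs
    rw [← Finset.sum_neg_distrib]
    apply Finset.sum_congr rfl
    intro n _
    rw [hq, Odd.neg_one_pow ⟨n, rfl⟩]
    ring
  simp_rw [e]
  apply tendsto_atTop_mono _ Real.tendsto_sum_range_one_div_nat_succ_atTop
  intro J
  apply Finset.sum_le_sum
  intro n _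
  rw [mul_one_div, div_le_div_iff₀ (by positivity) (by positivity)]
  have : (0:ℝ) ≤ n := Nat.cast_nonneg n
  linarith

def Dp (z : ℝ × ℝ) : ENNReal := ⨆ J, ENNReal.ofReal (gs J z)
def Dm (z : ℝ × ℝ) : ENNReal := ⨆ J, ENNReal.ofReal (-(gs J z))

lemma Dp_eq {x y : ℝ} (hx : x ≠ 0) (hy : y ≠ 0) (h1 : x ≠ y) (h2 : x ≠ -y) :
    Dp (x, y) = ENNReal.ofReal (Real.log |x + y| - Real.log |x - y|) := by
  apply iSup_eq_of_tendsto (mono_pos _)
  exact (ENNReal.continuous_ofReal.tendsto _).comp (tendsto_gs hx hy h1 h2)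

lemma Dm_eq {x y : ℝ} (hx : x ≠ 0) (hy : y ≠ 0) (h1 : x ≠ y) (h2 : x ≠ -y) :
    Dm (x, y) = ENNReal.ofReal (-(Real.log |x + y| - Real.log |x - y|)) := by
  apply iSup_eq_of_tendsto (mono_neg _)
  exact (ENNReal.continuous_ofReal.tendsto _).comp (tendsto_gs hx hy h1 h2).neg

lemma Dm_antidiag {x : ℝ} (hx : x ≠ 0) : Dm (x, -x) = ⊤ := by
  apply iSup_eq_of_tendsto (mono_neg _)
  exact ENNReal.tendsto_ofReal_atTop.comp (gs_antidiag hx)

lemma Dp_antidiag {x : ℝ} (hx : x ≠ 0) : Dp (x, -x) = 0 := by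
  have hq : qq (x, -x) ≤ 0 := by
    have : qq (x, -x) = -1 := by
      unfold qq
      simp only
      rw [neg_sq, min_self]
      field_simp
    linarith
  unfold Dp
  simp only [ENNReal.iSup_eq_zero]
  intro J
  exact ENNReal.ofReal_of_nonpos (gs_nonpos hq J)

lemma log2_nonneg {t : ℝ} (h0 : t ≠ 0) (ht : |t| ≤ 2) : 0 ≤ Real.log (2 / |t|) := by
  apply Real.log_nonneg
  rw [le_div_iff₀ (abs_pos.2 h0)]
  linarith

lemma pt_ineq {x y : ℝ} (hx : x ≠ 0) (hy : y ≠ 0) (hx1 : |x| ≤ 1) (hy1 : |y| ≤ 1) :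
    ker x (-y) + Dp (x, y) ≤ ker x y + Dm (x, y) := by
  by_cases h1 : x = y
  · have : ker x y = ⊤ := by unfold ker; rw [if_pos h1]
    rw [this, top_add]
    exact le_top
  by_cases h2 : x = -y
  · have hyx : y = -x := by linarith
    rw [hyx, Dm_antidiag hx, add_top]
    exact le_top
  rw [Dp_eq hx hy h1 h2, Dm_eq hx hy h1 h2]
  unfold ker
  rw [if_neg h1, if_neg h2, sub_neg_eq_add]
  have hs : x + y ≠ 0 := fun h => h2 (by linarith)
  have hd : x - y ≠ 0 := fun h => h1 (by linarith)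
  have hs2 : |x + y| ≤ 2 := (abs_add_le _ _).trans (by linarith)
  have hd2 : |x - y| ≤ 2 := (abs_sub _ _).trans (by linarith)
  have k1 := log2_nonneg hs hs2
  have k2 := log2_nonneg hd hd2
  rw [Real.log_div (by norm_num) (abs_ne_zero.2 hs)] at k1 ⊢
  rw [Real.log_div (by norm_num) (abs_ne_zero.2 hd)] at k2 ⊢
  rcases le_total 0 (Real.log |x + y| - Real.log |x - y|) with h | h
  · rw [← ENNReal.ofReal_add k1 h]
    refine le_trans (le_of_eq ?_) le_self_add
    congr 1; ring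
  · rw [ENNReal.ofReal_of_nonpos h, add_zero, ← ENNReal.ofReal_add k2 (by linarith)]
    apply le_of_eq
    congr 1; ring

lemma Dp_le_ker {x y : ℝ} (hx : x ≠ 0) (hy : y ≠ 0) (hx1 : |x| ≤ 1) (hy1 : |y| ≤ 1) :
    Dp (x, y) ≤ ker x y := by
  by_cases h1 : x = y
  · have : ker x y = ⊤ := by unfold ker; rw [if_pos h1]
    rw [this]
    exact le_top
  by_cases h2 : x = -y
  · have hyx : y = -x := by linarith
    rw [hyx, Dp_antidiag hx]
    exact zero_le
  rw [Dp_eq hx hy h1 h2]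
  unfold ker
  rw [if_neg h1]
  have hs : x + y ≠ 0 := fun h => h2 (by linarith)
  have hd : x - y ≠ 0 := fun h => h1 (by linarith)
  have hs2 : |x + y| ≤ 2 := (abs_add_le _ _).trans (by linarith)
  have k1 := log2_nonneg hs hs2
  rw [Real.log_div (by norm_num) (abs_ne_zero.2 hs)] at k1
  rw [Real.log_div (by norm_num) (abs_ne_zero.2 hd)]
  apply ENNReal.ofReal_le_ofReal
  linarith

theorem pos_def {ν : Measure ℝ} [IsFiniteMeasure ν] {c : ℝ} (hc : 0 < c)
    (h : ∀ᵐ x ∂ν, c ≤ |x| ∧ |x| ≤ 1) :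
    ∫⁻ z, ker z.1 (-z.2) ∂(ν.prod ν) ≤ ∫⁻ z, ker z.1 z.2 ∂(ν.prod ν) := by
  have hae := ae_prod_of h
  have mDp : Measurable Dp := Measurable.iSup fun J => (measurable_gs J).ennreal_ofReal
  have mDm : Measurable Dm := Measurable.iSup fun J => (measurable_gs J).neg.ennreal_ofReal
  have hnz : ∀ {x : ℝ}, c ≤ |x| → x ≠ 0 := by
    intro x hx hx0
    rw [hx0, abs_zero] at hx
    linarith
  have hD : ∫⁻ z, Dm z ∂(ν.prod ν) ≤ ∫⁻ z, Dp z ∂(ν.prod ν) := by
    unfold Dm Dp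
    have m1 : ∀ J, Measurable (fun z => ENNReal.ofReal (-(gs J z))) :=
      fun J => (measurable_gs J).neg.ennreal_ofReal
    have m2 : ∀ J, Measurable (fun z => ENNReal.ofReal (gs J z)) :=
      fun J => (measurable_gs J).ennreal_ofReal
    rw [lintegral_iSup m1, lintegral_iSup m2]
    · exact iSup_mono fun J => lint_gs hc h J
    · intro i j hij z
      exact mono_pos z hij
    · intro i j hij z
      exact mono_neg z hij
  have h1 : ∫⁻ z, ker z.1 (-z.2) ∂(ν.prod ν) + ∫⁻ z, Dp z ∂(ν.prod ν)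
      ≤ ∫⁻ z, ker z.1 z.2 ∂(ν.prod ν) + ∫⁻ z, Dm z ∂(ν.prod ν) := by
    rw [← lintegral_add_left measurable_ker_neg, ← lintegral_add_left measurable_ker]
    apply lintegral_mono_ae
    filter_upwards [hae] with z hz
    exact pt_ineq (hnz hz.1.1) (hnz hz.2.1) hz.1.2 hz.2.2
  by_cases htop : ∫⁻ z, Dp z ∂(ν.prod ν) = ⊤
  · have h2 : ∫⁻ z, Dp z ∂(ν.prod ν) ≤ ∫⁻ z, ker z.1 z.2 ∂(ν.prod ν) := by
      apply lintegral_mono_ae
      filter_upwards [hae] with z hz
      exact Dp_le_ker (hnz hz.1.1) (hnz hz.2.1) hz.1.2 hz.2.2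
    rw [htop, top_le_iff] at h2
    rw [h2]
    exact le_top
  · have h3 := h1.trans (add_le_add_right hD _)
    exact (ENNReal.add_le_add_iff_right htop).1 h3

end

end Pool.Agent.Helper973.KG
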