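import Mathlib
import Pool.Agent.Helper973.KGd
import Pool.Agent.Helper973.KGe

set_option autoImplicit false
open MeasureTheory Filter Topology

namespace Pool.Agent.Helper973.KG

noncomputable section

def En (ν : Measure ℝ) : ENNReal := ∫⁻ z, ker z.1 z.2 ∂(ν.prod ν)

lemma cont_fq (G : ℝ) : Continuous (fq G) := by
  unfold fq
  fun_prop

lemma ker_add {G x y : ℝ} (hG : 2 < G) (hx : |x| ≤ 1) (hy : |y| ≤ 1) (hfx : |fq G x| ≤ 1)
    (hfy : |fq G y| ≤ 1) :
    ker (fq G x) (fq G y) + ENNReal.ofReal (Real.log (2 * G)) = ker x y + ker x (-y) := by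
  by_cases h1 : x = y
  · have e1 : ker x y = ⊤ := by unfold ker; rw [if_pos h1]
    have e2 : ker (fq G x) (fq G y) = ⊤ := by unfold ker; rw [if_pos (by rw [h1])]
    rw [e1, e2, top_add, top_add]
  by_cases h2 : x = -y
  · have e1 : ker x (-y) = ⊤ := by unfold ker; rw [if_pos h2]
    have e2 : ker (fq G x) (fq G y) = ⊤ := by
      unfold ker; rw [if_pos]; rw [h2]; unfold fq; ring
    rw [e1, e2, top_add, add_top]
  have hs : x + y ≠ 0 := fun h => h2 (by linarith)
  have hd : x - y ≠ 0 := fun h => h1 (by linarith)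
  have hff : fq G x - fq G y = G * (x - y) * (x + y) := by unfold fq; ring
  have hG0 : 0 < G := by linarith
  have hfd : fq G x - fq G y ≠ 0 := by
    rw [hff]
    exact mul_ne_zero (mul_ne_zero hG0.ne' hd) hs
  have hs2 : |x + y| ≤ 2 := (abs_add_le _ _).trans (by linarith)
  have hd2 : |x - y| ≤ 2 := (abs_sub _ _).trans (by linarith)
  have hf2 : |fq G x - fq G y| ≤ 2 := (abs_sub _ _).trans (by linarith)
  have k1 := log2_nonneg hs hs2
  have k2 := log2_nonneg hd hd2
  have k3 := log2_nonneg hfd hf2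
  have k4 : 0 ≤ Real.log (2 * G) := Real.log_nonneg (by linarith)
  unfold ker
  rw [if_neg h1, if_neg h2, if_neg (sub_ne_zero.1 hfd), sub_neg_eq_add,
    ← ENNReal.ofReal_add k3 k4, ← ENNReal.ofReal_add k2 k1]
  congr 1
  rw [← Real.log_mul (by positivity) (by positivity), ← Real.log_mul (by positivity) (by positivity)]
  congr 1
  rw [hff, abs_mul, abs_mul, abs_of_pos hG0]
  have a1 : |x - y| ≠ 0 := abs_ne_zero.2 hd
  have a2 : |x + y| ≠ 0 := abs_ne_zero.2 hs
  field_simp

lemma En_map (ν : Measure ℝ) [IsFiniteMeasure ν] (f : ℝ → ℝ) (hf : Measurable f) :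
    En (ν.map f) = ∫⁻ z, ker (f z.1) (f z.2) ∂(ν.prod ν) := by
  unfold En
  rw [Measure.map_prod_map ν ν hf hf, lintegral_map measurable_ker (hf.prodMap hf)]
  rfl

lemma En_sum (ν : Measure ℝ) [IsProbabilityMeasure ν] {G : ℝ} (hG : 2 < G)
    (h : ∀ᵐ x ∂ν, |x| ≤ 1 ∧ |fq G x| ≤ 1) :
    En (ν.map (fq G)) + ENNReal.ofReal (Real.log (2 * G))
      = En ν + ∫⁻ z, ker z.1 (-z.2) ∂(ν.prod ν) := by
  have e1 : ENNReal.ofReal (Real.log (2 * G))
      = ∫⁻ _z : ℝ × ℝ, ENNReal.ofReal (Real.log (2 * G)) ∂(ν.prod ν) := by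
    rw [lintegral_const, measure_univ, mul_one]
  have m1 : Measurable (fun z : ℝ × ℝ => ker (fq G z.1) (fq G z.2)) := by
    have hc := (cont_fq G).measurable
    exact measurable_ker.comp ((hc.comp measurable_fst).prodMk (hc.comp measurable_snd))
  rw [En_map ν _ (cont_fq G).measurable, e1, ← lintegral_add_left m1]
  unfold En
  rw [← lintegral_add_left measurable_ker]
  apply lintegral_congr_ae
  filter_upwards [ae_prod_of h] with z hz
  exact ker_add hG hz.1.1 hz.2.1 hz.1.2 hz.2.2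

lemma lower_step (ν : Measure ℝ) [IsProbabilityMeasure ν] {G : ℝ} (hG : 2 < G)
    (h : ∀ᵐ x ∂ν, |x| ≤ 1 ∧ |fq G x| ≤ 1) :
    En (ν.map (fq G)) + ENNReal.ofReal (Real.log (2 * G)) ≤ 2 * En ν := by
  rw [En_sum ν hG h, two_mul]
  gcongr
  have hc : 0 < √(1 - 2 / G) := by
    apply Real.sqrt_pos.2
    have : 2 / G < 1 := by
      rw [div_lt_one (by linarith)]; exact hG
    linarith
  apply pos_def hc
  filter_upwards [h] with x hx
  refine ⟨?_, hx.1⟩
  rw [← Real.sqrt_sq_eq_abs]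
  apply Real.sqrt_le_sqrt
  have h1 := (abs_le.1 hx.2).1
  unfold fq at h1
  have hG0 : 0 < G := by linarith
  have : 2 / G = 2 * (1 / G) := by ring
  have h3 : G * (1 / G) = 1 := by field_simp
  nlinarith

def Fk (G : ℕ → ℝ) : ℕ → ℕ → ℝ → ℝ
  | _, 0, x => x
  | k, j + 1, x => Fk G (k + 1) j (fq (G k) x)

lemma cont_Fk (G : ℕ → ℝ) (j : ℕ) : ∀ k, Continuous (Fk G k j) := by
  induction j with
  | zero => intro k; exact continuous_id
  | succ j ih => intro k; exact (ih (k + 1)).comp (cont_fq (G k))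

def Vn (G : ℕ → ℝ) : ℕ → ℕ → ℝ
  | _, 0 => 0
  | k, n + 1 => (Real.log (2 * G k) + Vn G (k + 1) n) / 2

lemma Vn_nonneg (G : ℕ → ℝ) (hG : ∀ k, 2 < G k) (n : ℕ) : ∀ k, 0 ≤ Vn G k n := by
  induction n with
  | zero => intro k; exact le_rfl
  | succ n ih =>
    intro k
    have h1 : 0 ≤ Real.log (2 * G k) := Real.log_nonneg (by linarith [hG k])
    have h2 := ih (k + 1)
    show 0 ≤ (Real.log (2 * G k) + Vn G (k + 1) n) / 2
    linarith

theorem En_lower (G : ℕ → ℝ) (hG : ∀ k, 2 < G k) (n : ℕ) : ∀ k, ∀ ν : Measure ℝ,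
    IsProbabilityMeasure ν → (∀ᵐ x ∂ν, ∀ j, |Fk G k j x| ≤ 1) →
    ENNReal.ofReal (Vn G k n) ≤ En ν := by
  induction n with
  | zero =>
    intro k ν _ _
    show ENNReal.ofReal 0 ≤ _
    rw [ENNReal.ofReal_zero]; exact zero_le
  | succ n ih =>
    intro k ν hν h
    have hm := (cont_fq (G k)).measurable
    have hp : IsProbabilityMeasure (ν.map (fq (G k))) :=
      Measure.isProbabilityMeasure_map hm.aemeasurable
    have hms : MeasurableSet {x | ∀ j, |Fk G (k + 1) j x| ≤ 1} := by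
      have : {x | ∀ j, |Fk G (k + 1) j x| ≤ 1} = ⋂ j, {x | |Fk G (k + 1) j x| ≤ 1} := by
        ext x; simp
      rw [this]
      apply MeasurableSet.iInter
      intro j
      exact measurableSet_le (cont_Fk G j (k + 1)).abs.measurable measurable_const
    have h1 := ih (k + 1) (ν.map (fq (G k))) hp (by
      rw [ae_map_iff hm.aemeasurable hms]
      filter_upwards [h] with x hx j
      exact hx (j + 1))
    have h2 := lower_step ν (hG k) (by
      filter_upwards [h] with x hx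
      exact ⟨hx 0, hx 1⟩)
    have h3 : 0 ≤ Real.log (2 * G k) := Real.log_nonneg (by linarith [hG k])
    have h4 := Vn_nonneg G hG n (k + 1)
    have h5 : ENNReal.ofReal (Real.log (2 * G k) + Vn G (k + 1) n) ≤ 2 * En ν := by
      rw [ENNReal.ofReal_add h3 h4, add_comm]
      exact (add_le_add_left h1 _).trans h2
    show ENNReal.ofReal ((Real.log (2 * G k) + Vn G (k + 1) n) / 2) ≤ En ν
    rw [ENNReal.ofReal_div_of_pos (by norm_num), ENNReal.ofReal_ofNat]
    rw [ENNReal.div_le_iff (by norm_num) (by norm_num), mul_comm (En ν) 2]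
    exact h5

/-! existence -/

def gpl (G y : ℝ) : ℝ := √((y + G - 1) / G)

lemma meas_gpl (G : ℝ) : Measurable (gpl G) := by
  unfold gpl
  fun_prop

def gmi (G y : ℝ) : ℝ := -gpl G y

lemma meas_gmi (G : ℝ) : Measurable (gmi G) := (meas_gpl G).neg

def Pm (G : ℝ) (ν : Measure ℝ) : Measure ℝ :=
  (2⁻¹ : ENNReal) • (ν.map (gpl G) + ν.map (gmi G))

lemma Pm_prob (G : ℝ) (ν : Measure ℝ) [IsProbabilityMeasure ν] : IsProbabilityMeasure (Pm G ν) := by
  constructor
  unfold Pm
  rw [Measure.smul_apply, Measure.add_apply, Measure.map_apply (meas_gpl G) MeasurableSet.univ,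
    Measure.map_apply (meas_gmi G) MeasurableSet.univ]
  simp only [Set.preimage_univ, measure_univ, smul_eq_mul]
  rw [one_add_one_eq_two, ENNReal.inv_mul_cancel (by norm_num) (by norm_num)]

lemma Pm_neg (G : ℝ) (ν : Measure ℝ) : (Pm G ν).map (fun x => -x) = Pm G ν := by
  have hneg : Measurable (fun x : ℝ => -x) := measurable_neg
  unfold Pm
  rw [Measure.map_smul, Measure.map_add _ _ hneg,
    Measure.map_map hneg (meas_gpl G), Measure.map_map hneg (meas_gmi G)]
  have e1 : (fun x : ℝ => -x) ∘ gpl G = gmi G := rfl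
  have e2 : (fun x : ℝ => -x) ∘ gmi G = gpl G := by
    funext y
    show -(-gpl G y) = gpl G y
    rw [neg_neg]
  rw [e1, e2, add_comm]

lemma fq_gpl {G y : ℝ} (hG : 2 < G) (hy : -1 ≤ y) : fq G (gpl G y) = y := by
  unfold fq gpl
  rw [Real.sq_sqrt (div_nonneg (by linarith) (by linarith))]
  have : G ≠ 0 := by linarith
  field_simp
  ring

lemma gpl_le {G y : ℝ} (hG : 2 < G) (hy : y ≤ 1) : |gpl G y| ≤ 1 := by
  unfold gpl
  rw [abs_of_nonneg (Real.sqrt_nonneg _)]
  apply Real.sqrt_le_iff.2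
  refine ⟨by norm_num, ?_⟩
  rw [div_le_iff₀ (by linarith)]
  linarith

lemma Pm_fq {G : ℝ} (hG : 2 < G) (ν : Measure ℝ) (h : ∀ᵐ y ∂ν, |y| ≤ 1) :
    (Pm G ν).map (fq G) = ν := by
  have hm := (cont_fq G).measurable
  unfold Pm
  rw [Measure.map_smul, Measure.map_add _ _ hm, Measure.map_map hm (meas_gpl G),
    Measure.map_map hm (meas_gmi G)]
  have e1 : Measure.map (fq G ∘ gpl G) ν = ν := by
    have : fq G ∘ gpl G =ᵐ[ν] id := by
      filter_upwards [h] with y hy
      exact fq_gpl hG (abs_le.1 hy).1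
    rw [Measure.map_congr this, Measure.map_id]
  have e2 : Measure.map (fq G ∘ gmi G) ν = ν := by
    have : (fq G ∘ gmi G) =ᵐ[ν] id := by
      filter_upwards [h] with y hy
      have h1 := fq_gpl hG (abs_le.1 hy).1
      have h2 : fq G (-gpl G y) = fq G (gpl G y) := by
        unfold fq
        rw [neg_sq]
      show fq G (-gpl G y) = y
      rw [h2, h1]
    rw [Measure.map_congr this, Measure.map_id]
  rw [e1, e2, ← two_smul ENNReal ν, smul_smul, ENNReal.inv_mul_cancel (by norm_num) (by norm_num),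
    one_smul]

lemma Pm_supp {G : ℝ} (hG : 2 < G) (ν : Measure ℝ) (h : ∀ᵐ y ∂ν, |y| ≤ 1) :
    ∀ᵐ y ∂(Pm G ν), |y| ≤ 1 := by
  unfold Pm
  apply Measure.ae_smul_measure
  rw [ae_add_measure_iff]
  have hms : MeasurableSet {x : ℝ | |x| ≤ 1} :=
    measurableSet_le continuous_abs.measurable measurable_const
  constructor
  · rw [ae_map_iff (meas_gpl G).aemeasurable hms]
    filter_upwards [h] with y hy
    exact gpl_le hG (abs_le.1 hy).2
  · rw [ae_map_iff (meas_gmi G).aemeasurable hms]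
    filter_upwards [h] with y hy
    show |(-gpl G y)| ≤ 1
    rw [abs_neg]
    exact gpl_le hG (abs_le.1 hy).2

lemma Pm_En {G : ℝ} (hG : 2 < G) (ν : Measure ℝ) [IsProbabilityMeasure ν]
    (h : ∀ᵐ y ∂ν, |y| ≤ 1) :
    2 * En (Pm G ν) = En ν + ENNReal.ofReal (Real.log (2 * G)) := by
  have := Pm_prob G ν
  have hf := Pm_fq hG ν h
  have hsupp := Pm_supp hG ν h
  have h1 : ∀ᵐ x ∂(Pm G ν), |x| ≤ 1 ∧ |fq G x| ≤ 1 := by
    have hms : MeasurableSet {x : ℝ | |x| ≤ 1} :=
      measurableSet_le continuous_abs.measurable measurable_const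
    have : ∀ᵐ x ∂(Pm G ν), |fq G x| ≤ 1 := by
      rw [← hf, ae_map_iff (cont_fq G).measurable.aemeasurable hms] at h
      exact h
    filter_upwards [hsupp, this] with x a b
    exact ⟨a, b⟩
  have h2 := En_sum (Pm G ν) hG h1
  rw [hf] at h2
  rw [h2, two_mul]
  congr 1
  have hneg : Measurable (fun x : ℝ => -x) := measurable_neg
  have e : (Pm G ν).prod (Pm G ν) = ((Pm G ν).prod (Pm G ν)).map (Prod.map id (fun x => -x)) := by
    rw [← Measure.map_prod_map _ _ measurable_id hneg, Measure.map_id, Pm_neg]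
  unfold En
  conv_lhs => rw [e]
  rw [lintegral_map measurable_ker (measurable_id.prodMap hneg)]
  rfl

end

end Pool.Agent.Helper973.KG
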