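import Mathlib
import Pool.Agent.Helper973.KGf

set_option autoImplicit false
open MeasureTheory Filter Topology
open scoped NNReal ENNReal

namespace Pool.Agent.Helper973.KG

noncomputable section

def bm : Measure ℝ := (2⁻¹ : ENNReal) • volume.restrict (Set.Icc (-1:ℝ) 1)

lemma bm_prob : IsProbabilityMeasure bm := by
  constructor
  unfold bm
  rw [Measure.smul_apply, Measure.restrict_apply MeasurableSet.univ, Set.univ_inter,
    Real.volume_Icc, smul_eq_mul]
  norm_num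
  exact ENNReal.inv_mul_cancel (by norm_num) (by norm_num)

lemma bm_supp : ∀ᵐ y ∂bm, |y| ≤ 1 := by
  unfold bm
  apply Measure.ae_smul_measure
  rw [ae_restrict_iff' measurableSet_Icc]
  refine Filter.Eventually.of_forall fun y hy => ?_
  exact abs_le.2 hy

def Kf (u : ℝ) : ENNReal := if u = 0 then ⊤ else ENNReal.ofReal (Real.log (2 / |u|))

lemma ker_eq_Kf (x y : ℝ) : ker x y = Kf (x - y) := by
  unfold ker Kf
  by_cases h : x = y
  · rw [if_pos h, if_pos (sub_eq_zero.2 h)]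
  · rw [if_neg h, if_neg (sub_ne_zero.2 h)]

lemma measurable_Kf : Measurable Kf := by
  unfold Kf
  apply Measurable.ite
  · exact measurableSet_eq
  · exact measurable_const
  · fun_prop

lemma Kf_int : ∫⁻ u in Set.Icc (-2:ℝ) 2, Kf u < ⊤ := by
  have h1 : ∫⁻ u in Set.Icc (-2:ℝ) 2, Kf u
      = ∫⁻ u in Set.Icc (-2:ℝ) 2, ENNReal.ofReal (Real.log 2 - Real.log u) := by
    apply lintegral_congr_ae
    have h0 : ∀ᵐ u ∂(volume.restrict (Set.Icc (-2:ℝ) 2)), u ≠ 0 := by
      apply ae_restrict_of_ae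
      rw [ae_iff]
      simp
    filter_upwards [h0] with u hu
    unfold Kf
    rw [if_neg hu, Real.log_div (by norm_num) (abs_ne_zero.2 hu), Real.log_abs]
  rw [h1]
  have h2 : IntervalIntegrable Real.log volume (-2) 2 := intervalIntegral.intervalIntegrable_log'
  have h3 : IntegrableOn (fun u => Real.log 2 - Real.log u) (Set.Icc (-2:ℝ) 2) := by
    have h4 : IntegrableOn Real.log (Set.Icc (-2:ℝ) 2) := by
      rw [integrableOn_Icc_iff_integrableOn_Ioc]
      exact (intervalIntegrable_iff_integrableOn_Ioc_of_le (by norm_num)).1 h2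
    exact (integrableOn_const (by simp)).sub h4
  exact h3.lintegral_lt_top

lemma En_bm : En bm < ⊤ := by
  have := bm_prob
  unfold En
  rw [lintegral_prod _ measurable_ker.aemeasurable]
  have h1 : ∀ᵐ x ∂bm, ∫⁻ y, ker x y ∂bm ≤ ∫⁻ u in Set.Icc (-2:ℝ) 2, Kf u := by
    filter_upwards [bm_supp] with x hx
    have e1 : ∫⁻ y, ker x y ∂bm = 2⁻¹ * ∫⁻ y in Set.Icc (-1:ℝ) 1, Kf (x - y) := by
      unfold bm
      rw [lintegral_smul_measure, smul_eq_mul]
      simp_rw [ker_eq_Kf]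
    have e2 : ∫⁻ y in Set.Icc (-1:ℝ) 1, Kf (x - y) ≤ ∫⁻ u in Set.Icc (-2:ℝ) 2, Kf u := by
      rw [← lintegral_indicator measurableSet_Icc, ← lintegral_indicator measurableSet_Icc,
        ← lintegral_sub_left_eq_self (fun u => (Set.Icc (-2:ℝ) 2).indicator Kf u) x]
      apply lintegral_mono
      intro y
      show (Set.Icc (-1:ℝ) 1).indicator (fun y => Kf (x - y)) y ≤
        (Set.Icc (-2:ℝ) 2).indicator Kf (x - y)
      by_cases hy : y ∈ Set.Icc (-1:ℝ) 1
      · rw [Set.indicator_of_mem hy, Set.indicator_of_mem]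
        have := abs_le.1 hx
        constructor
        · linarith [hy.1, hy.2, this.1, this.2]
        · linarith [hy.1, hy.2, this.1, this.2]
      · rw [Set.indicator_of_notMem hy]; exact zero_le
    rw [e1]
    calc 2⁻¹ * ∫⁻ y in Set.Icc (-1:ℝ) 1, Kf (x - y)
        ≤ 1 * ∫⁻ u in Set.Icc (-2:ℝ) 2, Kf u := by
          gcongr
          exact ENNReal.inv_le_one.2 (by norm_num)
      _ = _ := one_mul _
  calc ∫⁻ x, ∫⁻ y, ker x y ∂bm ∂bm ≤ ∫⁻ _x, (∫⁻ u in Set.Icc (-2:ℝ) 2, Kf u) ∂bm :=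
        lintegral_mono_ae h1
    _ = ∫⁻ u in Set.Icc (-2:ℝ) 2, Kf u := by
        rw [lintegral_const, measure_univ, mul_one]
    _ < ⊤ := Kf_int

def Mn (G : ℕ → ℝ) : ℕ → ℕ → ProbabilityMeasure ℝ
  | 0, _ => ⟨bm, bm_prob⟩
  | n + 1, k => ⟨Pm (G k) (Mn G n (k + 1) : Measure ℝ), Pm_prob (G k) _⟩

lemma Mn_succ (G : ℕ → ℝ) (n k : ℕ) :
    ((Mn G (n + 1) k : ProbabilityMeasure ℝ) : Measure ℝ) = Pm (G k) (Mn G n (k + 1) : Measure ℝ) :=
  rfl

lemma Mn_supp (G : ℕ → ℝ) (hG : ∀ k, 2 < G k) (n : ℕ) : ∀ k,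
    ∀ᵐ y ∂(Mn G n k : Measure ℝ), |y| ≤ 1 := by
  induction n with
  | zero => intro k; exact bm_supp
  | succ n ih =>
    intro k
    rw [Mn_succ]
    exact Pm_supp (hG k) _ (ih (k + 1))

lemma Mn_En (G : ℕ → ℝ) (hG : ∀ k, 2 < G k) (n : ℕ) : ∀ k,
    En (Mn G n k : Measure ℝ) ≤ ENNReal.ofReal (Vn G k n) + En bm / 2 ^ n := by
  induction n with
  | zero =>
    intro k
    simp only [pow_zero, div_one]
    exact le_add_self
  | succ n ih =>
    intro k
    have h1 := Pm_En (hG k) (Mn G n (k + 1) : Measure ℝ) (Mn_supp G hG n (k + 1))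
    rw [Mn_succ]
    have h3 : 0 ≤ Real.log (2 * G k) := Real.log_nonneg (by linarith [hG k])
    have h4 := Vn_nonneg G hG n (k + 1)
    have h5 : 2 * En (Pm (G k) (Mn G n (k + 1) : Measure ℝ)) ≤
        ENNReal.ofReal (Real.log (2 * G k) + Vn G (k + 1) n) + En bm / 2 ^ n := by
      rw [h1, ENNReal.ofReal_add h3 h4]
      calc En (Mn G n (k + 1) : Measure ℝ) + ENNReal.ofReal (Real.log (2 * G k))
          ≤ (ENNReal.ofReal (Vn G (k + 1) n) + En bm / 2 ^ n)
            + ENNReal.ofReal (Real.log (2 * G k)) := by gcongr; exact ih (k + 1)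
        _ = _ := by ring
    have e1 : En (Pm (G k) (Mn G n (k + 1) : Measure ℝ))
        = 2⁻¹ * (2 * En (Pm (G k) (Mn G n (k + 1) : Measure ℝ))) := by
      rw [← mul_assoc, ENNReal.inv_mul_cancel (by norm_num) (by norm_num), one_mul]
    rw [e1]
    refine (mul_le_mul_right h5 2⁻¹).trans (le_of_eq ?_)
    rw [mul_add]
    congr 1
    · show _ = ENNReal.ofReal ((Real.log (2 * G k) + Vn G (k + 1) n) / 2)
      rw [ENNReal.ofReal_div_of_pos (by norm_num), ENNReal.ofReal_ofNat, mul_comm]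
      rfl
    · rw [pow_succ, ENNReal.div_eq_inv_mul, ENNReal.div_eq_inv_mul, ENNReal.mul_inv
        (Or.inr (by norm_num)) (Or.inr (by norm_num))]
      ring

def tk (M : ℕ) (z : ℝ × ℝ) : ℝ≥0 :=
  Real.toNNReal (-Real.log (max (|z.1 - z.2| / 2) (Real.exp (-(M:ℝ)))))

lemma tk_arg_pos (M : ℕ) (z : ℝ × ℝ) : 0 < max (|z.1 - z.2| / 2) (Real.exp (-(M:ℝ))) :=
  lt_max_of_lt_right (Real.exp_pos _)

lemma cont_tk (M : ℕ) : Continuous (tk M) := by
  unfold tk
  apply continuous_real_toNNReal.comp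
  apply Continuous.neg
  apply Continuous.log
  · fun_prop
  · intro z
    exact (tk_arg_pos M z).ne'

lemma tk_le (M : ℕ) (z : ℝ × ℝ) : (tk M z : ℝ) ≤ M := by
  unfold tk
  rw [Real.coe_toNNReal']
  apply max_le _ (Nat.cast_nonneg M)
  have : Real.exp (-(M:ℝ)) ≤ max (|z.1 - z.2| / 2) (Real.exp (-(M:ℝ))) := le_max_right _ _
  have h2 := Real.log_le_log (Real.exp_pos _) this
  rw [Real.log_exp] at h2
  linarith

def tkb (M : ℕ) : BoundedContinuousFunction (ℝ × ℝ) ℝ≥0 :=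
  BoundedContinuousFunction.mkOfBound ⟨tk M, cont_tk M⟩ M (by
    intro x y
    show dist (tk M x) (tk M y) ≤ M
    rw [NNReal.dist_eq, abs_le]
    have h1 := tk_le M x
    have h2 := tk_le M y
    have h3 : (0:ℝ) ≤ tk M x := NNReal.coe_nonneg _
    have h4 : (0:ℝ) ≤ tk M y := NNReal.coe_nonneg _
    constructor <;> linarith)

lemma tk_mono (z : ℝ × ℝ) : Monotone (fun M => (tk M z : ℝ≥0∞)) := by
  intro a b hab
  show (tk a z : ℝ≥0∞) ≤ tk b z
  rw [ENNReal.coe_le_coe]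
  unfold tk
  apply Real.toNNReal_le_toNNReal
  apply neg_le_neg
  apply Real.log_le_log (tk_arg_pos b z)
  apply max_le_max le_rfl
  apply Real.exp_le_exp.2
  have : (a:ℝ) ≤ b := by exact_mod_cast hab
  linarith

lemma tk_le_ker (M : ℕ) (z : ℝ × ℝ) : (tk M z : ℝ≥0∞) ≤ ker z.1 z.2 := by
  unfold ker
  split_ifs with h
  · exact le_top
  · unfold tk
    rw [ENNReal.ofReal]
    rw [ENNReal.coe_le_coe]
    apply Real.toNNReal_le_toNNReal
    have hd : 0 < |z.1 - z.2| / 2 := by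
      have := abs_pos.2 (sub_ne_zero.2 h)
      positivity
    have h1 := Real.log_le_log hd (le_max_left (|z.1 - z.2| / 2) (Real.exp (-(M:ℝ))))
    have h2 : Real.log (2 / |z.1 - z.2|) = -Real.log (|z.1 - z.2| / 2) := by
      rw [← Real.log_inv, inv_div]
    rw [h2]
    linarith

lemma ker_le_iSup (z : ℝ × ℝ) : ker z.1 z.2 ≤ ⨆ M, (tk M z : ℝ≥0∞) := by
  unfold ker
  split_ifs with h
  · rw [top_le_iff]
    apply iSup_eq_of_tendsto (tk_mono z)
    have : ∀ M : ℕ, (tk M z : ℝ≥0∞) = (M : ℝ≥0∞) := by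
      intro M
      unfold tk
      rw [h, sub_self, abs_zero, zero_div, max_eq_right (Real.exp_pos _).le, Real.log_exp, neg_neg,
        Real.toNNReal_natCast]
      rfl
    simp_rw [this]
    exact ENNReal.tendsto_nat_nhds_top
  · obtain ⟨M, hM⟩ := exists_nat_ge (Real.log (2 / |z.1 - z.2|))
    refine le_trans (le_of_eq ?_) (le_iSup _ M)
    unfold tk
    rw [ENNReal.ofReal]
    congr 2
    have hd : 0 < |z.1 - z.2| / 2 := by
      have := abs_pos.2 (sub_ne_zero.2 h)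
      positivity
    have h2 : Real.log (2 / |z.1 - z.2|) = -Real.log (|z.1 - z.2| / 2) := by
      rw [← Real.log_inv, inv_div]
    have h3 : Real.exp (-(M:ℝ)) ≤ |z.1 - z.2| / 2 := by
      rw [← Real.exp_log hd]
      apply Real.exp_le_exp.2
      linarith
    rw [max_eq_left h3, h2]

lemma En_le_of_tendsto {ι : Type*} {F : Filter ι} [F.NeBot] (μs : ι → ProbabilityMeasure ℝ)
    (μ : ProbabilityMeasure ℝ) (h : Tendsto μs F (𝓝 μ)) (b : ι → ℝ≥0∞) (B : ℝ≥0∞)
    (hb : ∀ᶠ i in F, En (μs i : Measure ℝ) ≤ b i) (hB : Tendsto b F (𝓝 B)) :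
    En (μ : Measure ℝ) ≤ B := by
  have hp : Tendsto (fun i => (μs i).prod (μs i)) F (𝓝 (μ.prod μ)) :=
    (ProbabilityMeasure.continuous_prod.tendsto (μ, μ)).comp (h.prodMk_nhds h)
  rw [ProbabilityMeasure.tendsto_iff_forall_lintegral_tendsto] at hp
  have h1 : ∀ M : ℕ, ∫⁻ z, (tk M z : ℝ≥0∞) ∂((μ : Measure ℝ).prod (μ : Measure ℝ)) ≤ B := by
    intro M
    have h2 := hp (tkb M)
    refine le_of_tendsto_of_tendsto h2 hB ?_
    filter_upwards [hb] with i hi
    refine le_trans ?_ hi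
    unfold En
    apply lintegral_mono
    intro z
    exact tk_le_ker M z
  unfold En
  calc ∫⁻ z, ker z.1 z.2 ∂((μ : Measure ℝ).prod (μ : Measure ℝ))
      ≤ ∫⁻ z, ⨆ M, (tk M z : ℝ≥0∞) ∂((μ : Measure ℝ).prod (μ : Measure ℝ)) :=
        lintegral_mono ker_le_iSup
    _ = ⨆ M, ∫⁻ z, (tk M z : ℝ≥0∞) ∂((μ : Measure ℝ).prod (μ : Measure ℝ)) := by
        apply lintegral_iSup
        · intro M
          exact (cont_tk M).measurable.coe_nnreal_ennreal
        · intro a b hab z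
          exact tk_mono z hab
    _ ≤ B := iSup_le h1

theorem exists_meas (G : ℕ → ℝ) (hG : ∀ k, 2 < G k) : ∃ μ : ℕ → ProbabilityMeasure ℝ,
    (∀ k, ∀ᵐ y ∂(μ k : Measure ℝ), |y| ≤ 1) ∧
    (∀ k, (μ k : Measure ℝ).map (fq (G k)) = (μ (k + 1) : Measure ℝ)) ∧
    (∀ k, (μ k : Measure ℝ).map (fun x => -x) = (μ k : Measure ℝ)) ∧
    (∀ B : ℝ≥0∞, (∀ n, ENNReal.ofReal (Vn G 0 n) ≤ B) → En (μ 0 : Measure ℝ) ≤ B) := by
  classical
  have hcomp : IsCompact {μ : ProbabilityMeasure ℝ | ∀ _n : ℕ, μ (Set.Icc (-1:ℝ) 1)ᶜ ≤ (0:ℝ≥0)} :=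
    isCompact_setOfPred_probabilityMeasure_mass_eq_compl_isCompact_le
      (u := fun _ => (0:ℝ≥0)) (K := fun _ => Set.Icc (-1:ℝ) 1) tendsto_const_nhds
      (fun _ => isCompact_Icc) (Or.inl inferInstance)
  have hmem : ∀ n k, ∀ _n : ℕ, (Mn G n k) (Set.Icc (-1:ℝ) 1)ᶜ ≤ (0:ℝ≥0) := by
    intro n k _
    have h1 := Mn_supp G hG n k
    have h2 : (Mn G n k : Measure ℝ) (Set.Icc (-1:ℝ) 1)ᶜ = 0 := by
      rw [ae_iff] at h1
      refine measure_mono_null ?_ h1
      intro y hy hy'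
      exact hy (abs_le.1 hy')
    rw [nonpos_iff_eq_zero]
    rw [ProbabilityMeasure.null_iff_toMeasure_null]
    exact h2
  have hex : ∀ k, ∃ μ : ProbabilityMeasure ℝ,
      (∀ _n : ℕ, μ (Set.Icc (-1:ℝ) 1)ᶜ ≤ (0:ℝ≥0)) ∧
      Tendsto (fun N => Mn G (N - k) k) (hyperfilter ℕ : Filter ℕ) (𝓝 μ) := by
    intro k
    obtain ⟨μ, h1, h2⟩ := hcomp.ultrafilter_le_nhds' ((hyperfilter ℕ).map (fun N => Mn G (N - k) k))
      (by
        rw [Ultrafilter.mem_map]
        exact Filter.Eventually.of_forall fun N => hmem (N - k) k)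
    exact ⟨μ, h1, h2⟩
  choose μ hμ1 hμ2 using hex
  have hsupp : ∀ k, ∀ᵐ y ∂(μ k : Measure ℝ), |y| ≤ 1 := by
    intro k
    have h1 := hμ1 k 0
    rw [nonpos_iff_eq_zero, ProbabilityMeasure.null_iff_toMeasure_null] at h1
    rw [ae_iff]
    refine measure_mono_null ?_ h1
    intro y hy hy'
    exact hy (abs_le.2 hy')
  have hev : ∀ k : ℕ, ∀ᶠ N in (hyperfilter ℕ : Filter ℕ), k + 1 ≤ N := by
    intro k
    have : ∀ᶠ N in (cofinite : Filter ℕ), k + 1 ≤ N := by
      rw [Nat.cofinite_eq_atTop]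
      exact eventually_ge_atTop (k + 1)
    exact this.filter_mono hyperfilter_le_cofinite
  have hneg : Continuous (fun x : ℝ => -x) := continuous_neg
  refine ⟨μ, hsupp, ?_, ?_, ?_⟩
  · intro k
    have t1 := ProbabilityMeasure.tendsto_map_of_tendsto_of_continuous _ _ (hμ2 k) (cont_fq (G k))
    have t2 := hμ2 (k + 1)
    have t3 : Tendsto (fun N => (Mn G (N - k) k).map (cont_fq (G k)).measurable.aemeasurable)
        (hyperfilter ℕ : Filter ℕ) (𝓝 (μ (k + 1))) := by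
      refine t2.congr' ?_
      filter_upwards [hev k] with N hN
      obtain ⟨d, rfl⟩ : ∃ d, N = k + 1 + d := ⟨N - (k + 1), by omega⟩
      have e1 : k + 1 + d - (k + 1) = d := by omega
      have e2 : k + 1 + d - k = d + 1 := by omega
      rw [e1, e2]
      apply Subtype.ext
      exact (Pm_fq (hG k) _ (Mn_supp G hG d (k + 1))).symm
    have := tendsto_nhds_unique t1 t3
    have h2 := congrArg (fun ν : ProbabilityMeasure ℝ => (ν : Measure ℝ)) this
    simpa using h2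
  · intro k
    have t1 := ProbabilityMeasure.tendsto_map_of_tendsto_of_continuous _ _ (hμ2 k) hneg
    have t3 : Tendsto (fun N => (Mn G (N - k) k).map hneg.measurable.aemeasurable)
        (hyperfilter ℕ : Filter ℕ) (𝓝 (μ k)) := by
      refine (hμ2 k).congr' ?_
      filter_upwards [hev k] with N hN
      obtain ⟨d, rfl⟩ : ∃ d, N = k + 1 + d := ⟨N - (k + 1), by omega⟩
      have e2 : k + 1 + d - k = d + 1 := by omega
      rw [e2]
      apply Subtype.ext
      exact (Pm_neg (G k) _).symm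
    have := tendsto_nhds_unique t1 t3
    have h2 := congrArg (fun ν : ProbabilityMeasure ℝ => (ν : Measure ℝ)) this
    simpa using h2
  · intro B hB
    apply En_le_of_tendsto _ _ (hμ2 0) (fun n => B + En bm / 2 ^ (n - 0)) B
    · refine Filter.Eventually.of_forall fun n => ?_
      exact (Mn_En G hG (n - 0) 0).trans (by gcongr; exact hB _)
    · have h1 : Tendsto (fun n : ℕ => En bm / 2 ^ n) atTop (𝓝 0) := by
        have h2 : Tendsto (fun n : ℕ => En bm * (2⁻¹ : ℝ≥0∞) ^ n) atTop (𝓝 (En bm * 0)) := by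
          apply ENNReal.Tendsto.const_mul _ (Or.inr En_bm.ne)
          apply ENNReal.tendsto_pow_atTop_nhds_zero_of_lt_one
          exact ENNReal.inv_lt_one.2 (by norm_num)
        rw [mul_zero] at h2
        refine h2.congr fun n => ?_
        rw [div_eq_mul_inv, ENNReal.inv_pow]
      have h3 : Tendsto (fun n : ℕ => B + En bm / 2 ^ (n - 0)) atTop (𝓝 (B + 0)) := by
        simp only [Nat.sub_zero]
        exact tendsto_const_nhds.add h1
      rw [add_zero] at h3
      refine h3.mono_left ?_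
      rw [← Nat.cofinite_eq_atTop]
      exact hyperfilter_le_cofinite

end

end Pool.Agent.Helper973.KG
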