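import Mathlib
import Pool.Agent.Helper973.KGg

set_option autoImplicit false
open MeasureTheory Filter Topology

namespace Pool.Agent.Helper973.KG

noncomputable section

lemma Gp_le (k : ℕ) : Gp k ≤ 2 ^ (k + 6) := by
  have hb : (3:ℝ) ≤ 2 ^ (k + 6) := by
    rw [pow_add]
    have : (1:ℝ) ≤ 2 ^ k := one_le_pow₀ (by norm_num)
    nlinarith
  unfold Gp
  split_ifs with h1 h2 h3
  · have : (1:ℝ) / 2 ^ 30 ≤ 1 := by norm_num
    linarith
  · have h4 : (1:ℝ) ≤ (2 ^ (Nat.sqrt (k + 35))) ^ 2 := one_le_pow₀ (one_le_pow₀ (by norm_num))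
    have : 1 / (4 * ((2:ℝ) ^ (Nat.sqrt (k + 35))) ^ 2) ≤ 1 := by
      rw [div_le_one (by positivity)]
      linarith
    linarith
  · apply pow_le_pow_right₀ (by norm_num)
    have : Nat.sqrt (k + 35) ≤ Nat.sqrt ((k + 6) * (k + 6)) := Nat.sqrt_le_sqrt (by nlinarith)
    rwa [Nat.sqrt_eq] at this
  · have h4 : (1:ℝ) ≤ (2 ^ (Nat.sqrt (k + 35))) ^ 8 := one_le_pow₀ (one_le_pow₀ (by norm_num))
    have : 1 / (2 ^ 15 * ((2:ℝ) ^ (Nat.sqrt (k + 35))) ^ 8) ≤ 1 := by
      rw [div_le_one (by positivity)]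
      linarith
    linarith

lemma log_Gp_le (k : ℕ) : Real.log (2 * Gp k) ≤ k + 7 := by
  have h0 := two_lt_Gp k
  have h1 : 2 * Gp k ≤ 2 ^ (k + 7) := by
    have := Gp_le k
    rw [pow_succ]
    linarith
  have h2 := Real.log_le_log (by linarith) h1
  rw [Real.log_pow] at h2
  have h3 : Real.log 2 ≤ 1 := by
    have := Real.log_two_lt_d9
    linarith
  have h4 : ((k + 7 : ℕ) : ℝ) * Real.log 2 ≤ ((k + 7 : ℕ) : ℝ) * 1 :=
    mul_le_mul_of_nonneg_left h3 (Nat.cast_nonneg _)
  push_cast at h2 h4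
  linarith

lemma Vn_Gp_le (n : ℕ) : ∀ k, Vn Gp k n ≤ k + 9 := by
  induction n with
  | zero =>
    intro k
    show (0:ℝ) ≤ k + 9
    positivity
  | succ n ih =>
    intro k
    show (Real.log (2 * Gp k) + Vn Gp (k + 1) n) / 2 ≤ k + 9
    have h1 := log_Gp_le k
    have h2 := ih (k + 1)
    push_cast at h2
    linarith

open Polynomial in
def Pl (G : ℕ → ℝ) (k : ℕ) : ℕ → Polynomial ℝ
  | 0 => 1
  | 1 => X
  | n + 2 => X * Pl G k (n + 1) - C (RR G k (n + 1)) * Pl G k n

lemma Pl_zero (G : ℕ → ℝ) (k : ℕ) : Pl G k 0 = 1 := rfl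
lemma Pl_one (G : ℕ → ℝ) (k : ℕ) : Pl G k 1 = Polynomial.X := rfl
lemma Pl_succ (G : ℕ → ℝ) (k n : ℕ) : Pl G k (n + 2)
    = Polynomial.X * Pl G k (n + 1) - Polynomial.C (RR G k (n + 1)) * Pl G k n := rfl

lemma Pl_eval_succ (G : ℕ → ℝ) (k n : ℕ) (x : ℝ) : (Pl G k (n + 2)).eval x
    = x * (Pl G k (n + 1)).eval x - RR G k (n + 1) * (Pl G k n).eval x := by
  rw [Pl_succ]; simp

lemma Pl_monic (G : ℕ → ℝ) (k n : ℕ) :
    (Pl G k n).Monic ∧ (Pl G k n).natDegree = n := by
  induction n using Nat.strong_induction_on with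
  | _ n ih =>
    match n with
    | 0 => rw [Pl_zero]; exact ⟨Polynomial.monic_one, Polynomial.natDegree_one⟩
    | 1 => rw [Pl_one]; exact ⟨Polynomial.monic_X, Polynomial.natDegree_X⟩
    | m + 2 =>
      obtain ⟨h1, h2⟩ := ih (m + 1) (by omega)
      obtain ⟨h3, h4⟩ := ih m (by omega)
      rw [Pl_succ]
      have hd : (Polynomial.X * Pl G k (m + 1)).natDegree = m + 2 := by
        rw [Polynomial.monic_X.natDegree_mul h1, Polynomial.natDegree_X, h2]; ring
      have hm : (Polynomial.X * Pl G k (m + 1)).Monic := Polynomial.monic_X.mul h1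
      have hnd : (Polynomial.C (RR G k (m + 1)) * Pl G k m).natDegree
          < (Polynomial.X * Pl G k (m + 1)).natDegree := by
        rw [hd]
        refine lt_of_le_of_lt (Polynomial.natDegree_C_mul_le _ _) ?_
        omega
      have hdeg := Polynomial.degree_lt_degree hnd
      refine ⟨hm.sub_of_left hdeg, ?_⟩
      rw [Polynomial.natDegree_sub_eq_left_of_natDegree_lt hnd, hd]

lemma Pl_eval2 (G : ℕ → ℝ) (hG : ∀ k, 2 < G k) (k : ℕ) (x : ℝ) (n : ℕ) :
    (Pl G k (2 * n)).eval x = (Pl G (k + 1) n).eval (fq (G k) x) / (G k) ^ n := by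
  have hG0 : G k ≠ 0 := by linarith [hG k]
  induction n using Nat.strong_induction_on with
  | _ n ih =>
    match n with
    | 0 => simp [Pl_zero]
    | 1 =>
      rw [mul_one, Pl_one, Pl_succ, Pl_zero, Pl_one]
      have hR : RR G k (0 + 1) = (G k - 1) / G k := by
        have := RR_odd G k 0
        rw [mul_zero] at this
        rw [this, rr_zero]
      rw [hR]
      simp only [Polynomial.eval_sub, Polynomial.eval_mul, Polynomial.eval_X, Polynomial.eval_C,
        pow_one, mul_one]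
      unfold fq
      field_simp
      ring
    | m + 2 =>
      have i1 := ih m (by omega)
      have i2 := ih (m + 1) (by omega)
      have e4 : 2 * (m + 2) = 2 * m + 2 + 2 := by ring
      have e2 : 2 * (m + 1) = 2 * m + 2 := by ring
      rw [e2] at i2
      have p4 := Pl_eval_succ G k (2 * m + 2) x
      have p3 := Pl_eval_succ G k (2 * m + 1) x
      have p2 := Pl_eval_succ G k (2 * m) x
      have q2 := Pl_eval_succ G (k + 1) m (fq (G k) x)
      have r1 := RR_add G k (m + 1)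
      have r2 := RR_mul G hG k m
      rw [show 2 * (m + 1) = 2 * m + 2 by ring] at r1
      rw [e4, p4, q2]
      rw [show 2 * m + 1 + 2 = 2 * m + 2 + 1 by ring, show 2 * m + 1 + 1 = 2 * m + 2 by ring] at p3
      rw [p3]
      set a := (Pl G k (2 * m)).eval x
      set b := (Pl G k (2 * m + 1)).eval x
      set c := (Pl G k (2 * m + 2)).eval x
      set A := (Pl G (k + 1) m).eval (fq (G k) x)
      set B := (Pl G (k + 1) (m + 1)).eval (fq (G k) x)
      have s1 : x * (x * c - RR G k (2 * m + 2) * b) - RR G k (2 * m + 2 + 1) * c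
          = (x ^ 2 - (RR G k (2 * m + 2) + RR G k (2 * m + 2 + 1))) * c
            - (RR G k (2 * m + 1) * RR G k (2 * m + 2)) * a := by
        rw [p2]
        have p2' : x * b = c + RR G k (2 * m + 1) * a := by rw [p2]; ring
        rw [← p2]
        linear_combination (-RR G k (2 * m + 2)) * p2'
      rw [s1, r1, r2, i1, i2]
      unfold fq
      field_simp
      ring

lemma Pl_neg (G : ℕ → ℝ) (k : ℕ) (x : ℝ) (n : ℕ) :
    (Pl G k n).eval (-x) = (-1) ^ n * (Pl G k n).eval x := by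
  induction n using Nat.strong_induction_on with
  | _ n ih =>
    match n with
    | 0 => simp [Pl_zero]
    | 1 => simp [Pl_one]
    | m + 2 =>
      rw [Pl_eval_succ, Pl_eval_succ, ih (m + 1) (by omega), ih m (by omega)]
      ring

lemma int_poly {μ : Measure ℝ} [IsFiniteMeasure μ] (h : ∀ᵐ y ∂μ, |y| ≤ 1) (p : Polynomial ℝ) :
    Integrable (fun x => p.eval x) μ := by
  obtain ⟨C, hC⟩ := (isCompact_Icc (a := (-1:ℝ)) (b := 1)).exists_bound_of_continuousOn
    (f := fun x => p.eval x) p.continuous.continuousOn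
  apply Integrable.of_bound p.continuous.measurable.aestronglyMeasurable C
  filter_upwards [h] with x hx
  exact hC x (abs_le.1 hx)

lemma int_Pl (G : ℕ → ℝ) (hG : ∀ k, 2 < G k) (μ : ℕ → ProbabilityMeasure ℝ)
    (h2 : ∀ k, (μ k : Measure ℝ).map (fq (G k)) = (μ (k + 1) : Measure ℝ))
    (h3 : ∀ k, (μ k : Measure ℝ).map (fun x => -x) = (μ k : Measure ℝ)) (n : ℕ) :
    ∀ k, 0 < n → ∫ x, (Pl G k n).eval x ∂(μ k : Measure ℝ) = 0 := by
  induction n using Nat.strong_induction_on with
  | _ n ih =>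
    intro k hn
    rcases Nat.even_or_odd' n with ⟨m, rfl | rfl⟩
    · have i1 := ih m (by omega) (k + 1) (by omega)
      simp_rw [Pl_eval2 G hG k]
      rw [integral_div]
      rw [← h2 k, integral_map (cont_fq (G k)).measurable.aemeasurable
        (Polynomial.continuous _).measurable.aestronglyMeasurable] at i1
      rw [i1, zero_div]
    · have e : ∫ x, (Pl G k (2 * m + 1)).eval x ∂(μ k : Measure ℝ)
          = ∫ x, (Pl G k (2 * m + 1)).eval (-x) ∂(μ k : Measure ℝ) := by
        conv_lhs => rw [← h3 k]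
        rw [integral_map measurable_neg.aemeasurable
          (Polynomial.continuous _).measurable.aestronglyMeasurable]
      simp_rw [Pl_neg] at e
      rw [Odd.neg_one_pow ⟨m, rfl⟩, integral_const_mul] at e
      linarith

def hh (G : ℕ → ℝ) (n : ℕ) : ℝ := ∏ i ∈ Finset.range n, RR G 0 (i + 1)

lemma hh_pos (G : ℕ → ℝ) (hG : ∀ k, 2 < G k) (n : ℕ) : 0 < hh G n :=
  Finset.prod_pos fun i _ => RR_pos G hG 0 i

lemma hh_succ (G : ℕ → ℝ) (n : ℕ) : hh G (n + 1) = hh G n * RR G 0 (n + 1) := by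
  unfold hh
  rw [Finset.prod_range_succ]

lemma orth (G : ℕ → ℝ) (ν : Measure ℝ) [IsProbabilityMeasure ν]
    (h1 : ∀ᵐ y ∂ν, |y| ≤ 1) (h : ∀ n, 0 < n → ∫ x, (Pl G 0 n).eval x ∂ν = 0) (m : ℕ) :
    (∀ n, m < n → ∫ x, (Pl G 0 m).eval x * (Pl G 0 n).eval x ∂ν = 0) ∧
    ∫ x, (Pl G 0 m).eval x * (Pl G 0 m).eval x ∂ν = hh G m := by
  have hint : ∀ a b : ℕ, Integrable (fun x => (Pl G 0 a).eval x * (Pl G 0 b).eval x) ν := by
    intro a b
    have := int_poly h1 (Pl G 0 a * Pl G 0 b)
    simpa using this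
  induction m using Nat.strong_induction_on with
  | _ m ih =>
    match m with
    | 0 =>
      constructor
      · intro n hn
        simp only [Pl_zero, Polynomial.eval_one, one_mul]
        exact h n hn
      · simp only [Pl_zero, Polynomial.eval_one, one_mul]
        simp [hh]
    | 1 =>
      have key : ∀ n, 0 < n → ∫ x, (Pl G 0 1).eval x * (Pl G 0 n).eval x ∂ν
          = ∫ x, (Pl G 0 (n + 1)).eval x ∂ν + RR G 0 n * ∫ x, (Pl G 0 (n - 1)).eval x ∂ν := by
        intro n hn
        obtain ⟨d, rfl⟩ : ∃ d, n = d + 1 := ⟨n - 1, by omega⟩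
        rw [Nat.add_sub_cancel, ← integral_const_mul, ← integral_add (int_poly h1 _)
          ((int_poly h1 _).const_mul _)]
        apply integral_congr_ae
        refine Filter.Eventually.of_forall fun x => ?_
        simp only [Pl_one, Polynomial.eval_X]
        rw [Pl_eval_succ]
        ring
      constructor
      · intro n hn
        rw [key n (by omega), h (n + 1) (by omega), h (n - 1) (by omega)]
        ring
      · rw [key 1 (by omega), h 2 (by omega)]
        simp [Pl_zero, hh]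
    | m + 2 =>
      obtain ⟨a1, a2⟩ := ih (m + 1) (by omega)
      obtain ⟨b1, b2⟩ := ih m (by omega)
      have key : ∀ n, 0 < n → ∫ x, (Pl G 0 (m + 2)).eval x * (Pl G 0 n).eval x ∂ν
          = ∫ x, (Pl G 0 (m + 1)).eval x * (Pl G 0 (n + 1)).eval x ∂ν
            + RR G 0 n * ∫ x, (Pl G 0 (m + 1)).eval x * (Pl G 0 (n - 1)).eval x ∂ν
            - RR G 0 (m + 1) * ∫ x, (Pl G 0 m).eval x * (Pl G 0 n).eval x ∂ν := by
        intro n hn
        obtain ⟨d, rfl⟩ : ∃ d, n = d + 1 := ⟨n - 1, by omega⟩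
        have hi : Integrable (fun x => (Pl G 0 (m + 1)).eval x * (Pl G 0 (d + 1 + 1)).eval x
            + RR G 0 (d + 1) * ((Pl G 0 (m + 1)).eval x * (Pl G 0 d).eval x)) ν :=
          (hint _ _).add ((hint _ _).const_mul _)
        rw [Nat.add_sub_cancel, ← integral_const_mul, ← integral_const_mul,
          ← integral_add (hint _ _) ((hint _ _).const_mul _),
          ← integral_sub hi ((hint _ _).const_mul _)]
        apply integral_congr_ae
        refine Filter.Eventually.of_forall fun x => ?_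
        simp only [Pl_eval_succ]
        ring
      constructor
      · intro n hn
        rw [key n (by omega), a1 (n + 1) (by omega), a1 (n - 1) (by omega), b1 n (by omega)]
        ring
      · rw [key (m + 2) (by omega), a1 (m + 2 + 1) (by omega), b1 (m + 2) (by omega)]
        have : m + 2 - 1 = m + 1 := by omega
        rw [this, a2, hh_succ G (m + 1)]
        ring

lemma orth_x (G : ℕ → ℝ) (ν : Measure ℝ) [IsProbabilityMeasure ν]
    (h1 : ∀ᵐ y ∂ν, |y| ≤ 1) (h : ∀ n, 0 < n → ∫ x, (Pl G 0 n).eval x ∂ν = 0) (n : ℕ) :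
    ∫ x, x * ((Pl G 0 n).eval x * (Pl G 0 (n + 1)).eval x) ∂ν = hh G (n + 1) := by
  have hint : ∀ a b : ℕ, Integrable (fun x => (Pl G 0 a).eval x * (Pl G 0 b).eval x) ν := by
    intro a b
    have := int_poly h1 (Pl G 0 a * Pl G 0 b)
    simpa using this
  rcases Nat.eq_zero_or_pos n with rfl | hn
  · have := (orth G ν h1 h 1).2
    rw [← this]
    apply integral_congr_ae
    refine Filter.Eventually.of_forall fun x => ?_
    simp [Pl_zero, Pl_one]
  · obtain ⟨d, rfl⟩ : ∃ d, n = d + 1 := ⟨n - 1, by omega⟩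
    have e : ∫ x, x * ((Pl G 0 (d + 1)).eval x * (Pl G 0 (d + 1 + 1)).eval x) ∂ν
        = ∫ x, (Pl G 0 (d + 1 + 1)).eval x * (Pl G 0 (d + 1 + 1)).eval x ∂ν
          + RR G 0 (d + 1) * ∫ x, (Pl G 0 d).eval x * (Pl G 0 (d + 1 + 1)).eval x ∂ν := by
      rw [← integral_const_mul, ← integral_add (hint _ _) ((hint _ _).const_mul _)]
      apply integral_congr_ae
      refine Filter.Eventually.of_forall fun x => ?_
      simp only [Pl_eval_succ]
      ring
    rw [e, (orth G ν h1 h (d + 1 + 1)).2, (orth G ν h1 h d).1 (d + 1 + 1) (by omega)]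
    ring

end

end Pool.Agent.Helper973.KG
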