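import Mathlib
import Pool.Agent.Helper973.KGh

set_option autoImplicit false
open MeasureTheory Filter Topology

namespace Pool.Agent.Helper973.KG

noncomputable section

def gam (k : ℕ) : ℝ := 1 / (2 * Gp k)

lemma gam_pos (k : ℕ) : 0 < gam k ∧ gam k < 1 / 4 := by
  have h := two_lt_Gp k
  unfold gam
  constructor
  · positivity
  · apply one_div_lt_one_div_of_lt (by norm_num)
    linarith

def FF (s : ℕ) (x : ℝ) : ℝ :=
  List.foldl (fun (y : ℝ) (k : ℕ) => if k = 0 then 2 * y * (y - 1) / gam 0 + 1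
    else (y ^ 2 - 1) / (2 * gam k) + 1) x (List.range s)

lemma FF_zero (x : ℝ) : FF 0 x = x := rfl

lemma FF_succ (s : ℕ) (x : ℝ) : FF (s + 1) x = if s = 0 then 2 * (FF s x) * (FF s x - 1) / gam 0 + 1
    else ((FF s x) ^ 2 - 1) / (2 * gam s) + 1 := by
  unfold FF
  rw [List.range_succ, List.foldl_append]
  rfl

def ph (w : ℝ) : ℝ := (1 + w) / 2
def ps (z : ℝ) : ℝ := 2 * z - 1

lemma ph_ps (z : ℝ) : ph (ps z) = z := by unfold ph ps; ring
lemma ps_ph (w : ℝ) : ps (ph w) = w := by unfold ph ps; ring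
lemma meas_ph : Measurable ph := by unfold ph; fun_prop
lemma meas_ps : Measurable ps := by unfold ps; fun_prop

lemma Fk_succ_right (G : ℕ → ℝ) (j : ℕ) : ∀ k x, Fk G k (j + 1) x = fq (G (k + j)) (Fk G k j x) := by
  induction j with
  | zero => intro k x; rfl
  | succ j ih =>
    intro k x
    show Fk G (k + 1) (j + 1) (fq (G k) x) = _
    rw [ih]
    have : k + 1 + j = k + (j + 1) := by ring
    rw [this]
    rfl

lemma FF_ph (s : ℕ) (w : ℝ) : FF (s + 1) (ph w) = Fk Gp 0 (s + 1) w := by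
  induction s with
  | zero =>
    rw [FF_succ, if_pos rfl, FF_zero, Fk_succ_right]
    have h := two_lt_Gp 0
    show _ = fq (Gp 0) w
    unfold fq ph gam
    have : Gp 0 ≠ 0 := by linarith
    field_simp
    ring
  | succ s ih =>
    rw [FF_succ, if_neg (by omega), ih, Fk_succ_right Gp (s + 1)]
    have h := two_lt_Gp (s + 1)
    rw [zero_add]
    unfold fq gam
    have : Gp (s + 1) ≠ 0 := by linarith
    field_simp

lemma meas_FF (s : ℕ) : Measurable (FF s) := by
  have h : FF s = fun z => FF s (ph (ps z)) := by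
    funext z; rw [ph_ps]
  rcases Nat.eq_zero_or_pos s with rfl | hs
  · exact measurable_id
  · obtain ⟨t, rfl⟩ : ∃ t, s = t + 1 := ⟨s - 1, by omega⟩
    rw [h]
    simp_rw [FF_ph]
    exact (cont_Fk Gp (t + 1) 0).measurable.comp meas_ps

def bad : Set ℝ := {x : ℝ | ∃ s : ℕ, 1 < |FF s x|}

lemma meas_bad : MeasurableSet bad := by
  have : bad = ⋃ s, {x | 1 < |FF s x|} := by
    ext x; simp [bad]
  rw [this]
  apply MeasurableSet.iUnion
  intro s
  exact measurableSet_lt measurable_const (continuous_abs.measurable.comp (meas_FF s))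

def kz (x y : ℝ) : ENNReal := if x = y then (⊤ : ENNReal) else ENNReal.ofReal (-Real.log |x - y|)

lemma kz_ph (x y : ℝ) : kz (ph x) (ph y) = ker x y := by
  unfold kz ker
  by_cases h : x = y
  · rw [if_pos h, if_pos (by rw [h])]
  · have h2 : ph x ≠ ph y := by
      intro h3
      apply h
      have := congrArg ps h3
      rwa [ps_ph, ps_ph] at this
    rw [if_neg h, if_neg h2]
    congr 1
    have e : ph x - ph y = (x - y) / 2 := by unfold ph; ring
    rw [e, abs_div, ← Real.log_inv, inv_div]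
    norm_num

lemma meas_kz : Measurable (fun z : ℝ × ℝ => kz z.1 z.2) := by
  unfold kz
  apply Measurable.ite
  · exact measurableSet_eq_fun measurable_fst measurable_snd
  · exact measurable_const
  · fun_prop

lemma En_kz (ν : Measure ℝ) [IsProbabilityMeasure ν] :
    ∫⁻ x, ∫⁻ y, kz x y ∂(ν.map ph) ∂(ν.map ph) = En ν := by
  have : IsProbabilityMeasure (ν.map ph) := Measure.isProbabilityMeasure_map meas_ph.aemeasurable
  rw [← lintegral_prod (fun z : ℝ × ℝ => kz z.1 z.2) meas_kz.aemeasurable,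
    Measure.map_prod_map ν ν meas_ph meas_ph, lintegral_map meas_kz (meas_ph.prodMap meas_ph)]
  unfold En
  apply lintegral_congr
  intro z
  exact kz_ph z.1 z.2

lemma kz_lower (ν : Measure ℝ) [IsProbabilityMeasure ν] (h : ν bad = 0) (n : ℕ) :
    ENNReal.ofReal (Vn Gp 0 n) ≤ ∫⁻ x, ∫⁻ y, kz x y ∂ν ∂ν := by
  have hp : IsProbabilityMeasure (ν.map ps) := Measure.isProbabilityMeasure_map meas_ps.aemeasurable
  have e : ν = (ν.map ps).map ph := by
    rw [Measure.map_map meas_ph meas_ps]
    have : ph ∘ ps = id := by funext z; exact ph_ps z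
    rw [this, Measure.map_id]
  have hms : MeasurableSet {x | ∀ j, |Fk Gp 0 j x| ≤ 1} := by
    have : {x | ∀ j, |Fk Gp 0 j x| ≤ 1} = ⋂ j, {x | |Fk Gp 0 j x| ≤ 1} := by
      ext x; simp
    rw [this]
    apply MeasurableSet.iInter
    intro j
    exact measurableSet_le (cont_Fk Gp j 0).abs.measurable measurable_const
  have h1 : ∀ᵐ x ∂(ν.map ps), ∀ j, |Fk Gp 0 j x| ≤ 1 := by
    rw [ae_map_iff meas_ps.aemeasurable hms]
    have h2 : ∀ᵐ z ∂ν, z ∉ bad := by
      rw [ae_iff]
      simpa using h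
    filter_upwards [h2] with z hz
    have hz' : ∀ s, |FF s z| ≤ 1 := by
      intro s
      by_contra hc
      exact hz ⟨s, not_le.1 hc⟩
    have h3 : ∀ j, |Fk Gp 0 (j + 1) (ps z)| ≤ 1 := by
      intro j
      rw [← FF_ph, ph_ps]
      exact hz' (j + 1)
    intro j
    rcases Nat.eq_zero_or_pos j with rfl | hj
    · have h4 := h3 0
      have h5 : fq (Gp 0) (ps z) ≤ 1 := (abs_le.1 h4).2
      unfold fq at h5
      show |ps z| ≤ 1
      have h6 : (ps z) ^ 2 ≤ 1 := by
        have hG := two_lt_Gp 0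
        by_contra hc
        have : 0 < Gp 0 * ((ps z) ^ 2 - 1) := mul_pos (by linarith) (by linarith [not_le.1 hc])
        linarith
      exact (sq_le_one_iff_abs_le_one _).1 h6
    · obtain ⟨t, rfl⟩ : ∃ t, j = t + 1 := ⟨j - 1, by omega⟩
      exact h3 t
  have h2 := En_lower Gp two_lt_Gp n 0 (ν.map ps) hp h1
  rw [← En_kz (ν.map ps), ← e] at h2
  exact h2

open Polynomial in
def pz (n : ℕ) : Polynomial ℝ :=
  C (1 / √(hh Gp n)) * (Pl Gp 0 n).comp (C 2 * X - C 1)

lemma pz_eval (n : ℕ) (w : ℝ) : (pz n).eval (ph w) = (1 / √(hh Gp n)) * (Pl Gp 0 n).eval w := by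
  unfold pz
  rw [Polynomial.eval_mul, Polynomial.eval_C, Polynomial.eval_comp]
  congr 2
  simp only [Polynomial.eval_sub, Polynomial.eval_mul, Polynomial.eval_C, Polynomial.eval_X]
  unfold ph; ring

lemma pz_deg (n : ℕ) : (pz n).natDegree = n ∧ 0 < (pz n).leadingCoeff := by
  obtain ⟨h1, h2⟩ := Pl_monic Gp 0 n
  have hc : 0 < 1 / √(hh Gp n) := by
    have := Real.sqrt_pos.2 (hh_pos Gp two_lt_Gp n)
    positivity
  have hq : (Polynomial.C (2:ℝ) * Polynomial.X - Polynomial.C 1).natDegree = 1 := by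
    have : Polynomial.C (2:ℝ) * Polynomial.X - Polynomial.C 1
        = Polynomial.C 2 * Polynomial.X + Polynomial.C (-1) := by
      rw [Polynomial.C_neg]; ring
    rw [this]
    exact Polynomial.natDegree_linear (by norm_num)
  have hl : (Polynomial.C (2:ℝ) * Polynomial.X - Polynomial.C 1).leadingCoeff = 2 := by
    have : Polynomial.C (2:ℝ) * Polynomial.X - Polynomial.C 1
        = Polynomial.C 2 * Polynomial.X + Polynomial.C (-1) := by
      rw [Polynomial.C_neg]; ring
    rw [this]
    exact Polynomial.leadingCoeff_linear (by norm_num)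
  unfold pz
  constructor
  · rw [Polynomial.natDegree_C_mul hc.ne', Polynomial.natDegree_comp, h2, hq, mul_one]
  · rw [Polynomial.leadingCoeff_mul, Polynomial.leadingCoeff_C, Polynomial.leadingCoeff_comp
      (by rw [hq]; norm_num), hl, h1.leadingCoeff, h2]
    positivity

end

end Pool.Agent.Helper973.KG
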