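import Mathlib
import Pool.Agent.Helper973.KGi

set_option autoImplicit false
open MeasureTheory Filter Topology

namespace Pool.Agent.Helper973.KG

noncomputable section

/-- Bohr almost periodicity of a two sided sequence and pigeonhole on infinitely many shifts -/
lemma bohr_pigeon (c : ℤ → ℝ)
    (h : ∀ ε : ℝ, 0 < ε → ∃ L : ℕ, ∀ m : ℤ, ∃ τ : ℤ, m ≤ τ ∧ τ ≤ m + L ∧
      ∀ n : ℤ, |c (n + τ) - c n| < ε) (s : ℕ → ℤ) (ε : ℝ) (hε : 0 < ε) :
    ∃ i i' : ℕ, i < i' ∧ ∀ n : ℤ, |c (n + s i) - c (n + s i')| < 2 * ε := by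
  obtain ⟨L, hL⟩ := h ε hε
  choose τ h1 h2 h3 using fun i : ℕ => hL (s i - L)
  have hb : ∀ i, 0 ≤ s i - τ i ∧ s i - τ i ≤ L := by
    intro i
    have a := h1 i
    have b := h2 i
    constructor <;> linarith
  let f : ℕ → Fin (L + 1) := fun i => ⟨(s i - τ i).toNat, by
    have := hb i
    omega⟩
  obtain ⟨i, i', hne, hff⟩ := Finite.exists_ne_map_eq_of_infinite f
  have heq : s i - τ i = s i' - τ i' := by
    have h4 : (s i - τ i).toNat = (s i' - τ i').toNat := congrArg Fin.val hff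
    have a := hb i
    have b := hb i'
    omega
  have key : ∀ n : ℤ, |c (n + s i) - c (n + s i')| < 2 * ε := by
    intro n
    have a := h3 i (n + (s i - τ i))
    have b := h3 i' (n + (s i - τ i))
    have e1 : n + (s i - τ i) + τ i = n + s i := by ring
    have e2 : n + (s i - τ i) + τ i' = n + s i' := by rw [heq]; ring
    rw [e1] at a
    rw [e2] at b
    rw [abs_lt] at a b ⊢
    constructor <;> linarith
  rcases lt_or_gt_of_ne hne with hlt | hgt
  · exact ⟨i, i', hlt, key⟩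
  · refine ⟨i', i, hgt, fun n => ?_⟩
    rw [abs_sub_comm]
    exact key n

theorem not_aap (a : ℕ → ℝ) (ha : ∀ n, a n = 1 / 2 * √(RR Gp 0 (n + 1))) :
    ¬ ∃ c : ℤ → ℝ, (∀ ε : ℝ, 0 < ε → ∃ L : ℕ, ∀ m : ℤ, ∃ τ : ℤ, m ≤ τ ∧ τ ≤ m + L ∧
      ∀ n : ℤ, |c (n + τ) - c n| < ε) ∧ Tendsto (fun n : ℕ => a n - c n) atTop (𝓝 0) := by
  rintro ⟨c, hc, ht⟩
  have hG0 : 0 < Gp 0 := by linarith [two_lt_Gp 0]
  set δ : ℝ := 1 / 2 * √(1 / 8 / Gp 0) - 1 / 2 * √(1 / 10 / Gp 0) with hδ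
  have hδ0 : 0 < δ := by
    have : √(1 / 10 / Gp 0) < √(1 / 8 / Gp 0) := by
      apply Real.sqrt_lt_sqrt (by positivity)
      apply div_lt_div_of_pos_right _ hG0
      norm_num
    linarith
  obtain ⟨i, i', hii, hcc⟩ := bohr_pigeon c hc (fun i => 2 * (2:ℤ) ^ (Sn i)) (δ / 8) (by linarith)
  rw [Metric.tendsto_atTop] at ht
  obtain ⟨N, hN⟩ := ht (δ / 4) (by linarith)
  obtain ⟨q, hq, q1, q2⟩ := gap i i' hii N
  have ea : ∀ t : ℕ, a (2 * (q + t)) = 1 / 2 * √(rr Gp 1 (q + t) (Gp 0 - 1) / Gp 0) := by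
    intro t
    rw [ha, RR_odd]
  have b1 : 1 / 2 * √(1 / 8 / Gp 0) ≤ a (2 * (q + 2 ^ (Sn i))) := by
    rw [ea]
    apply mul_le_mul_of_nonneg_left _ (by norm_num)
    apply Real.sqrt_le_sqrt
    exact div_le_div_of_nonneg_right q1 hG0.le
  have b2 : a (2 * (q + 2 ^ (Sn i'))) ≤ 1 / 2 * √(1 / 10 / Gp 0) := by
    rw [ea]
    apply mul_le_mul_of_nonneg_left _ (by norm_num)
    apply Real.sqrt_le_sqrt
    exact div_le_div_of_nonneg_right q2 hG0.le
  have c1 := hN (2 * (q + 2 ^ (Sn i))) (by nlinarith [Nat.zero_le (2 ^ (Sn i))])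
  have c2 := hN (2 * (q + 2 ^ (Sn i'))) (by nlinarith [Nat.zero_le (2 ^ (Sn i'))])
  have c3 := hcc (2 * (q : ℤ))
  rw [Real.dist_eq, sub_zero] at c1 c2
  have e1 : ((2 * (q + 2 ^ (Sn i)) : ℕ) : ℤ) = 2 * (q : ℤ) + 2 * (2:ℤ) ^ (Sn i) := by
    push_cast; ring
  have e2 : ((2 * (q + 2 ^ (Sn i')) : ℕ) : ℤ) = 2 * (q : ℤ) + 2 * (2:ℤ) ^ (Sn i') := by
    push_cast; ring
  rw [e1] at c1
  rw [e2] at c2
  rw [abs_lt] at c1 c2 c3
  linarith [c1.1, c1.2, c2.1, c2.2, c3.1, c3.2]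

theorem main : ∃ μ : Measure ℝ, IsProbabilityMeasure μ ∧ μ bad = 0 ∧
    (∫⁻ x, ∫⁻ y, kz x y ∂μ ∂μ) < ⊤ ∧
    (∀ ν : Measure ℝ, IsProbabilityMeasure ν → ν bad = 0 →
      (∫⁻ x, ∫⁻ y, kz x y ∂μ ∂μ) ≤ (∫⁻ x, ∫⁻ y, kz x y ∂ν ∂ν)) ∧
    (∀ m n, ∫ x, (pz m).eval x * (pz n).eval x ∂μ = if m = n then 1 else 0) ∧
    (∀ n, ∫ x, x * (pz n).eval x * (pz (n + 1)).eval x ∂μ = 1 / 2 * √(RR Gp 0 (n + 1))) := by
  obtain ⟨μ, h1, h2, h3, h4⟩ := exists_meas Gp two_lt_Gp
  have hint := int_Pl Gp two_lt_Gp μ h2 h3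
  have horth := orth Gp (μ 0 : Measure ℝ) (h1 0) (fun n hn => hint n 0 hn)
  have horthx := orth_x Gp (μ 0 : Measure ℝ) (h1 0) (fun n hn => hint n 0 hn)
  have hFk : ∀ j k, (μ k : Measure ℝ).map (Fk Gp k j) = (μ (k + j) : Measure ℝ) := by
    intro j
    induction j with
    | zero => intro k; exact Measure.map_id
    | succ j ih =>
      intro k
      have e : Fk Gp k (j + 1) = Fk Gp (k + 1) j ∘ fq (Gp k) := rfl
      rw [e, ← Measure.map_map (cont_Fk Gp j (k + 1)).measurable (cont_fq (Gp k)).measurable, h2,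
        ih (k + 1)]
      congr 2
      ring
  have hms : MeasurableSet {x : ℝ | |x| ≤ 1} :=
    measurableSet_le continuous_abs.measurable measurable_const
  have hsupp : ∀ᵐ w ∂(μ 0 : Measure ℝ), ∀ j, |Fk Gp 0 j w| ≤ 1 := by
    rw [ae_all_iff]
    intro j
    have := h1 (0 + j)
    rw [← hFk j 0, ae_map_iff (cont_Fk Gp j 0).measurable.aemeasurable hms] at this
    exact this
  refine ⟨(μ 0 : Measure ℝ).map ph, Measure.isProbabilityMeasure_map meas_ph.aemeasurable, ?_, ?_,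
    ?_, ?_, ?_⟩
  · have h5 : ∀ᵐ z ∂((μ 0 : Measure ℝ).map ph), z ∉ bad := by
      rw [ae_map_iff meas_ph.aemeasurable meas_bad.compl]
      filter_upwards [hsupp] with w hw
      rintro ⟨s, hs⟩
      rcases Nat.eq_zero_or_pos s with rfl | hs0
      · rw [FF_zero] at hs
        have hw0 : |w| ≤ 1 := hw 0
        have hw1 := abs_le.1 hw0
        unfold ph at hs
        have : |(1 + w) / 2| ≤ 1 := by
          rw [abs_le]; constructor <;> linarith [hw1.1, hw1.2]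
        linarith
      · obtain ⟨t, rfl⟩ : ∃ t, s = t + 1 := ⟨s - 1, by omega⟩
        rw [FF_ph] at hs
        linarith [hw (t + 1)]
    rw [ae_iff] at h5
    simpa using h5
  · rw [En_kz]
    refine lt_of_le_of_lt (h4 (ENNReal.ofReal 9) ?_) ENNReal.ofReal_lt_top
    intro n
    apply ENNReal.ofReal_le_ofReal
    have := Vn_Gp_le n 0
    simpa using this
  · intro ν hν hb
    rw [En_kz]
    exact h4 _ (fun n => kz_lower ν hb n)
  · intro m n
    have hcont : Continuous (fun x => (pz m).eval x * (pz n).eval x) :=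
      (pz m).continuous.mul (pz n).continuous
    rw [integral_map meas_ph.aemeasurable hcont.measurable.aestronglyMeasurable]
    simp_rw [pz_eval]
    have e : ∀ w : ℝ, 1 / √(hh Gp m) * (Pl Gp 0 m).eval w * (1 / √(hh Gp n) * (Pl Gp 0 n).eval w)
        = (1 / √(hh Gp m) * (1 / √(hh Gp n))) * ((Pl Gp 0 m).eval w * (Pl Gp 0 n).eval w) := by
      intro w; ring
    simp_rw [e]
    rw [integral_const_mul]
    rcases lt_trichotomy m n with h | h | h
    · rw [(horth m).1 n h, if_neg h.ne, mul_zero]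
    · subst h
      rw [(horth m).2, if_pos rfl]
      have hp := hh_pos Gp two_lt_Gp m
      have hs := Real.sqrt_pos.2 hp
      have := Real.mul_self_sqrt hp.le
      field_simp
      rw [sq]
      exact this.symm
    · have e2 : ∀ w : ℝ, (Pl Gp 0 m).eval w * (Pl Gp 0 n).eval w
          = (Pl Gp 0 n).eval w * (Pl Gp 0 m).eval w := fun w => mul_comm _ _
      simp_rw [e2]
      rw [(horth n).1 m h, if_neg h.ne', mul_zero]
  · intro n
    have hcont : Continuous (fun x => x * (pz n).eval x * (pz (n + 1)).eval x) :=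
      (continuous_id.mul (pz n).continuous).mul (pz (n + 1)).continuous
    rw [integral_map meas_ph.aemeasurable hcont.measurable.aestronglyMeasurable]
    simp_rw [pz_eval]
    have e : ∀ w : ℝ, ph w * (1 / √(hh Gp n) * (Pl Gp 0 n).eval w)
          * (1 / √(hh Gp (n + 1)) * (Pl Gp 0 (n + 1)).eval w)
        = (1 / 2 * (1 / √(hh Gp n) * (1 / √(hh Gp (n + 1)))))
            * ((Pl Gp 0 n).eval w * (Pl Gp 0 (n + 1)).eval w
              + w * ((Pl Gp 0 n).eval w * (Pl Gp 0 (n + 1)).eval w)) := by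
      intro w; unfold ph; ring
    simp_rw [e]
    have i1 : Integrable (fun w => (Pl Gp 0 n).eval w * (Pl Gp 0 (n + 1)).eval w)
        (μ 0 : Measure ℝ) := by
      have := int_poly (h1 0) (Pl Gp 0 n * Pl Gp 0 (n + 1))
      simpa using this
    have i2 : Integrable (fun w => w * ((Pl Gp 0 n).eval w * (Pl Gp 0 (n + 1)).eval w))
        (μ 0 : Measure ℝ) := by
      have := int_poly (h1 0) (Polynomial.X * (Pl Gp 0 n * Pl Gp 0 (n + 1)))
      simpa using this
    rw [integral_const_mul, integral_add i1 i2, (horth n).1 (n + 1) (by omega), horthx n, zero_add,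
      hh_succ]
    have hp := hh_pos Gp two_lt_Gp n
    have hR := RR_pos Gp two_lt_Gp 0 n
    have hs := Real.sqrt_pos.2 hp
    have hsR := Real.sqrt_pos.2 hR
    have m1 := Real.mul_self_sqrt hp.le
    have m2 := Real.mul_self_sqrt hR.le
    rw [Real.sqrt_mul hp.le]
    have e3 : 1 / 2 * (1 / √(hh Gp n) * (1 / (√(hh Gp n) * √(RR Gp 0 (n + 1)))))
        * (hh Gp n * RR Gp 0 (n + 1))
        = 1 / 2 * ((hh Gp n) / (√(hh Gp n) * √(hh Gp n))
          * (RR Gp 0 (n + 1) / √(RR Gp 0 (n + 1)))) := by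
      field_simp
    rw [e3, m1, div_self hp.ne', one_mul]
    congr 1
    rw [div_eq_iff hsR.ne']
    exact m2.symm

end

end Pool.Agent.Helper973.KG
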