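import Mathlib
import Pool.Agent.Helper973.Fou
import Pool.Agent.Helper973.HK

set_option autoImplicit false

/-!
Characters of the torus are phases, and the seminorm controls the averages for Weyl systems.
-/

namespace Pool.Agent.Helper973.Main

open MeasureTheory Filter Topology Finset
open Pool.Agent.Helper973.Tor Pool.Agent.Helper973.Chr Pool.Agent.Helper973.Red
open Pool.Agent.Helper973.Fou Pool.Agent.Helper973.HK

variable {D : ℕ} {u : Matrix (Fin D) (Fin D) ℤ} {m : ℕ}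

lemma commute_BB (t : ℤ) : Commute u (BB u m t) := by
  unfold BB
  apply Commute.sum_right
  intro s _
  exact (Commute.refl u).pow_right s |>.smul_right _

lemma vecMul_BB (hm0 : 0 < m) (ψ : Fin D → ℤ) (hψ : Matrix.vecMul ψ u = 0) (t : ℤ) :
    Matrix.vecMul ψ (BB u m t) = t • ψ := by
  obtain ⟨k, rfl⟩ : ∃ k, m = k + 1 := ⟨m - 1, by omega⟩
  unfold BB
  rw [vecMul_sum', Finset.sum_range_succ']
  have h1 : ∀ s, Matrix.vecMul ψ (u ^ (s + 1)) = 0 := by
    intro s
    rw [pow_succ', ← Matrix.vecMul_vecMul, hψ, Matrix.zero_vecMul]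
  simp only [h1, smul_zero, Finset.sum_const_zero, zero_add, pow_zero, Matrix.vecMul_one]
  rw [Ring.choose_one_right]

/-- derivative of a character along an iterate of the affine map -/
lemma deriv_ech (hm : u ^ m = 0) (hm0 : 0 < m) (T : Equiv.Perm (Fin D → UnitAddCircle))
    (b : Fin D → UnitAddCircle) (hT : ∀ x, T x = mact (1 + u) x + b) (χ : Fin D → ℤ) (c : ℂ)
    (hc : ‖c‖ = 1) (h : ℕ) :
    (fun x => (starRingEnd ℂ) (c * ech χ x) * (c * ech χ ((T ^ h) x))) =
      fun x => (AddCircle.toCircle (dot (Matrix.vecMul χ (BB u m h)) b) : ℂ) *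
        ech (Matrix.vecMul χ (u * BB u m h)) x := by
  funext x
  have h1 : ech χ ((T ^ h) x) = (AddCircle.toCircle (dot (Matrix.vecMul χ (BB u m h)) b) : ℂ) *
      ech (Matrix.vecMul χ (PP u m h)) x := by
    have h2 := zpow_apply hm hm0 T b hT (h : ℤ) x
    rw [zpow_natCast] at h2
    rw [h2]
    unfold ech
    rw [dot_add, dot_mact, dot_mact, AddCircle.toCircle_add, Circle.coe_mul, mul_comm]
  have h3 : Matrix.vecMul χ (u * BB u m h) = Matrix.vecMul χ (PP u m h) + -χ := by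
    rw [one_add_mul_BB hm, if_pos hm0, Matrix.vecMul_sub, Matrix.vecMul_one, sub_eq_add_neg]
  rw [h3, ech_add, ech_neg, h1, map_mul]
  have h4 : (starRingEnd ℂ) c * c = 1 := by
    rw [mul_comm, Complex.mul_conj', hc]
    simp
  linear_combination ((starRingEnd ℂ) (ech χ x)) *
    (AddCircle.toCircle (dot (Matrix.vecMul χ (BB u m h)) b) : ℂ) *
      ech (Matrix.vecMul χ (PP u m h)) x * h4

lemma freq_deriv (hm0 : 0 < m) (χ : Fin D → ℤ) (k : ℕ)
    (h1 : Matrix.vecMul χ (u ^ (k + 2)) = 0) (b : Fin D → UnitAddCircle) (t : ℤ) :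
    Matrix.vecMul (Matrix.vecMul χ (u * BB u m t)) (u ^ (k + 1)) = 0 ∧
      dot (Matrix.vecMul (Matrix.vecMul χ (u * BB u m t)) (u ^ k)) b =
        t • dot (Matrix.vecMul χ (u ^ (k + 1))) b := by
  have hc := commute_BB (u := u) (m := m) t
  constructor
  · have e1 : u * BB u m t * u ^ (k + 1) = u ^ (k + 2) * BB u m t := by
      rw [mul_assoc, ← (hc.pow_left (k + 1)).eq, ← mul_assoc, ← pow_succ']
    rw [Matrix.vecMul_vecMul, e1, ← Matrix.vecMul_vecMul, h1, Matrix.zero_vecMul]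
  · have e1 : u * BB u m t * u ^ k = u ^ (k + 1) * BB u m t := by
      rw [mul_assoc, ← (hc.pow_left k).eq, ← mul_assoc, ← pow_succ']
    rw [Matrix.vecMul_vecMul, e1, ← Matrix.vecMul_vecMul, vecMul_BB hm0]
    · exact map_zsmul (dotHom b) t (Matrix.vecMul χ (u ^ (k + 1)))
    · rw [Matrix.vecMul_vecMul, ← pow_succ, h1]

lemma ech_phase (hm : u ^ m = 0) (hm0 : 0 < m) (T : Equiv.Perm (Fin D → UnitAddCircle))
    (b : Fin D → UnitAddCircle) (hT : ∀ x, T x = mact (1 + u) x + b) (k : ℕ) :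
    ∀ (χ : Fin D → ℤ) (c : ℂ), ‖c‖ = 1 → Matrix.vecMul χ (u ^ (k + 1)) = 0 →
      dot (Matrix.vecMul χ (u ^ k)) b = 0 → IsPhase T k (fun x => c * ech χ x) := by
  induction k with
  | zero =>
    intro χ c _ h1 h2 x
    rw [zero_add, pow_one] at h1
    rw [pow_zero, Matrix.vecMul_one] at h2
    simp only
    congr 1
    unfold ech
    rw [hT, dot_add, dot_mact, Matrix.vecMul_add, Matrix.vecMul_one, h1, add_zero, h2, add_zero]
  | succ k ih =>
    intro χ c hc h1 h2 h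
    rw [deriv_ech hm hm0 T b hT χ c hc h]
    obtain ⟨h3, h4⟩ := freq_deriv (m := m) hm0 χ k h1 b (h : ℤ)
    apply ih
    · simp
    · exact h3
    · rw [h4, h2, smul_zero]

/-- the seminorm of order `ℓ` controls the averages -/
theorem seminorm_char (hm : u ^ m = 0) (hm0 : 0 < m) {ℓ : ℕ} (hℓ : 2 ≤ ℓ)
    (T : Equiv.Perm (Fin D → UnitAddCircle))
    (b : Fin D → UnitAddCircle) (hT : ∀ x, T x = mact (1 + u) x + b) (p : Fin ℓ → Polynomial ℤ)
    (hp : ∀ i, 0 < (p i).natDegree) (hpp : ∀ i j, i ≠ j → 0 < (p i - p j).natDegree)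
    (f : Fin ℓ → (Fin D → UnitAddCircle) → ℂ) (hf : ∀ i, MemLp (f i) ⊤ (haarT D)) (j : Fin ℓ)
    (h0 : hkPow (haarT D) T (ℓ - 1) (f j) = 0) :
    L2Zero (haarT D) (avg T p f) := by
  obtain ⟨k, rfl⟩ : ∃ k, ℓ = k + 2 := ⟨ℓ - 2, by omega⟩
  have hTm : ∀ t : ℕ, MeasurePreserving (T ^ t : Equiv.Perm (Fin D → UnitAddCircle))
      (haarT D) (haarT D) := by
    intro t
    have := mp_affine (T ^ (t : ℤ)) _ _ (fun x => zpow_apply hm hm0 T b hT (t : ℤ) x)
    rwa [zpow_natCast] at this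
  apply crit hm hm0 (by omega) T b hT p hp hpp f hf j
  intro χ h1 h2
  have e1 : k + 2 - 1 = k + 1 := by omega
  rw [e1] at h0 h2
  unfold fc
  apply no_corr hTm k (addOrderOf (dot (Matrix.vecMul χ (u ^ (k + 1))) b))
    (Nat.one_le_iff_ne_zero.2 (addOrderOf_pos_iff.2 h2).ne') (f j) (ech χ) (hf j)
    (continuous_ech χ).measurable (norm_ech χ) _ h0
  intro h
  have h3 := deriv_ech hm hm0 T b hT χ 1 norm_one
    (addOrderOf (dot (Matrix.vecMul χ (u ^ (k + 1))) b) * h)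
  simp only [one_mul] at h3
  rw [h3]
  obtain ⟨h4, h5⟩ := freq_deriv (m := m) hm0 χ k h1 b
    ((addOrderOf (dot (Matrix.vecMul χ (u ^ (k + 1))) b) * h : ℕ) : ℤ)
  apply ech_phase hm hm0 T b hT k
  · simp
  · exact h4
  · rw [h5, natCast_zsmul, mul_comm, mul_smul, addOrderOf_nsmul_eq_zero, smul_zero]

end Pool.Agent.Helper973.Main
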