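import Mathlib
import Pool.Agent.Helper973.Red

set_option autoImplicit false

/-!
Telescoping: passing from the seminorm statement to characteristic factors.
-/

namespace Pool.Agent.Helper973.Tele

open MeasureTheory Filter Topology Finset
open Pool.Agent.Helper973.Chr Pool.Agent.Helper973.Red

lemma ae_norm_le {X : Type*} {m0 : MeasurableSpace X} {μ : Measure X} (f : X → ℂ)
    (hf : MemLp f ⊤ μ) : ∀ᵐ x ∂μ, ‖f x‖ ≤ (eLpNorm f ⊤ μ).toReal := by
  have h1 := ae_le_eLpNormEssSup (f := f) (μ := μ)
  filter_upwards [h1] with x hx
  rw [eLpNorm_exponent_top]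
  have h2 : eLpNormEssSup f μ ≠ ⊤ := by
    have := hf.2
    rw [eLpNorm_exponent_top] at this
    exact this.ne
  rw [← ofReal_norm, ENNReal.ofReal_le_iff_le_toReal h2] at hx
  exact hx

/-- conditional expectations of bounded functions are bounded -/
lemma memLp_top_condExp {X : Type*} {Z m0 : MeasurableSpace X} (hZ : Z ≤ m0) {μ : Measure X}
    [IsProbabilityMeasure μ] (f : X → ℂ) (hf : MemLp f ⊤ μ) : MemLp (μ[f|Z]) ⊤ μ := by
  have h1 := norm_condExp_le (μ := μ) (m := Z) f
  have h2 : ∀ᵐ x ∂μ, |(fun x => ‖f x‖) x| ≤ (eLpNorm f ⊤ μ).toReal := by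
    filter_upwards [ae_norm_le f hf] with x hx
    simpa using hx
  have h3 := ae_bdd_abs_condExp_of_ae_bdd_abs (m := Z) h2
  refine MemLp.of_bound (stronglyMeasurable_condExp.mono hZ).aestronglyMeasurable
    (eLpNorm f ⊤ μ).toReal ?_
  filter_upwards [h1, h3] with x hx1 hx3
  exact hx1.trans ((le_abs_self _).trans hx3)

/-- the difference of the averages goes to zero provided every average with an entry of the form
`f - E(f | Z)` does -/
lemma telescope {X : Type*} {Z m0 : MeasurableSpace X} (hZ : Z ≤ m0) {μ : Measure X}
    [IsProbabilityMeasure μ] {ℓ : ℕ} {T : Equiv.Perm X} {p : Fin ℓ → Polynomial ℤ}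
    (hT : ∀ t : ℤ, MeasurePreserving (T ^ t : Equiv.Perm X) μ μ)
    (hmain : ∀ f : Fin ℓ → X → ℂ, (∀ i, MemLp (f i) ⊤ μ) → (∃ j, μ[f j|Z] =ᵐ[μ] 0) →
      L2Zero μ (avg T p f))
    (f : Fin ℓ → X → ℂ) (hf : ∀ i, MemLp (f i) ⊤ μ) :
    L2Zero μ (fun N => avg T p f N - avg T p (fun i => μ[f i|Z]) N) := by
  classical
  let F : Finset (Fin ℓ) → Fin ℓ → X → ℂ := fun S i => if i ∈ S then μ[f i|Z] else f i
  have hF : ∀ S i, MemLp (F S i) ⊤ μ := by
    intro S i
    simp only [F]
    split_ifs
    · exact memLp_top_condExp hZ (f i) (hf i)
    · exact hf i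
  have key : ∀ S : Finset (Fin ℓ), L2Zero μ (fun N => avg T p f N - avg T p (F S) N) := by
    intro S
    induction S using Finset.induction_on with
    | empty =>
      have h1 : F ∅ = f := by funext i; simp [F]
      rw [h1]
      unfold L2Zero
      simp
    | insert a S ha ih =>
      have h1 : F S = Function.update (F S) a (f a) := by
        rw [eq_comm, Function.update_eq_self_iff]
        simp [F, ha]
      have h2 : F (insert a S) = Function.update (F S) a (μ[f a|Z]) := by
        funext i
        by_cases hi : i = a
        · subst hi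
          simp [F]
        · rw [Function.update_of_ne hi]
          simp [F, hi]
      have h3 : f a = (f a - μ[f a|Z]) + μ[f a|Z] := by rw [sub_add_cancel]
      have h4 : ∀ N, avg T p (F S) N = avg T p (Function.update (F S) a (f a - μ[f a|Z])) N +
          avg T p (F (insert a S)) N := by
        intro N
        rw [h2, ← avg_update_add, ← h3, ← h1]
      have h5 : L2Zero μ (avg T p (Function.update (F S) a (f a - μ[f a|Z]))) := by
        apply hmain
        · intro i
          by_cases hi : i = a
          · subst hi
            rw [Function.update_self]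
            exact (hf i).sub (memLp_top_condExp hZ (f i) (hf i))
          · rw [Function.update_of_ne hi]
            exact hF S i
        · refine ⟨a, ?_⟩
          rw [Function.update_self]
          have e1 : Integrable (f a) μ := (hf a).integrable le_top
          have e2 : Integrable (μ[f a|Z]) μ := integrable_condExp
          have e3 := condExp_sub e1 e2 Z
          have e4 := condExp_condExp_of_le (f := f a) (μ := μ) (le_refl Z) hZ
          filter_upwards [e3, e4] with x hx3 hx4
          rw [hx3, Pi.sub_apply, hx4, sub_self]
          rfl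
      unfold L2Zero at ih h5 ⊢
      have h6 := ih.add h5
      rw [add_zero] at h6
      refine tendsto_of_tendsto_of_tendsto_of_le_of_le tendsto_const_nhds h6 (fun N => zero_le)
        (fun N => ?_)
      simp only
      have h7 : avg T p f N - avg T p (F (insert a S)) N = (avg T p f N - avg T p (F S) N) +
          avg T p (Function.update (F S) a (f a - μ[f a|Z])) N := by
        rw [h4 N]
        abel
      rw [h7]
      refine eLpNorm_add_le ?_ ?_ (by norm_num)
      · exact (aesm_avg hT f (fun i => (hf i).1) N).sub (aesm_avg hT _ (fun i => (hF S i).1) N)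
      · apply aesm_avg hT
        intro i
        by_cases hi : i = a
        · subst hi
          rw [Function.update_self]
          exact ((hf i).sub (memLp_top_condExp hZ (f i) (hf i))).1
        · rw [Function.update_of_ne hi]
          exact (hF S i).1
  have h1 := key Finset.univ
  have h2 : F Finset.univ = fun i => μ[f i|Z] := by funext i; simp [F]
  rw [h2] at h1
  exact h1

end Pool.Agent.Helper973.Tele
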